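import Mathlib

namespace CSTS
open Finset

variable {α : Type} [DecidableEq α]

/-- The local tools for absorption; `P S` is read as: `S` has a perfect matching. -/
structure AbsHyp (V : Finset α) (P : Finset α → Prop) (m : ℕ) : Prop where
  emp : P ∅
  uni : ∀ S T, Disjoint S T → P S → P T → P (S ∪ T)
  dvd : ∀ S, P S → 3 ∣ #S
  edge : ∀ F : Finset α, #F ≤ m → ∃ T ⊆ V, Disjoint T F ∧ #T = 3 ∧ P T
  swi : ∀ F : Finset α, #F ≤ m → ∀ x ∈ V, ∀ y ∈ V, x ∈ F → y ∈ F → x ≠ y →
    ∃ W ⊆ V, Disjoint W F ∧ #W ≤ 5 ∧ P (insert x W) ∧ P (insert y W)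

variable {V : Finset α} {P : Finset α → Prop} {m : ℕ}

theorem AbsHyp.swiMany (h : AbsHyp V P m) (j : ℕ) : ∀ (F X A : Finset α), #X = j → #A = j →
    X ⊆ V → A ⊆ V → X ⊆ F → A ⊆ F → Disjoint X A → #F + 5 * j ≤ m →
    ∃ W ⊆ V, Disjoint W F ∧ #W ≤ 5 * j ∧ P (X ∪ W) ∧ P (A ∪ W) := by
  induction j with
  | zero =>
    intro F X A hX hA _ _ _ _ _ _
    rw [card_eq_zero] at hX hA
    subst hX hA
    exact ⟨∅, empty_subset _, disjoint_empty_left _, by simp, by simpa using h.emp,
      by simpa using h.emp⟩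
  | succ j ih =>
    intro F X A hX hA hXV hAV hXF hAF hd hm
    obtain ⟨x, hx⟩ : X.Nonempty := card_pos.1 (by omega)
    obtain ⟨a, ha⟩ : A.Nonempty := card_pos.1 (by omega)
    obtain ⟨W, hWV, hWF, hWc, hP1, hP2⟩ := ih F (X.erase x) (A.erase a)
      (by rw [card_erase_of_mem hx]; omega) (by rw [card_erase_of_mem ha]; omega)
      ((erase_subset _ _).trans hXV) ((erase_subset _ _).trans hAV)
      ((erase_subset _ _).trans hXF) ((erase_subset _ _).trans hAF)
      (hd.mono (erase_subset _ _) (erase_subset _ _)) (by omega)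
    obtain ⟨W', hW'V, hW'F, hW'c, hQ1, hQ2⟩ := h.swi (F ∪ W)
      ((card_union_le _ _).trans (by omega)) x (hXV hx) a (hAV ha)
      (mem_union_left _ (hXF hx)) (mem_union_left _ (hAF ha))
      (fun hh => disjoint_left.1 hd hx (hh ▸ ha))
    have key : ∀ (Y : Finset α) (y : α), y ∈ Y → Y ⊆ F → P (Y.erase y ∪ W) → P (insert y W') →
        P (Y ∪ (W ∪ W')) := by
      intro Y y hy hYF p1 p2
      have hdj : Disjoint (Y.erase y ∪ W) (insert y W') := by
        rw [disjoint_left] at hWF hW'F ⊢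
        intro v hv hv'
        have q1 := @hYF v
        have q2 := @hYF y
        have q3 := @hWF v
        have q4 := @hW'F v
        clear * - hv hv' hy q1 q2 q3 q4
        grind
      have := h.uni _ _ hdj p1 p2
      have e : Y.erase y ∪ W ∪ insert y W' = Y ∪ (W ∪ W') := by
        ext v; clear * - hy; grind
      rwa [e] at this
    refine ⟨W ∪ W', union_subset hWV hW'V, ?_, (card_union_le _ _).trans (by omega),
      key X x hx hXF hP1 hQ1, key A a ha hAF hP2 hQ2⟩
    exact disjoint_union_left.2 ⟨hWF, hW'F.mono_right subset_union_left⟩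

theorem AbsHyp.triple (h : AbsHyp V P m) (F Y : Finset α) (hY : #Y = 3) (hYV : Y ⊆ V)
    (hYF : Y ⊆ F) (hm : #F + 18 ≤ m) :
    ∃ W ⊆ V, Disjoint W F ∧ #W ≤ 18 ∧ P W ∧ P (W ∪ Y) := by
  obtain ⟨T, hTV, hTF, hT, hPT⟩ := h.edge F (by omega)
  obtain ⟨W, hWV, hWF, hWc, hP1, hP2⟩ := h.swiMany 3 (F ∪ T) Y T hY hT hYV hTV
    (hYF.trans subset_union_left) subset_union_right (hTF.symm.mono_left hYF)
    (by have := card_union_le F T; omega)
  refine ⟨T ∪ W, union_subset hTV hWV, ?_, (card_union_le _ _).trans (by omega), hP2, ?_⟩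
  · exact disjoint_union_left.2 ⟨hTF, hWF.mono_right subset_union_left⟩
  · have hdj : Disjoint T (Y ∪ W) :=
      disjoint_union_right.2 ⟨hTF.mono_right hYF, (hWF.mono_right subset_union_right).symm⟩
    have := h.uni _ _ hdj hPT hP1
    have e : T ∪ (Y ∪ W) = T ∪ W ∪ Y := by ext v; grind
    rwa [e] at this

theorem AbsHyp.realize (h : AbsHyp V P m) (F : Finset α) (T : Finset (Finset α))
    (hT : ∀ Y ∈ T, #Y = 3 ∧ Y ⊆ V ∧ Y ⊆ F) (hm : #F + 18 * #T ≤ m) :
    ∃ W ⊆ V, Disjoint W F ∧ #W ≤ 18 * #T ∧ ∀ M ⊆ T,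
      (∀ Y ∈ M, ∀ Z ∈ M, Y ≠ Z → Disjoint Y Z) → P (W ∪ M.biUnion id) := by
  induction T using Finset.induction_on with
  | empty =>
    refine ⟨∅, empty_subset _, disjoint_empty_left _, by simp, ?_⟩
    intro M hM _
    rw [subset_empty.1 hM]
    simpa using h.emp
  | insert Y T hYT ih =>
    rw [card_insert_of_notMem hYT] at hm ⊢
    obtain ⟨W, hWV, hWF, hWc, hW⟩ := ih (fun Z hZ => hT Z (mem_insert_of_mem hZ)) (by omega)
    obtain ⟨hY3, hYV, hYF⟩ := hT Y (mem_insert_self _ _)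
    obtain ⟨W', hW'V, hW'F, hW'c, hQ1, hQ2⟩ := h.triple (F ∪ W) Y hY3 hYV
      (hYF.trans subset_union_left) (by have := card_union_le F W; omega)
    refine ⟨W ∪ W', union_subset hWV hW'V,
      disjoint_union_left.2 ⟨hWF, hW'F.mono_right subset_union_left⟩,
      (card_union_le _ _).trans (by omega), ?_⟩
    intro M hM hd
    have hM' : M.erase Y ⊆ T := by
      intro Z hZ
      obtain ⟨h1, h2⟩ := mem_erase.1 hZ
      exact (mem_insert.1 (hM h2)).resolve_left h1
    have p1 := hW (M.erase Y) hM'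
      (fun A hA B hB => hd A (mem_of_mem_erase hA) B (mem_of_mem_erase hB))
    have hsub : (M.erase Y).biUnion id ⊆ F := by
      intro v hv
      obtain ⟨Z, hZ, hv⟩ := mem_biUnion.1 hv
      exact (hT Z (mem_insert_of_mem (hM' hZ))).2.2 hv
    have hd1 : Disjoint (W ∪ (M.erase Y).biUnion id) W' :=
      (hW'F.mono_right (by rw [union_comm]; exact union_subset_union hsub subset_rfl)).symm
    by_cases hYM : Y ∈ M
    · have hd2 : Disjoint (W ∪ (M.erase Y).biUnion id) Y := by
        refine disjoint_union_left.2 ⟨hWF.mono_right hYF, ?_⟩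
        rw [disjoint_biUnion_left]
        intro Z hZ
        obtain ⟨h1, h2⟩ := mem_erase.1 hZ
        exact hd Z h2 Y hYM h1
      have := h.uni _ _ (disjoint_union_right.2 ⟨hd1, hd2⟩) p1 hQ2
      have e0 : M.biUnion id = Y ∪ (M.erase Y).biUnion id := by
        conv_lhs => rw [← insert_erase hYM, biUnion_insert]
        rfl
      have e : W ∪ (M.erase Y).biUnion id ∪ (W' ∪ Y) = W ∪ W' ∪ M.biUnion id := by
        rw [e0]; ext v; simp only [mem_union]; tauto
      rwa [e] at this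
    · have := h.uni _ _ hd1 p1 hQ1
      rw [erase_eq_of_notMem hYM] at this
      have e : W ∪ M.biUnion id ∪ W' = W ∪ W' ∪ M.biUnion id := by
        ext v; simp only [mem_union]; tauto
      rwa [e] at this

theorem split_triples (j : ℕ) : ∀ S : Finset α, #S = 3 * j → ∃ M ⊆ powersetCard 3 S,
    (∀ Y ∈ M, ∀ Z ∈ M, Y ≠ Z → Disjoint Y Z) ∧ M.biUnion id = S := by
  induction j with
  | zero =>
    intro S hS
    rw [card_eq_zero.1 hS]
    exact ⟨∅, empty_subset _, by simp, by simp⟩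
  | succ j ih =>
    intro S hS
    obtain ⟨Y, hYS, hY⟩ := exists_subset_card_eq (s := S) (n := 3) (by omega)
    obtain ⟨M, hM, hd, hU⟩ := ih (S \ Y) (by rw [card_sdiff_of_subset hYS]; omega)
    have hZ : ∀ Z ∈ M, Disjoint Y Z := fun Z hZ =>
      disjoint_sdiff.mono_right (mem_powersetCard.1 (hM hZ)).1
    refine ⟨insert Y M, ?_, ?_, ?_⟩
    · intro Z hZ
      rcases mem_insert.1 hZ with rfl | hZ
      · exact mem_powersetCard.2 ⟨hYS, hY⟩
      · exact powersetCard_mono sdiff_subset (hM hZ)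
    · intro A hA B hB hAB
      rcases mem_insert.1 hA with h1 | h1 <;> rcases mem_insert.1 hB with h2 | h2
      · exact absurd (h1.trans h2.symm) hAB
      · rw [h1]; exact hZ B h2
      · rw [h2]; exact (hZ A h1).symm
      · exact hd A h1 B h2 hAB
    · rw [biUnion_insert, hU]
      exact union_sdiff_of_subset hYS

theorem AbsHyp.small (h : AbsHyp V P m) (F Y : Finset α) (hY : #Y = 6) (hYV : Y ⊆ V)
    (hYF : Y ⊆ F) (hm : #F + 360 ≤ m) :
    ∃ W ⊆ V, Disjoint W F ∧ #W ≤ 360 ∧ ∀ S ⊆ Y, 3 ∣ #S → P (W ∪ S) := by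
  have hc : #(powersetCard 3 Y) = 20 := by rw [card_powersetCard, hY]; rfl
  obtain ⟨W, hWV, hWF, hWc, hW⟩ := h.realize F (powersetCard 3 Y) (fun Z hZ => by
    obtain ⟨h1, h2⟩ := mem_powersetCard.1 hZ
    exact ⟨h2, h1.trans hYV, h1.trans hYF⟩) (by omega)
  refine ⟨W, hWV, hWF, by omega, ?_⟩
  rintro S hS ⟨j, hj⟩
  obtain ⟨M, hM, hd, hU⟩ := split_triples j S hj
  have := hW M (hM.trans (powersetCard_mono hS)) hd
  rwa [hU] at this

theorem AbsHyp.flex (h : AbsHyp V P m) (r : ℕ) : ∀ (F R : Finset α), #R = r → R ⊆ V → R ⊆ F →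
    #F + 363 * r ≤ m → ∃ W ⊆ V, Disjoint W F ∧ #W ≤ 363 * r ∧ ∀ S ⊆ R, 3 ∣ #S → P (W ∪ S) := by
  induction r with
  | zero =>
    intro F R hR _ _ _
    refine ⟨∅, empty_subset _, disjoint_empty_left _, by simp, ?_⟩
    intro S hS _
    rw [card_eq_zero.1 hR] at hS
    rw [subset_empty.1 hS]
    simpa using h.emp
  | succ r ih =>
    intro F R hR hRV hRF hm
    by_cases hr : r < 2
    · refine ⟨∅, empty_subset _, disjoint_empty_left _, by simp, ?_⟩
      intro S hS h3
      have := card_le_card hS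
      have h0 : #S = 0 := by omega
      rw [card_eq_zero.1 h0]
      simpa using h.emp
    obtain ⟨Y, hYR, hY⟩ := exists_subset_card_eq (s := R) (n := 3) (by omega)
    obtain ⟨Z, hZV, hZF, hZ, -⟩ := h.edge F (by omega)
    obtain ⟨Q, hQZ, hQ⟩ := exists_subset_card_eq (s := Z) (n := 2) (by omega)
    have hRZ : Disjoint R Z := (hZF.mono_right hRF).symm
    have hcFZ := card_union_le F Z
    obtain ⟨W, hWV, hWF, hWc, hW⟩ := ih (F ∪ Z) (R \ Y ∪ Q)
      (by rw [card_union_of_disjoint (hRZ.mono sdiff_subset hQZ), card_sdiff_of_subset hYR]; omega)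
      (union_subset (sdiff_subset.trans hRV) (hQZ.trans hZV))
      (union_subset_union (sdiff_subset.trans hRF) hQZ) (by omega)
    have hcW := card_union_le (F ∪ Z) W
    obtain ⟨W', hW'V, hW'F, hW'c, hW'⟩ := h.small (F ∪ Z ∪ W) (Y ∪ Z)
      (by rw [card_union_of_disjoint (hRZ.mono_left hYR)]; omega)
      (union_subset (hYR.trans hRV) hZV)
      ((union_subset_union (hYR.trans hRF) subset_rfl).trans subset_union_left)
      (by linarith)
    refine ⟨W ∪ W' ∪ Z, union_subset (union_subset hWV hW'V) hZV, ?_, ?_, ?_⟩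
    · exact disjoint_union_left.2 ⟨disjoint_union_left.2 ⟨hWF.mono_right subset_union_left,
        hW'F.mono_right (subset_union_left.trans subset_union_left)⟩, hZF⟩
    · have := card_union_le (W ∪ W') Z
      have := card_union_le W W'
      omega
    · intro S hS h3
      obtain ⟨T, hTQ, hT⟩ := exists_subset_card_eq (s := Q) (n := #(S ∩ Y) % 3) (by omega)
      have c1 : #(S \ Y) + #(S ∩ Y) = #S := card_sdiff_add_card_inter S Y
      have d1 : Disjoint (S \ Y) T := hRZ.mono (sdiff_subset.trans hS) (hTQ.trans hQZ)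
      have d2 : Disjoint (S ∩ Y) (Z \ T) := hRZ.mono (inter_subset_left.trans hS) sdiff_subset
      have p1 := hW (S \ Y ∪ T) (union_subset_union (sdiff_subset_sdiff hS subset_rfl) hTQ)
        (by rw [card_union_of_disjoint d1]; omega)
      have p2 := hW' (S ∩ Y ∪ Z \ T) (union_subset_union inter_subset_right sdiff_subset)
        (by rw [card_union_of_disjoint d2, card_sdiff_of_subset (hTQ.trans hQZ)]; omega)
      have hdj : Disjoint (W ∪ (S \ Y ∪ T)) (W' ∪ (S ∩ Y ∪ Z \ T)) := by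
        rw [disjoint_left] at hWF hW'F hRZ ⊢
        intro v hv hv'
        have q1 := @hWF v
        have q2 := @hW'F v
        have q3 := @hRZ v
        have q4 := @hS v
        have q5 := @hRF v
        have q6 := @hTQ v
        have q7 := @hQZ v
        clear * - hv hv' q1 q2 q3 q4 q5 q6 q7
        grind
      have := h.uni _ _ hdj p1 p2
      have e : W ∪ (S \ Y ∪ T) ∪ (W' ∪ (S ∩ Y ∪ Z \ T)) = W ∪ W' ∪ Z ∪ S := by
        ext v
        have q1 := @hTQ v
        have q2 := @hQZ v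
        simp only [mem_union, mem_sdiff, mem_inter, mem_insert, mem_erase]
        tauto
      rwa [e] at this

theorem AbsHyp.cover (h : AbsHyp V P m) {R : Finset α} {K : ℕ}
    (hR : ∀ x ∈ V, ∀ F : Finset α, #F ≤ K → ∃ D ⊆ R, Disjoint D F ∧ #D = 2 ∧ P (insert x D))
    (L : Finset α) (hLV : L ⊆ V) (hLR : Disjoint L R) (hK : 2 * #L ≤ K) :
    ∃ D ⊆ R, #D = 2 * #L ∧ P (L ∪ D) := by
  induction L using Finset.induction_on with
  | empty => exact ⟨∅, empty_subset _, by simp, by simpa using h.emp⟩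
  | insert x L hx ih =>
    rw [card_insert_of_notMem hx] at hK ⊢
    obtain ⟨D, hDR, hD, hP⟩ := ih ((subset_insert _ _).trans hLV)
      (hLR.mono_left (subset_insert _ _)) (by omega)
    obtain ⟨D', hD'R, hdd, hD', hP'⟩ := hR x (hLV (mem_insert_self _ _)) D (by omega)
    refine ⟨D ∪ D', union_subset hDR hD'R, by rw [card_union_of_disjoint hdd.symm]; omega, ?_⟩
    have hdj : Disjoint (L ∪ D) (insert x D') := by
      rw [disjoint_left] at hLR hdd ⊢
      intro v hv hv'
      have q1 := @hLR v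
      have q2 := @hdd v
      have q3 := @hDR v
      have q4 := @hD'R v
      clear * - hv hv' hx hLR q1 q2 q3 q4
      grind
    have := h.uni _ _ hdj hP hP'
    have e : L ∪ D ∪ insert x D' = insert x L ∪ (D ∪ D') := by ext v; grind
    rwa [e] at this

/-- The absorber. -/
theorem AbsHyp.absorber (h : AbsHyp V P m) {R : Finset α} {K : ℕ} (hRV : R ⊆ V)
    (hm : 364 * #R ≤ m)
    (hR : ∀ x ∈ V, ∀ F : Finset α, #F ≤ K → ∃ D ⊆ R, Disjoint D F ∧ #D = 2 ∧ P (insert x D)) :
    ∃ A ⊆ V, #A ≤ 364 * #R ∧ ∀ L ⊆ V \ A, 2 * #L ≤ K → 3 ∣ #L + #A → P (L ∪ A) := by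
  obtain ⟨W, hWV, hWR, hWc, hW⟩ := h.flex (#R) R R rfl hRV subset_rfl (by omega)
  refine ⟨W ∪ R, union_subset hWV hRV, (card_union_le _ _).trans (by omega), ?_⟩
  intro L hL hK h3
  have hLd : Disjoint L (W ∪ R) := disjoint_sdiff.symm.mono_left hL
  obtain ⟨D, hDR, hD, hP⟩ := h.cover hR L (hL.trans sdiff_subset)
    (hLd.mono_right subset_union_right) hK
  have hW0 := h.dvd _ (hW ∅ (empty_subset _) (by simp))
  rw [union_empty] at hW0
  rw [card_union_of_disjoint hWR] at h3
  have hcD := card_le_card hDR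
  have p1 := hW (R \ D) sdiff_subset (by rw [card_sdiff_of_subset hDR]; omega)
  have hdj : Disjoint (L ∪ D) (W ∪ R \ D) := by
    rw [disjoint_left] at hLd hWR ⊢
    intro v hv hv'
    have q1 := @hLd v
    have q2 := @hWR v
    have q3 := @hDR v
    clear * - hv hv' q1 q2 q3
    grind
  have := h.uni _ _ hdj hP p1
  have e : L ∪ D ∪ (W ∪ R \ D) = L ∪ (W ∪ R) := by
    ext v
    have q1 := @hDR v
    simp only [mem_union, mem_sdiff, mem_inter, mem_insert, mem_erase]
    tauto
  rwa [e] at this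

end CSTS
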