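import Mathlib

namespace CSTS
open Finset

variable {α β : Type} [DecidableEq α] [DecidableEq β]

/-- `M` is a perfect matching of `W` in the labelled hypergraph with edges `E`, supports `s`. -/
structure IsPM (E : Finset β) (s : β → Finset α) (W : Finset α) (M : Finset β) : Prop where
  sub : M ⊆ E
  ins : ∀ e ∈ M, s e ⊆ W
  cov : ∀ v ∈ W, ∃ e ∈ M, v ∈ s e
  dis : ∀ e ∈ M, ∀ f ∈ M, ∀ v, v ∈ s e → v ∈ s f → e = f

open Classical in
/-- The perfect matchings of `W`. -/
noncomputable def PMs (E : Finset β) (s : β → Finset α) (W : Finset α) : Finset (Finset β) :=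
  E.powerset.filter (IsPM E s W)

variable {E : Finset β} {s : β → Finset α}

theorem mem_PMs {W : Finset α} {M : Finset β} : M ∈ PMs E s W ↔ IsPM E s W M := by
  classical
  unfold PMs
  rw [mem_filter, mem_powerset]
  exact ⟨fun h => h.2, fun h => ⟨h.sub, h⟩⟩

theorem IsPM.empty : IsPM E s ∅ ∅ :=
  ⟨empty_subset _, by simp, by simp, by simp⟩

theorem IsPM.single {e : β} (he : e ∈ E) : IsPM E s (s e) {e} :=
  ⟨by simpa using he, by simp, fun v hv => ⟨e, by simp, hv⟩, by
    intro a ha b hb _ _ _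
    rw [mem_singleton.1 ha, mem_singleton.1 hb]⟩

theorem IsPM.union {W W' : Finset α} {M M' : Finset β} (h : IsPM E s W M) (h' : IsPM E s W' M')
    (hd : Disjoint W W') : IsPM E s (W ∪ W') (M ∪ M') := by
  refine ⟨union_subset h.sub h'.sub, ?_, ?_, ?_⟩
  · intro e he
    rcases mem_union.1 he with he | he
    · exact (h.ins e he).trans subset_union_left
    · exact (h'.ins e he).trans subset_union_right
  · intro v hv
    rcases mem_union.1 hv with hv | hv
    · obtain ⟨e, he, hve⟩ := h.cov v hv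
      exact ⟨e, mem_union_left _ he, hve⟩
    · obtain ⟨e, he, hve⟩ := h'.cov v hv
      exact ⟨e, mem_union_right _ he, hve⟩
  · intro e he f hf v hve hvf
    rcases mem_union.1 he with he | he <;> rcases mem_union.1 hf with hf | hf
    · exact h.dis e he f hf v hve hvf
    · exact absurd (h'.ins f hf hvf) (disjoint_left.1 hd (h.ins e he hve))
    · exact absurd (h'.ins e he hve) (disjoint_left.1 hd (h.ins f hf hvf))
    · exact h'.dis e he f hf v hve hvf

theorem IsPM.erase {W : Finset α} {M : Finset β} (h : IsPM E s W M) {e : β} (he : e ∈ M) :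
    IsPM E s (W \ s e) (M.erase e) := by
  refine ⟨(erase_subset _ _).trans h.sub, ?_, ?_, ?_⟩
  · intro f hf v hv
    obtain ⟨hfe, hf⟩ := mem_erase.1 hf
    exact mem_sdiff.2 ⟨h.ins f hf hv, fun hve => hfe (h.dis f hf e he v hv hve)⟩
  · intro v hv
    obtain ⟨hv, hve⟩ := mem_sdiff.1 hv
    obtain ⟨f, hf, hvf⟩ := h.cov v hv
    exact ⟨f, mem_erase.2 ⟨fun hh => hve (hh ▸ hvf), hf⟩, hvf⟩
  · intro a ha b hb v h1 h2
    exact h.dis a (mem_of_mem_erase ha) b (mem_of_mem_erase hb) v h1 h2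

theorem IsPM.ins' {W : Finset α} {M : Finset β} {e : β} (h : IsPM E s (W \ s e) M) (he : e ∈ E)
    (hW : s e ⊆ W) : IsPM E s W (insert e M) := by
  have := (IsPM.single (s := s) he).union h disjoint_sdiff
  rwa [union_sdiff_of_subset hW, ← insert_eq] at this

theorem IsPM.notMem {W : Finset α} {M : Finset β} {e : β} (h : IsPM E s (W \ s e) M)
    (he : (s e).Nonempty) : e ∉ M := by
  intro hm
  obtain ⟨v, hv⟩ := he
  exact (mem_sdiff.1 (h.ins e hm hv)).2 hv

theorem IsPM.card {W : Finset α} {M : Finset β} (h : IsPM E s W M)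
    (h3 : ∀ e ∈ E, #(s e) = 3) : #W = 3 * #M := by
  have hW : W = M.biUnion s := by
    ext v
    rw [mem_biUnion]
    exact ⟨h.cov v, fun ⟨e, he, hv⟩ => h.ins e he hv⟩
  rw [hW, card_biUnion]
  · rw [sum_congr rfl (fun e he => h3 e (h.sub he))]
    simp [mul_comm]
  · intro a ha b hb hab
    exact disjoint_left.2 (fun v h1 h2 => hab (h.dis a ha b hb v h1 h2))

theorem sum_PMs_le (h3 : ∀ e ∈ E, #(s e) = 3) (W : Finset α) (E' : Finset β)
    (hE' : ∀ e ∈ E', e ∈ E ∧ s e ⊆ W) :
    3 * ∑ e ∈ E', #(PMs E s (W \ s e)) ≤ #W * #(PMs E s W) := by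
  have h1 : ∀ e ∈ E', #(PMs E s (W \ s e)) ≤ #((PMs E s W).filter (fun M => e ∈ M)) := by
    intro e he
    obtain ⟨heE, heW⟩ := hE' e he
    have hne : (s e).Nonempty := card_pos.1 (by rw [h3 e heE]; norm_num)
    refine card_le_card_of_injOn (fun M => insert e M) ?_ ?_
    · intro M hM
      have hM' := mem_PMs.1 (mem_coe.1 hM)
      exact mem_coe.2 (mem_filter.2 ⟨mem_PMs.2 (hM'.ins' heE heW), mem_insert_self _ _⟩)
    · intro M hM M' hM' hh
      have a1 := (mem_PMs.1 (mem_coe.1 hM)).notMem hne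
      have a2 := (mem_PMs.1 (mem_coe.1 hM')).notMem hne
      have : (insert e M).erase e = (insert e M').erase e := congrArg (fun X => X.erase e) hh
      rwa [erase_insert a1, erase_insert a2] at this
  have h2 : ∑ e ∈ E', #((PMs E s W).filter (fun M => e ∈ M)) =
      ∑ M ∈ PMs E s W, #(E'.filter (fun e => e ∈ M)) := by
    simp only [card_filter]
    exact sum_comm
  have h4 : ∀ M ∈ PMs E s W, 3 * #(E'.filter (fun e => e ∈ M)) ≤ #W := by
    intro M hM
    rw [(mem_PMs.1 hM).card h3]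
    exact Nat.mul_le_mul_left _ (card_le_card (fun e he => (mem_filter.1 he).2))
  calc 3 * ∑ e ∈ E', #(PMs E s (W \ s e))
      ≤ 3 * ∑ e ∈ E', #((PMs E s W).filter (fun M => e ∈ M)) :=
        Nat.mul_le_mul_left _ (sum_le_sum h1)
    _ = ∑ M ∈ PMs E s W, 3 * #(E'.filter (fun e => e ∈ M)) := by rw [h2, mul_sum]
    _ ≤ ∑ _M ∈ PMs E s W, #W := sum_le_sum h4
    _ = #W * #(PMs E s W) := by simp [mul_comm]

end CSTS
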