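import Mathlib

namespace CSTS
open Finset

variable {α β : Type} [DecidableEq α] [DecidableEq β]

/-- A 3-uniform labelled hypergraph on `V` with codegrees at most 4. -/
structure Tri (V : Finset α) (E : Finset β) (s : β → Finset α) : Prop where
  ins : ∀ e ∈ E, s e ⊆ V
  three : ∀ e ∈ E, #(s e) = 3
  codeg : ∀ u v, u ≠ v → #(E.filter (fun e => v ∈ s e ∧ u ∈ s e)) ≤ 4

variable {V : Finset α} {E : Finset β} {s : β → Finset α}

theorem Tri.swap (h : Tri V E s) (x : α → ℝ) (v : α) :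
    ∑ e ∈ E.filter (fun e => v ∈ s e), ∑ u ∈ s e, x u =
      ∑ u ∈ V, (#(E.filter (fun e => v ∈ s e ∧ u ∈ s e)) : ℝ) * x u := by
  have h1 : ∀ e ∈ E.filter (fun e => v ∈ s e),
      ∑ u ∈ s e, x u = ∑ u ∈ V, if u ∈ s e then x u else 0 := by
    intro e he
    rw [← sum_filter, filter_mem_eq_inter, inter_eq_right.2 (h.ins e (mem_filter.1 he).1)]
  rw [sum_congr rfl h1, sum_comm]
  refine sum_congr rfl (fun u _ => ?_)
  rw [← sum_filter, filter_filter, sum_const, nsmul_eq_mul]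

theorem Tri.resid (h : Tri V E s) {σ : ℝ} {v : α} (hv : v ∈ V)
    (hd : 2 * (#V : ℝ) - σ ≤ #(E.filter (fun e => v ∈ s e))) :
    (#(E.filter (fun e => v ∈ s e)) : ℝ) ≤ 2 * #V ∧ ∀ (x : α → ℝ) (B : ℝ), (∀ u ∈ V, |x u| ≤ B) →
      |2 * #V * x v + 4 * ∑ u ∈ V, x u - ∑ e ∈ E.filter (fun e => v ∈ s e), ∑ u ∈ s e, x u|
        ≤ (3 * σ + 4) * B := by
  set d : ℝ := (#(E.filter (fun e => v ∈ s e)) : ℝ) with hdd
  set c : α → ℝ := fun u => (#(E.filter (fun e => v ∈ s e ∧ u ∈ s e)) : ℝ) with hc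
  have hcv : c v = d := by simp [hc, hdd]
  have hc4 : ∀ u ∈ V.erase v, c u ≤ 4 := fun u hu => by
    have := h.codeg u v (mem_erase.1 hu).1
    simp only [hc]; exact_mod_cast this
  have hsum : ∑ u ∈ V, c u = 3 * d := by
    have := h.swap (fun _ => 1) v
    simp only [mul_one] at this
    rw [← this, sum_congr rfl (g := fun _ => (3 : ℝ))
      (fun e he => by simp [h.three e (mem_filter.1 he).1])]
    simp [hdd, mul_comm]
  have hN : (#(V.erase v) : ℝ) = #V - 1 := by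
    rw [card_erase_of_mem hv, Nat.cast_sub (card_pos.2 ⟨v, hv⟩)]; simp
  have hb : ∑ u ∈ V.erase v, (4 - c u) = 4 * (#V - 1) - 2 * d := by
    rw [sum_sub_distrib, sum_const, nsmul_eq_mul, hN]
    have := add_sum_erase V c hv
    linarith
  have hb0 : 0 ≤ ∑ u ∈ V.erase v, (4 - c u) := sum_nonneg (fun u hu => by linarith [hc4 u hu])
  refine ⟨by linarith, fun x B hB => ?_⟩
  have hB0 : 0 ≤ B := (abs_nonneg _).trans (hB v hv)
  have e1 : 2 * #V * x v + 4 * ∑ u ∈ V, x u - ∑ e ∈ E.filter (fun e => v ∈ s e), ∑ u ∈ s e, x u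
      = (2 * #V - d + 4) * x v + ∑ u ∈ V.erase v, (4 - c u) * x u := by
    rw [h.swap x v, ← add_sum_erase V x hv, ← add_sum_erase V (fun u => c u * x u) hv, hcv]
    simp only [sub_mul, sum_sub_distrib, ← mul_sum]
    ring
  rw [e1]
  have e2 : |∑ u ∈ V.erase v, (4 - c u) * x u| ≤ (∑ u ∈ V.erase v, (4 - c u)) * B := by
    rw [sum_mul]
    refine (abs_sum_le_sum_abs _ _).trans (sum_le_sum (fun u hu => ?_))
    rw [abs_mul, abs_of_nonneg (by linarith [hc4 u hu])]
    exact mul_le_mul_of_nonneg_left (hB u (mem_of_mem_erase hu)) (by linarith [hc4 u hu])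
  have e3 : |(2 * #V - d + 4) * x v| ≤ (2 * #V - d + 4) * B := by
    rw [abs_mul, abs_of_nonneg (by linarith)]
    exact mul_le_mul_of_nonneg_left (hB v hv) (by linarith)
  refine (abs_add_le _ _).trans ?_
  rw [hb] at e2
  nlinarith

theorem Tri.apriori (h : Tri V E s) {σ : ℝ} (hσ : 0 ≤ σ) (hN : 6 * σ + 8 ≤ #V)
    (hd : ∀ v ∈ V, 2 * (#V : ℝ) - σ ≤ #(E.filter (fun e => v ∈ s e))) (x : α → ℝ) (Y : ℝ)
    (hY : ∀ v ∈ V, |∑ e ∈ E.filter (fun e => v ∈ s e), ∑ u ∈ s e, x u| ≤ Y) :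
    ∀ v ∈ V, #V * |x v| ≤ 2 * Y := by
  have hpos : (0 : ℝ) < #V := by linarith
  obtain ⟨v0, hv0, hmax⟩ := exists_max_image V (fun v => |x v|)
    (card_pos.1 (by exact_mod_cast hpos))
  set B := |x v0| with hB
  set S := ∑ u ∈ V, x u with hS
  have hB0 : 0 ≤ B := abs_nonneg _
  have hY0 : 0 ≤ Y := (abs_nonneg _).trans (hY v0 hv0)
  have h1 : ∀ v ∈ V, |2 * #V * x v + 4 * S| ≤ Y + (3 * σ + 4) * B := by
    intro v hv
    have a := (h.resid hv (hd v hv)).2 x B hmax
    have b := hY v hv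
    rw [abs_le] at a b ⊢
    constructor <;> linarith [a.1, a.2, b.1, b.2]
  have h2 : 6 * |S| ≤ Y + (3 * σ + 4) * B := by
    have a : ∑ v ∈ V, (2 * #V * x v + 4 * S) = #V * (6 * S) := by
      rw [sum_add_distrib, ← mul_sum, sum_const, nsmul_eq_mul]; ring
    have b : |∑ v ∈ V, (2 * #V * x v + 4 * S)| ≤ #V * (Y + (3 * σ + 4) * B) := by
      refine (abs_sum_le_sum_abs _ _).trans ((sum_le_sum h1).trans ?_)
      rw [sum_const, nsmul_eq_mul]
    rw [a, abs_mul, abs_of_pos hpos, abs_mul, abs_of_pos (by norm_num : (0 : ℝ) < 6)] at b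
    exact le_of_mul_le_mul_left b hpos
  have h3 : 2 * #V * B ≤ Y + (3 * σ + 4) * B + 4 * |S| := by
    have a := h1 v0 hv0
    have b : |2 * #V * x v0| ≤ |2 * #V * x v0 + 4 * S| + |4 * S| := by
      have := abs_sub (2 * #V * x v0 + 4 * S) (4 * S)
      rwa [add_sub_cancel_right] at this
    rw [abs_mul, abs_of_pos (by linarith), abs_mul 4, abs_of_pos (by norm_num : (0 : ℝ) < 4)] at b
    linarith
  have h4 : (3 * σ + 4) * B ≤ #V / 2 * B := mul_le_mul_of_nonneg_right (by linarith) hB0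
  intro v hv
  have := mul_le_mul_of_nonneg_left (hmax v hv) hpos.le
  nlinarith

theorem Tri.weights [Fintype α] (h : Tri V E s) {σ : ℝ} (hσ : 0 ≤ σ) (hN : 6 * σ + 8 ≤ #V)
    (hd : ∀ v ∈ V, 2 * (#V : ℝ) - σ ≤ #(E.filter (fun e => v ∈ s e))) :
    ∃ w : β → ℝ, (∀ e ∈ E, 0 ≤ w e ∧ w e ≤ 1) ∧
      ∀ v ∈ V, ∑ e ∈ E.filter (fun e => v ∈ s e), w e = 2 * #V / (1 + 6 * σ / #V) := by
  have hpos : (0 : ℝ) < #V := by linarith
  let L : (α → ℝ) →ₗ[ℝ] (α → ℝ) :=
    { toFun := fun x v =>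
        if v ∈ V then ∑ e ∈ E.filter (fun e => v ∈ s e), ∑ u ∈ s e, x u else x v
      map_add' := by
        intro x y; funext v
        by_cases hv : v ∈ V <;> simp [hv, sum_add_distrib]
      map_smul' := by
        intro c x; funext v
        by_cases hv : v ∈ V <;> simp [hv, mul_sum] }
  have hL : ∀ x v, L x v =
      if v ∈ V then ∑ e ∈ E.filter (fun e => v ∈ s e), ∑ u ∈ s e, x u else x v := fun _ _ => rfl
  have hinj : Function.Injective L := by
    rw [injective_iff_map_eq_zero]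
    intro x hx
    funext v
    have hx' : ∀ v, L x v = 0 := fun v => by rw [hx]; rfl
    by_cases hv : v ∈ V
    · have := h.apriori hσ hN hd x 0 (fun u hu => by
        have := hx' u
        rw [hL, if_pos hu] at this
        rw [this]; simp) v hv
      have h0 : |x v| ≤ 0 := by nlinarith [abs_nonneg (x v)]
      simpa using h0
    · have := hx' v
      rwa [hL, if_neg hv] at this
  obtain ⟨x, hx⟩ := LinearMap.injective_iff_surjective.1 hinj
    (fun v => 2 * (#V : ℝ) - #(E.filter (fun e => v ∈ s e)))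
  have hx' : ∀ v ∈ V, ∑ e ∈ E.filter (fun e => v ∈ s e), ∑ u ∈ s e, x u =
      2 * (#V : ℝ) - #(E.filter (fun e => v ∈ s e)) := by
    intro v hv
    have := congrFun hx v
    rwa [hL, if_pos hv] at this
  have hb := h.apriori hσ hN hd x σ (fun v hv => by
    rw [hx' v hv, abs_le]
    have := (h.resid hv (hd v hv)).1
    have := hd v hv
    constructor <;> linarith)
  set τ := 6 * σ / #V with hτ
  have hτ0 : 0 ≤ τ := by positivity
  have hτ1 : τ ≤ 1 := by rw [hτ, div_le_one hpos]; linarith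
  have hs : ∀ e ∈ E, |∑ u ∈ s e, x u| ≤ τ := by
    intro e he
    refine (abs_sum_le_sum_abs _ _).trans ?_
    have : ∀ u ∈ s e, |x u| ≤ 2 * σ / #V := fun u hu => by
      rw [le_div_iff₀ hpos, mul_comm]; exact hb u (h.ins e he hu)
    refine (sum_le_sum this).trans ?_
    rw [sum_const, h.three e he, nsmul_eq_mul, hτ]
    apply le_of_eq; push_cast; ring
  refine ⟨fun e => (1 + ∑ u ∈ s e, x u) / (1 + τ), fun e he => ?_, fun v hv => ?_⟩
  · have := abs_le.1 (hs e he)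
    exact ⟨div_nonneg (by linarith [this.1]) (by linarith),
      (div_le_one (by linarith)).2 (by linarith [this.2])⟩
  · rw [← sum_div, sum_add_distrib, hx' v hv]
    simp

end CSTS
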