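import Mathlib
import Pool.Agent.P.MP_72c5f4_co.A.Hyp
import Pool.Agent.P.MP_72c5f4_co.A.Weights

namespace CSTS
open Finset

variable {G : Type} [CommRing G] [DecidableEq G]

/-- The class of `x` up to sign. -/
def cls (x : G) : Finset G := {x, -x}

/-- The block `{0, d, e}` has three distinct differences up to sign. -/
def Nd (d e : G) : Prop := d ≠ 0 ∧ e ≠ 0 ∧ d ≠ e ∧ e ≠ -d ∧ e ≠ 2 * d ∧ d ≠ 2 * e

/-- The pairs `(a, b)` such that `{0, a, b}` is a translate of `{0, d, e}`. -/
def hex (d e : G) : Finset (G × G) :=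
  {(d, e), (e, d), (-d, e - d), (e - d, -d), (-e, d - e), (d - e, -e)}

/-- The difference classes of an orbit. -/
def supp (h : Finset (G × G)) : Finset (Finset G) := h.image (fun p => cls p.1)

theorem cls_neg (x : G) : cls (-x) = cls x := by
  unfold cls; rw [neg_neg, pair_comm]

theorem cls_eq_iff {x y : G} : cls x = cls y ↔ x = y ∨ x = -y := by
  constructor
  · intro h
    have : x ∈ cls y := h ▸ mem_insert_self _ _
    simpa [cls] using this
  · rintro (rfl | rfl)
    · rfl
    · exact cls_neg _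

theorem cls_ne {x y : G} (h1 : x - y ≠ 0) (h2 : x + y ≠ 0) : cls x ≠ cls y := by
  intro h
  rcases cls_eq_iff.1 h with h | h
  · exact h1 (by rw [h]; ring)
  · exact h2 (by rw [h]; ring)

theorem hex_symm (d e : G) : hex e d = hex d e := by
  ext p; simp only [hex, mem_insert, mem_singleton]; tauto

theorem hex_shift (d e : G) : hex (-d) (e - d) = hex d e := by
  have h1 : e - d - -d = e := by ring
  have h2 : -(e - d) = d - e := by ring
  have h3 : -d - (e - d) = -e := by ring
  ext p; simp only [hex, mem_insert, mem_singleton, neg_neg, h1, h2, h3]; tauto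

theorem Nd.symm {d e : G} (h : Nd d e) : Nd e d := by
  obtain ⟨h1, h2, h3, h4, h5, h6⟩ := h
  exact ⟨h2, h1, h3.symm, fun h => h4 (by linear_combination h), h6, h5⟩

theorem Nd.shift {d e : G} (h : Nd d e) : Nd (-d) (e - d) := by
  obtain ⟨h1, h2, h3, h4, h5, h6⟩ := h
  exact ⟨neg_ne_zero.2 h1, fun h => h3 (by linear_combination -h),
    fun h => h2 (by linear_combination -h), fun h => h5 (by linear_combination h),
    fun h => h4 (by linear_combination h), fun h => h6 (by linear_combination h)⟩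

theorem mem_hex_self (d e : G) : (d, e) ∈ hex d e := mem_insert_self _ _

theorem hex_ind {d e : G} {R : G → G → Prop} (h0 : R d e) (hs : ∀ a b, R a b → R b a)
    (ht : ∀ a b, R a b → R (-a) (b - a)) {a b : G} (h : (a, b) ∈ hex d e) : R a b := by
  simp only [hex, mem_insert, mem_singleton, Prod.mk.injEq] at h
  rcases h with ⟨rfl, rfl⟩ | ⟨rfl, rfl⟩ | ⟨rfl, rfl⟩ | ⟨rfl, rfl⟩ | ⟨rfl, rfl⟩ | ⟨rfl, rfl⟩
  · exact h0
  · exact hs _ _ h0
  · exact ht _ _ h0
  · exact hs _ _ (ht _ _ h0)
  · exact ht _ _ (hs _ _ h0)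
  · exact hs _ _ (ht _ _ (hs _ _ h0))

theorem hex_of_mem {d e a b : G} (h : (a, b) ∈ hex d e) : hex a b = hex d e :=
  hex_ind (R := fun a b => hex a b = hex d e) rfl (fun a b h => (hex_symm a b).trans h)
    (fun a b h => (hex_shift a b).trans h) h

theorem Nd.of_mem {d e a b : G} (hn : Nd d e) (h : (a, b) ∈ hex d e) : Nd a b :=
  hex_ind (R := Nd) hn (fun _ _ => Nd.symm) (fun _ _ => Nd.shift) h

theorem Nd.hex_fun (h2 : ∀ z : G, 2 * z = 0 → z = 0) {d e b : G} (hn : Nd d e)
    (h : (d, b) ∈ hex d e) : b = e := by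
  obtain ⟨h1, h2', h3, h4, h5, h6⟩ := hn
  simp only [hex, mem_insert, mem_singleton, Prod.mk.injEq] at h
  rcases h with h | h | h | h | h | h
  · exact h.2
  · exact absurd h.1 h3
  · exact absurd (h2 d (by linear_combination h.1)) h1
  · exact absurd (by linear_combination -h.1) h5
  · exact absurd (by linear_combination h.1) h4
  · exact absurd (by linear_combination h.1) h2'

theorem supp_hex (d e : G) : supp (hex d e) = {cls d, cls e, cls (e - d)} := by
  have h1 : cls (d - e) = cls (e - d) := by rw [← cls_neg, neg_sub]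
  ext v
  simp only [supp, hex, image_insert, image_singleton, cls_neg, h1, mem_insert, mem_singleton]
  tauto

theorem Nd.card_supp {d e : G} (h : Nd d e) : #(supp (hex d e)) = 3 := by
  obtain ⟨h1, h2, h3, h4, h5, h6⟩ := h
  rw [supp_hex, card_eq_three]
  exact ⟨_, _, _, cls_ne (sub_ne_zero.2 h3) (fun h => h4 (by linear_combination h)),
    cls_ne (fun h => h5 (by linear_combination -h)) (fun h => h2 (by linear_combination h)),
    cls_ne (fun h => h1 (by linear_combination h)) (fun h => h6 (by linear_combination -h)), rfl⟩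

variable [Fintype G]

open Classical in
/-- All full orbits of blocks. -/
noncomputable def EE (G : Type) [CommRing G] [DecidableEq G] [Fintype G] :
    Finset (Finset (G × G)) :=
  (univ.filter (fun p : G × G => Nd p.1 p.2)).image (fun p => hex p.1 p.2)

theorem mem_EE {h : Finset (G × G)} : h ∈ EE G ↔ ∃ d e, Nd d e ∧ hex d e = h := by
  simp [EE]

theorem Nd.mem_EE {d e : G} (h : Nd d e) : hex d e ∈ EE G := CSTS.mem_EE.2 ⟨d, e, h, rfl⟩

theorem EE_mem {h : Finset (G × G)} (hh : h ∈ EE G) {a b : G} (hab : (a, b) ∈ h) :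
    Nd a b ∧ hex a b = h := by
  obtain ⟨d, e, hn, rfl⟩ := mem_EE.1 hh
  exact ⟨hn.of_mem hab, hex_of_mem hab⟩

theorem EE_at {h : Finset (G × G)} (hh : h ∈ EE G) {d : G} (hd : cls d ∈ supp h) :
    ∃ e, Nd d e ∧ hex d e = h := by
  obtain ⟨⟨a, b⟩, hp, hc⟩ := mem_image.1 hd
  obtain ⟨h1, h2⟩ := EE_mem hh hp
  rcases cls_eq_iff.1 hc.symm with h3 | h3
  · exact ⟨b, h3 ▸ h1, h3 ▸ h2⟩
  · exact ⟨b - a, h3 ▸ h1.shift, by rw [h3, hex_shift, h2]⟩

theorem EE_three : ∀ h ∈ EE G, #(supp h) = 3 := by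
  intro h hh
  obtain ⟨d, e, hn, rfl⟩ := mem_EE.1 hh
  exact hn.card_supp

theorem tri_EE (V : Finset (Finset G)) : Tri V ((EE G).filter (fun h => supp h ⊆ V)) supp := by
  refine ⟨fun e he => (mem_filter.1 he).2, fun e he => EE_three e (mem_filter.1 he).1, ?_⟩
  intro u v huv
  rcases (((EE G).filter (fun h => supp h ⊆ V)).filter
    (fun e => v ∈ supp e ∧ u ∈ supp e)).eq_empty_or_nonempty with h0 | ⟨h0, hh0⟩
  · rw [h0]; simp
  obtain ⟨-, hv, hu⟩ := mem_filter.1 hh0
  obtain ⟨d, rfl⟩ : ∃ d, cls d = v := let ⟨p, _, hp⟩ := mem_image.1 hv; ⟨p.1, hp⟩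
  obtain ⟨c, rfl⟩ : ∃ c, cls c = u := let ⟨p, _, hp⟩ := mem_image.1 hu; ⟨p.1, hp⟩
  refine (card_le_card (t := ({c, -c, d + c, d - c} : Finset G).image (hex d)) ?_).trans
    (card_image_le.trans card_le_four)
  intro h hh
  obtain ⟨hE, hv, hu⟩ := mem_filter.1 hh
  obtain ⟨e, -, rfl⟩ := EE_at (mem_filter.1 hE).1 hv
  refine mem_image_of_mem _ ?_
  rw [supp_hex] at hu
  simp only [mem_insert, mem_singleton] at hu ⊢
  rcases hu with hu | hu | hu
  · exact absurd hu huv
  · rcases cls_eq_iff.1 hu.symm with h | h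
    · exact Or.inl h
    · exact Or.inr (Or.inl h)
  · rcases cls_eq_iff.1 hu.symm with h | h
    · exact Or.inr (Or.inr (Or.inl (by linear_combination h)))
    · exact Or.inr (Or.inr (Or.inr (by linear_combination h)))

theorem tri_univ : Tri univ (EE G) supp := by
  have := tri_EE (univ : Finset (Finset G))
  rwa [filter_true_of_mem (fun _ _ => subset_univ _)] at this

theorem deg_le (v : Finset G) : #((EE G).filter (fun h => v ∈ supp h)) ≤ Fintype.card G := by
  rcases ((EE G).filter (fun h => v ∈ supp h)).eq_empty_or_nonempty with h0 | ⟨h0, hh0⟩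
  · rw [h0]; simp
  obtain ⟨d, rfl⟩ : ∃ d, cls d = v :=
    let ⟨p, _, hp⟩ := mem_image.1 (mem_filter.1 hh0).2; ⟨p.1, hp⟩
  refine (card_le_card (t := univ.image (hex d)) ?_).trans card_image_le
  intro h hh
  obtain ⟨e, -, rfl⟩ := EE_at (mem_filter.1 hh).1 (mem_filter.1 hh).2
  exact mem_image_of_mem _ (mem_univ _)

theorem thin (h3 : #(univ.filter (fun z : G => 3 * z = 0)) ≤ 3) {a : G}
    (ha : ∀ z, a * z = 0 → 3 * z = 0) (b : G) (F : Finset (Finset G)) :
    #(univ.filter (fun z => cls (a * z + b) ∈ F)) ≤ 6 * #F := by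
  have fib : ∀ y, #(univ.filter (fun z => a * z + b = y)) ≤ 3 := by
    intro y
    rcases (univ.filter (fun z => a * z + b = y)).eq_empty_or_nonempty with h0 | ⟨z0, hz0⟩
    · rw [h0]; simp
    refine le_trans (card_le_card_of_injOn (fun z => z - z0) ?_ ?_) h3
    · intro z hz
      have h1 := (mem_filter.1 (mem_coe.1 hz)).2
      have h2 := (mem_filter.1 hz0).2
      exact mem_coe.2 (mem_filter.2 ⟨mem_univ _, ha _ (by linear_combination h1 - h2)⟩)
    · intro z _ z' _ h
      exact sub_left_injective h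
  refine card_le_mul_card_image_of_maps_to (f := fun z => cls (a * z + b))
    (fun z hz => (mem_filter.1 hz).2) 6 (fun c _ => ?_)
  rcases ((univ.filter (fun z => cls (a * z + b) ∈ F)).filter
    (fun z => cls (a * z + b) = c)).eq_empty_or_nonempty with h0 | ⟨z0, hz0⟩
  · rw [h0]; simp
  refine (card_le_card (t := univ.filter (fun z => a * z + b = a * z0 + b) ∪
    univ.filter (fun z => a * z + b = -(a * z0 + b))) ?_).trans
    ((card_union_le _ _).trans (add_le_add (fib _) (fib _)))
  intro z hz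
  have := cls_eq_iff.1 ((mem_filter.1 hz).2.trans (mem_filter.1 hz0).2.symm)
  simpa only [mem_union, mem_filter, mem_univ, true_and] using this

theorem avoid_card (h3 : #(univ.filter (fun z : G => 3 * z = 0)) ≤ 3) (J : Finset G)
    (F : Finset (Finset G)) (L : List (G × G)) (hL : ∀ p ∈ L, ∀ z, p.1 * z = 0 → 3 * z = 0) :
    #J ≤ #(J.filter (fun z => ∀ p ∈ L, cls (p.1 * z + p.2) ∉ F)) + 6 * L.length * #F := by
  induction L with
  | nil => simp
  | cons p L ih =>
    have a := ih (fun q hq => hL q (List.mem_cons_of_mem _ hq))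
    have b := thin h3 (hL p List.mem_cons_self) p.2 F
    have c : J.filter (fun z => ∀ q ∈ L, cls (q.1 * z + q.2) ∉ F) ⊆
        J.filter (fun z => ∀ q ∈ p :: L, cls (q.1 * z + q.2) ∉ F) ∪
          univ.filter (fun z => cls (p.1 * z + p.2) ∈ F) := by
      intro z hz
      simp only [mem_union, mem_filter, mem_univ, true_and, List.forall_mem_cons] at hz ⊢
      tauto
    have d := (card_le_card c).trans (card_union_le _ _)
    rw [List.length_cons, mul_add, add_mul]
    omega

theorem avoid (h3 : #(univ.filter (fun z : G => 3 * z = 0)) ≤ 3) (J : Finset G)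
    (F : Finset (Finset G)) (L : List (G × G)) (hL : ∀ p ∈ L, ∀ z, p.1 * z = 0 → 3 * z = 0)
    (hJ : 6 * L.length * #F < #J) : ∃ z ∈ J, ∀ p ∈ L, cls (p.1 * z + p.2) ∉ F := by
  have := avoid_card h3 J F L hL
  obtain ⟨z, hz⟩ := card_pos.1
    (show 0 < #(J.filter (fun z => ∀ p ∈ L, cls (p.1 * z + p.2) ∉ F)) by omega)
  exact ⟨z, (mem_filter.1 hz).1, (mem_filter.1 hz).2⟩

end CSTS
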