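import Mathlib
import Pool.Agent.P.MP_72c5f4_co.A.Hex
import Pool.Agent.P.MP_72c5f4_co.A.Absorb

namespace CSTS
open Finset

variable {G : Type} [CommRing G] [DecidableEq G] [Fintype G]

/-- Classes of the 3-torsion. -/
def TT (G : Type) [CommRing G] [DecidableEq G] [Fintype G] : Finset (Finset G) :=
  (univ.filter (fun z : G => 3 * z = 0)).image cls

/-- Classes outside the 3-torsion. -/
def VV (G : Type) [CommRing G] [DecidableEq G] [Fintype G] : Finset (Finset G) :=
  (univ.filter (fun z : G => 3 * z ≠ 0)).image cls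

/-- `S` has a perfect matching. -/
def HasPM (S : Finset (Finset G)) : Prop := ∃ M, IsPM (EE G) supp S M

theorem mem_VV {x : G} : cls x ∈ VV G ↔ 3 * x ≠ 0 := by
  constructor
  · intro h
    obtain ⟨y, hy, hc⟩ := mem_image.1 h
    have hy' := (mem_filter.1 hy).2
    rcases cls_eq_iff.1 hc with h1 | h1
    · rwa [← h1]
    · intro h2; exact hy' (by rw [h1]; linear_combination -h2)
  · exact fun h => mem_image_of_mem _ (mem_filter.2 ⟨mem_univ _, h⟩)

theorem of_notMem_TT {F : Finset (Finset G)} (hF : TT G ⊆ F) {x : G} (h : cls x ∉ F) :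
    cls x ∈ VV G ∧ x ≠ 0 := by
  have : 3 * x ≠ 0 := fun h3 => h (hF (mem_image_of_mem _ (mem_filter.2 ⟨mem_univ _, h3⟩)))
  exact ⟨mem_VV.2 this, fun h0 => this (by rw [h0, mul_zero])⟩

theorem VV_elim {v : Finset G} (h : v ∈ VV G) : ∃ x, cls x = v ∧ x ≠ 0 := by
  obtain ⟨y, hy, hc⟩ := mem_image.1 h
  exact ⟨y, hc, fun h0 => (mem_filter.1 hy).2 (by rw [h0, mul_zero])⟩

theorem pm_tri {a b c : G} (h : a + b = c) (ha : a ≠ 0) (hb : b ≠ 0) (hc : c ≠ 0)
    (hab : cls a ≠ cls b) (hac : cls a ≠ cls c) (hbc : cls b ≠ cls c) :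
    HasPM {cls a, cls b, cls c} := by
  have hn : Nd a c := ⟨ha, hc, fun h1 => hb (by linear_combination h - h1),
    fun h1 => hac (by rw [h1, cls_neg]),
    fun h1 => hab (congrArg cls (by linear_combination -h - h1)),
    fun h1 => hbc (cls_eq_iff.2 (Or.inr (by linear_combination h - h1)))⟩
  refine ⟨{hex a c}, ?_⟩
  have := IsPM.single (s := supp) hn.mem_EE
  rwa [supp_hex, show c - a = b by linear_combination -h, pair_comm] at this

theorem HasPM.union {S T : Finset (Finset G)} (hd : Disjoint S T) (h1 : HasPM S) (h2 : HasPM T) :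
    HasPM (S ∪ T) :=
  let ⟨_, a⟩ := h1; let ⟨_, b⟩ := h2; ⟨_, a.union b hd⟩

theorem sw_half {x y z : G} (n1 : 2 * x ≠ 0) (n2 : 2 * y ≠ 0) (n3 : x - y ≠ 0) (n4 : x + y ≠ 0)
    (z0 : 2 * z ≠ 0) (z1 : z + x ≠ 0) (z2 : z - x ≠ 0) (z3 : z + y ≠ 0) (z4 : z - y ≠ 0)
    (z5 : 3 * z + x ≠ 0) (z6 : 3 * z - x ≠ 0) (z7 : 3 * z + y ≠ 0) (z8 : 3 * z - y ≠ 0)
    (z9 : 2 * z + x + y ≠ 0) (z10 : 2 * z - x - y ≠ 0) (z11 : 2 * z + x - y ≠ 0)
    (z12 : 2 * z - x + y ≠ 0)
    (hx : cls (2 * x) ∉
      ({cls (2 * z), cls (z + x), cls (z - x), cls (z + y), cls (z - y)} : Finset (Finset G))) :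
    HasPM (insert (cls (2 * x))
      {cls (2 * z), cls (z + x), cls (z - x), cls (z + y), cls (z - y)}) := by
  simp only [mem_insert, mem_singleton, not_or] at hx
  obtain ⟨x0, x1, x2, x3, x4⟩ := hx
  have p1 : HasPM {cls (z - x), cls (2 * x), cls (z + x)} := pm_tri (by ring) z2 n1 z1
    (Ne.symm x2)
    (cls_ne (fun h => n1 (by linear_combination -h)) (fun h => z0 (by linear_combination h))) x1
  have p2 : HasPM {cls (z + y), cls (z - y), cls (2 * z)} := pm_tri (by ring) z3 z4 z0
    (cls_ne (fun h => n2 (by linear_combination h)) (fun h => z0 (by linear_combination h)))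
    (cls_ne (fun h => z4 (by linear_combination -h)) (fun h => z7 (by linear_combination h)))
    (cls_ne (fun h => z3 (by linear_combination -h)) (fun h => z8 (by linear_combination h)))
  have d1 : cls (z - x) ≠ cls (z + y) :=
    cls_ne (fun h => n4 (by linear_combination -h)) (fun h => z12 (by linear_combination h))
  have d2 : cls (z - x) ≠ cls (z - y) :=
    cls_ne (fun h => n3 (by linear_combination -h)) (fun h => z10 (by linear_combination h))
  have d3 : cls (z - x) ≠ cls (2 * z) :=
    cls_ne (fun h => z1 (by linear_combination -h)) (fun h => z6 (by linear_combination h))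
  have d4 : cls (z + x) ≠ cls (z + y) :=
    cls_ne (fun h => n3 (by linear_combination h)) (fun h => z9 (by linear_combination h))
  have d5 : cls (z + x) ≠ cls (z - y) :=
    cls_ne (fun h => n4 (by linear_combination h)) (fun h => z11 (by linear_combination h))
  have d6 : cls (z + x) ≠ cls (2 * z) :=
    cls_ne (fun h => z2 (by linear_combination -h)) (fun h => z5 (by linear_combination h))
  have := HasPM.union (by
    simp only [disjoint_insert_left, disjoint_singleton_left, mem_insert, mem_singleton, not_or]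
    exact ⟨⟨d1, d2, d3⟩, ⟨x3, x4, x0⟩, d4, d5, d6⟩) p1 p2
  have e : ({cls (z - x), cls (2 * x), cls (z + x)} : Finset (Finset G)) ∪
      {cls (z + y), cls (z - y), cls (2 * z)} = insert (cls (2 * x))
      {cls (2 * z), cls (z + x), cls (z - x), cls (z + y), cls (z - y)} := by
    ext v; simp only [mem_union, mem_insert, mem_singleton, or_assoc, or_left_comm, or_comm]
  rwa [e] at this

theorem absHyp (hf : G) (hh : 2 * hf = 1) (h3 : #(univ.filter (fun z : G => 3 * z = 0)) ≤ 3)
    (m : ℕ) (hm : 78 * (m + 4) < Fintype.card G) : AbsHyp (VV G) HasPM m := by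
  have hT : #(TT G) ≤ 3 := card_image_le.trans h3
  have k1 : ∀ z : G, 1 * z = 0 → 3 * z = 0 := fun z h => by linear_combination 3 * h
  have k2 : ∀ z : G, 2 * z = 0 → 3 * z = 0 := fun z h => by
    linear_combination 3 * hf * h - 3 * z * hh
  refine ⟨⟨∅, IsPM.empty⟩, fun S T => HasPM.union,
    fun S ⟨M, hM⟩ => ⟨_, hM.card EE_three⟩, ?_, ?_⟩
  · intro F hF
    have c1 := card_union_le F (TT G)
    obtain ⟨a, -, ha⟩ := avoid h3 univ (F ∪ TT G) [(1, 0)] (by simp)
      (by rw [card_univ, List.length_singleton]; omega)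
    have c2 := card_insert_le (cls a) (F ∪ TT G)
    obtain ⟨b, -, hb⟩ := avoid h3 univ (insert (cls a) (F ∪ TT G)) [(1, 0), (1, a), (2, a)]
      (by simpa using k2)
      (by rw [card_univ]; simp only [List.length_cons, List.length_nil]; omega)
    simp only [List.forall_mem_cons, one_mul, add_zero, List.not_mem_nil, false_imp_iff,
      implies_true, and_true, mem_insert, not_or] at ha hb
    obtain ⟨⟨b1, b2⟩, ⟨b3, b4⟩, -, b5⟩ := hb
    obtain ⟨a1, a2⟩ := of_notMem_TT subset_union_right ha
    obtain ⟨a3, a4⟩ := of_notMem_TT subset_union_right b2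
    obtain ⟨a5, a6⟩ := of_notMem_TT subset_union_right b4
    obtain ⟨-, a7⟩ := of_notMem_TT subset_union_right b5
    have d : cls b ≠ cls (b + a) :=
      cls_ne (fun h => a2 (by linear_combination -h)) (fun h => a7 (by linear_combination h))
    refine ⟨{cls a, cls b, cls (b + a)}, ?_, ?_,
      card_eq_three.2 ⟨_, _, _, Ne.symm b1, Ne.symm b3, d, rfl⟩,
      pm_tri (by ring) a2 a4 a6 (Ne.symm b1) (Ne.symm b3) d⟩
    · simp only [insert_subset_iff, singleton_subset_iff]
      exact ⟨a1, a3, a5⟩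
    · simp only [disjoint_insert_left, disjoint_singleton_left]
      exact ⟨fun h => ha (mem_union_left _ h), fun h => b2 (mem_union_left _ h),
        fun h => b4 (mem_union_left _ h)⟩
  · intro F hF u hu v hv huF hvF huv
    obtain ⟨x0, rfl, hx0⟩ := VV_elim hu
    obtain ⟨y0, rfl, hy0⟩ := VV_elim hv
    obtain ⟨x, rfl⟩ : ∃ x, x0 = 2 * x := ⟨hf * x0, by linear_combination -x0 * hh⟩
    obtain ⟨y, rfl⟩ : ∃ y, y0 = 2 * y := ⟨hf * y0, by linear_combination -y0 * hh⟩
    have n3 : x - y ≠ 0 := fun h => huv (congrArg cls (by linear_combination 2 * h))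
    have n4 : x + y ≠ 0 := fun h => huv (cls_eq_iff.2 (Or.inr (by linear_combination 2 * h)))
    have c1 := card_union_le F (TT G)
    obtain ⟨z, -, hz⟩ := avoid h3 univ (F ∪ TT G)
      [(2, 0), (1, x), (1, -x), (1, y), (1, -y), (3, x), (3, -x), (3, y), (3, -y),
        (2, x + y), (2, -x - y), (2, x - y), (2, -x + y)]
      (by
        simp only [List.forall_mem_cons, List.not_mem_nil, false_imp_iff, implies_true, and_true]
        exact ⟨k2, k1, k1, k1, k1, fun _ h => h, fun _ h => h, fun _ h => h, fun _ h => h,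
          k2, k2, k2, k2⟩)
      (by rw [card_univ]; simp only [List.length_cons, List.length_nil]; omega)
    simp only [List.forall_mem_cons, one_mul, add_zero, List.not_mem_nil, false_imp_iff,
      implies_true, and_true, ← sub_eq_add_neg] at hz
    obtain ⟨w0, w1, w2, w3, w4, w5, w6, w7, w8, w9, w10, w11, w12⟩ := hz
    have t := fun {q : G} (h : cls q ∉ F ∪ TT G) => of_notMem_TT subset_union_right h
    have hd : Disjoint ({cls (2 * z), cls (z + x), cls (z - x), cls (z + y), cls (z - y)} :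
        Finset (Finset G)) F := by
      simp only [disjoint_insert_left, disjoint_singleton_left]
      exact ⟨fun h => w0 (mem_union_left _ h), fun h => w1 (mem_union_left _ h),
        fun h => w2 (mem_union_left _ h), fun h => w3 (mem_union_left _ h),
        fun h => w4 (mem_union_left _ h)⟩
    have z9 : 2 * z + x + y ≠ 0 := fun h => (t w9).2 (by linear_combination h)
    have z10 : 2 * z - x - y ≠ 0 := fun h => (t w10).2 (by linear_combination h)
    have z11 : 2 * z + x - y ≠ 0 := fun h => (t w11).2 (by linear_combination h)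
    have z12 : 2 * z - x + y ≠ 0 := fun h => (t w12).2 (by linear_combination h)
    refine ⟨{cls (2 * z), cls (z + x), cls (z - x), cls (z + y), cls (z - y)}, ?_, hd,
      card_le_five, sw_half hx0 hy0 n3 n4 (t w0).2 (t w1).2 (t w2).2 (t w3).2 (t w4).2 (t w5).2
        (t w6).2 (t w7).2 (t w8).2 z9 z10 z11 z12 (disjoint_right.1 hd huF), ?_⟩
    · simp only [insert_subset_iff, singleton_subset_iff]
      exact ⟨(t w0).1, (t w1).1, (t w2).1, (t w3).1, (t w4).1⟩
    · have e : ({cls (2 * z), cls (z + x), cls (z - x), cls (z + y), cls (z - y)} :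
          Finset (Finset G)) =
          {cls (2 * z), cls (z + y), cls (z - y), cls (z + x), cls (z - x)} := by
        ext v; simp only [mem_insert, mem_singleton, or_assoc, or_left_comm, or_comm]
      rw [e] at hd ⊢
      exact sw_half hy0 hx0 (fun h => n3 (by linear_combination -h))
        (fun h => n4 (by linear_combination h)) (t w0).2 (t w3).2 (t w4).2 (t w1).2 (t w2).2
        (t w7).2 (t w8).2 (t w5).2 (t w6).2 (fun h => z9 (by linear_combination h))
        (fun h => z10 (by linear_combination h)) (fun h => z12 (by linear_combination h))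
        (fun h => z11 (by linear_combination h)) (disjoint_right.1 hd hvF)

theorem reservoir (hf : G) (hh : 2 * hf = 1) (h3 : #(univ.filter (fun z : G => 3 * z = 0)) ≤ 3)
    (R : Finset (Finset G)) (K : ℕ)
    (hJ : ∀ x : G, ∃ J : Finset G, 18 * (K + 4) < #J ∧ ∀ y ∈ J, cls y ∈ R ∧ cls (y - x) ∈ R) :
    ∀ v ∈ VV G, ∀ F : Finset (Finset G), #F ≤ K →
      ∃ D ⊆ VV G ∩ R, Disjoint D F ∧ #D = 2 ∧ HasPM (insert v D) := by
  have hT : #(TT G) ≤ 3 := card_image_le.trans h3
  have k1 : ∀ z : G, 1 * z = 0 → 3 * z = 0 := fun z h => by linear_combination 3 * h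
  have k2 : ∀ z : G, 2 * z = 0 → 3 * z = 0 := fun z h => by
    linear_combination 3 * hf * h - 3 * z * hh
  intro v hv F hF
  obtain ⟨x, rfl, hx⟩ := VV_elim hv
  obtain ⟨J, hJ1, hJ2⟩ := hJ x
  have c1 := card_union_le F (TT G)
  have c2 := card_insert_le (cls x) (F ∪ TT G)
  obtain ⟨y, hy, hb⟩ := avoid h3 J (insert (cls x) (F ∪ TT G)) [(1, 0), (1, -x), (2, -x)]
    (by simpa using k2) (by simp only [List.length_cons, List.length_nil]; omega)
  simp only [List.forall_mem_cons, one_mul, add_zero, List.not_mem_nil, false_imp_iff,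
    implies_true, and_true, mem_insert, not_or, ← sub_eq_add_neg] at hb
  obtain ⟨⟨b1, b2⟩, ⟨b3, b4⟩, -, b5⟩ := hb
  obtain ⟨a3, a4⟩ := of_notMem_TT subset_union_right b2
  obtain ⟨a5, a6⟩ := of_notMem_TT subset_union_right b4
  obtain ⟨-, a7⟩ := of_notMem_TT subset_union_right b5
  have d : cls (y - x) ≠ cls y :=
    cls_ne (fun h => hx (by linear_combination -h)) (fun h => a7 (by linear_combination h))
  refine ⟨{cls (y - x), cls y}, ?_, ?_, card_pair d,
    pm_tri (by ring) hx a6 a4 (Ne.symm b3) (Ne.symm b1) d⟩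
  · simp only [insert_subset_iff, singleton_subset_iff, mem_inter]
    exact ⟨⟨a5, (hJ2 y hy).2⟩, a3, (hJ2 y hy).1⟩
  · simp only [disjoint_insert_left, disjoint_singleton_left]
    exact ⟨fun h => b4 (mem_union_left _ h), fun h => b2 (mem_union_left _ h)⟩

theorem deg_ge (hf : G) (hh : 2 * hf = 1) (h3 : #(univ.filter (fun z : G => 3 * z = 0)) ≤ 3)
    (A : Finset (Finset G)) {v : Finset G} (hv : v ∈ VV G \ A) :
    Fintype.card G ≤
      #(((EE G).filter (fun h => supp h ⊆ VV G \ A)).filter (fun h => v ∈ supp h)) +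
        30 * (#A + 3) := by
  have hT : #(TT G) ≤ 3 := card_image_le.trans h3
  have k1 : ∀ z : G, 1 * z = 0 → 3 * z = 0 := fun z h => by linear_combination 3 * h
  have k0 : ∀ z : G, 2 * z = 0 → z = 0 := fun z h => by linear_combination hf * h - z * hh
  have k2 : ∀ z : G, 2 * z = 0 → 3 * z = 0 := fun z h => by rw [k0 z h, mul_zero]
  obtain ⟨d, rfl, hd⟩ := VV_elim (mem_sdiff.1 hv).1
  have c1 := card_union_le A (TT G)
  have c2 := avoid_card h3 univ (A ∪ TT G) [(1, 0), (1, -d), (1, d), (1, -(2 * d)), (2, -d)]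
    (by simpa using k2)
  rw [card_univ] at c2
  simp only [List.length_cons, List.length_nil] at c2
  refine c2.trans (add_le_add (card_le_card_of_injOn (hex d) ?_ ?_) (by omega))
  all_goals
    have key : ∀ e, (∀ p ∈ [((1 : G), (0 : G)), (1, -d), (1, d), (1, -(2 * d)), (2, -d)],
        cls (p.1 * e + p.2) ∉ A ∪ TT G) → Nd d e ∧ cls e ∈ VV G \ A ∧ cls (e - d) ∈ VV G \ A := by
      intro e hb
      simp only [List.forall_mem_cons, one_mul, add_zero, List.not_mem_nil, false_imp_iff,
        implies_true, and_true, ← sub_eq_add_neg] at hb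
      obtain ⟨b1, b2, b3, b4, b5⟩ := hb
      have t := fun {q : G} (h : cls q ∉ A ∪ TT G) => of_notMem_TT subset_union_right h
      exact ⟨⟨hd, (t b1).2, fun h => (t b2).2 (by linear_combination -h),
        fun h => (t b3).2 (by linear_combination h), fun h => (t b4).2 (by linear_combination h),
        fun h => (t b5).2 (by linear_combination -h)⟩,
        mem_sdiff.2 ⟨(t b1).1, fun h => b1 (mem_union_left _ h)⟩,
        mem_sdiff.2 ⟨(t b2).1, fun h => b2 (mem_union_left _ h)⟩⟩
  · intro e he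
    obtain ⟨q1, q2, q3⟩ := key e (mem_filter.1 (mem_coe.1 he)).2
    refine mem_coe.2 (mem_filter.2 ⟨mem_filter.2 ⟨q1.mem_EE, ?_⟩, ?_⟩)
    · rw [supp_hex]
      simp only [insert_subset_iff, singleton_subset_iff]
      exact ⟨hv, q2, q3⟩
    · rw [supp_hex]; exact mem_insert_self _ _
  · intro e _ e' he' h
    exact (key e' (mem_filter.1 (mem_coe.1 he')).2).1.hex_fun k0 (h ▸ mem_hex_self d e)

end CSTS
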