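import Mathlib

namespace CSTS

/-- `B` is the block set of a Steiner triple system on `ZMod n` invariant under `x ↦ x + 1`. -/
def IsCyc {n : ℕ} (B : Finset (Finset (ZMod n))) : Prop :=
  (∀ b ∈ B, b.card = 3) ∧
    (∀ x y : ZMod n, x ≠ y → ∃! b : Finset (ZMod n), b ∈ B ∧ x ∈ b ∧ y ∈ b) ∧
    (∀ b ∈ B, b.image (fun x => x + 1) ∈ B)

/-- Some permutation of the points maps the blocks of `B` onto the blocks of `C`. -/
def Iso {n : ℕ} (B C : Finset (Finset (ZMod n))) : Prop :=
  ∃ σ : Equiv.Perm (ZMod n), ∀ b : Finset (ZMod n), b ∈ B ↔ b.map σ.toEmbedding ∈ C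

/-- The number of isomorphism classes of cyclic Steiner triple systems of order `n`. -/
noncomputable def numCyc (n : ℕ) : ℕ :=
  Nat.card (Quot (fun B C : {B : Finset (Finset (ZMod n)) // IsCyc B} => Iso B.1 C.1))

end CSTS
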