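import Mathlib
import Pool.Agent.P.MP_72c5f4_co.A.Defs

/- The section `Rel` and the orbit count are copied from the files of the frozen statement. -/

namespace CSTS

section Rel

variable {G : Type} [DecidableEq G] [CommRing G] [Fintype G]

/-- `R d e` says that `{0, d, e}` is a block. -/
structure GoodRel (R : G → G → Prop) : Prop where
  ne : ∀ d e, R d e → d ≠ 0 ∧ e ≠ 0 ∧ d ≠ e
  ex : ∀ d, d ≠ 0 → ∃ e, R d e
  uniq : ∀ d e e', R d e → R d e' → e = e'
  symm : ∀ d e, R d e → R e d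
  shift : ∀ d e, R d e → R (-d) (e - d)

open Classical in
/-- All translates of the blocks `{0, d, e}`. -/
noncomputable def blocks (R : G → G → Prop) : Finset (Finset G) :=
  Finset.univ.filter (fun b => ∃ x d e, R d e ∧ b = {x, x + d, x + e})

theorem mem_blocks {R : G → G → Prop} {b : Finset G} :
    b ∈ blocks R ↔ ∃ x d e, R d e ∧ b = {x, x + d, x + e} := by
  simp [blocks]

theorem rebase {R : G → G → Prop} (h : GoodRel R) {b : Finset G} (hb : b ∈ blocks R) {x : G}
    (hx : x ∈ b) : ∃ d e, R d e ∧ b = {x, x + d, x + e} := by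
  obtain ⟨z, d, e, hR, rfl⟩ := mem_blocks.1 hb
  simp only [Finset.mem_insert, Finset.mem_singleton] at hx
  rcases hx with rfl | rfl | rfl
  · exact ⟨d, e, hR, rfl⟩
  · refine ⟨-d, e - d, h.shift _ _ hR, ?_⟩
    have h1 : z + d + -d = z := by ring
    have h2 : z + d + (e - d) = z + e := by ring
    rw [h1, h2, Finset.insert_comm]
  · refine ⟨-e, d - e, h.shift _ _ (h.symm _ _ hR), ?_⟩
    have h1 : z + e + -e = z := by ring
    have h2 : z + e + (d - e) = z + d := by ring
    rw [h1, h2]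
    ext w
    simp only [Finset.mem_insert, Finset.mem_singleton]
    tauto

theorem rebase2 {R : G → G → Prop} (h : GoodRel R) {b : Finset G} (hb : b ∈ blocks R) {x y : G}
    (hx : x ∈ b) (hy : y ∈ b) (hxy : x ≠ y) : ∃ e, R (y - x) e ∧ b = {x, y, x + e} := by
  obtain ⟨d, e, hR, rfl⟩ := rebase h hb hx
  simp only [Finset.mem_insert, Finset.mem_singleton] at hy
  rcases hy with rfl | rfl | rfl
  · exact absurd rfl hxy
  · refine ⟨e, ?_, rfl⟩
    have : x + d - x = d := by ring
    rwa [this]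
  · refine ⟨d, ?_, ?_⟩
    · have : x + e - x = e := by ring
      rw [this]; exact h.symm _ _ hR
    · rw [Finset.pair_comm (x + d)]

theorem isCyc_blocks {R : G → G → Prop} (h : GoodRel R) : (∀ b ∈ blocks R, b.card = 3) ∧
    (∀ x y : G, x ≠ y → ∃! b : Finset G, b ∈ blocks R ∧ x ∈ b ∧ y ∈ b) ∧
    (∀ b ∈ blocks R, b.image (fun x => x + 1) ∈ blocks R) := by
  refine ⟨?_, ?_, ?_⟩
  · intro b hb
    obtain ⟨z, d, e, hR, rfl⟩ := mem_blocks.1 hb
    obtain ⟨h1, h2, h3⟩ := h.ne _ _ hR
    rw [Finset.card_eq_three]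
    refine ⟨z, z + d, z + e, ?_, ?_, ?_, rfl⟩
    · intro hh; apply h1; linear_combination -hh
    · intro hh; apply h2; linear_combination -hh
    · intro hh; apply h3; linear_combination hh
  · intro x y hxy
    obtain ⟨e, he⟩ := h.ex (y - x) (sub_ne_zero.2 hxy.symm)
    refine ⟨{x, y, x + e}, ⟨mem_blocks.2 ⟨x, y - x, e, he, ?_⟩, by simp, by simp⟩, ?_⟩
    · have : x + (y - x) = y := by ring
      rw [this]
    · rintro b ⟨hb, hx, hy⟩
      obtain ⟨e', he', rfl⟩ := rebase2 h hb hx hy hxy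
      rw [h.uniq _ _ _ he he']
  · intro b hb
    obtain ⟨z, d, e, hR, rfl⟩ := mem_blocks.1 hb
    refine mem_blocks.2 ⟨z + 1, d, e, hR, ?_⟩
    simp only [Finset.image_insert, Finset.image_singleton]
    have h1 : z + d + 1 = z + 1 + d := by ring
    have h2 : z + e + 1 = z + 1 + e := by ring
    rw [h1, h2]

theorem rel_of_blocks_eq {R R' : G → G → Prop} (h : GoodRel R) (h' : GoodRel R')
    (hb : blocks R = blocks R') {d e : G} (hR : R d e) : R' d e := by
  obtain ⟨h1, h2, h3⟩ := h.ne _ _ hR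
  have hm : ({0, 0 + d, 0 + e} : Finset G) ∈ blocks R' := hb ▸ mem_blocks.2 ⟨0, d, e, hR, rfl⟩
  obtain ⟨e', he', hq⟩ := rebase2 h' hm (x := 0) (y := d) (by simp) (by simp) h1.symm
  have : e ∈ ({0, d, 0 + e'} : Finset G) := by rw [← hq]; simp
  simp only [Finset.mem_insert, Finset.mem_singleton, zero_add] at this
  rw [sub_zero] at he'
  rcases this with h4 | h4 | h4
  · exact absurd h4 h2
  · exact absurd h4.symm h3
  · rwa [h4]

end Rel

theorem fixed_orbit_card_le {H Ω Z : Type} [Group H] [Finite H] [MulAction H Ω] [Finite Z]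
    (τ : H) (z : H → Z)
    (hz : ∀ σ σ' : H, σ⁻¹ * τ * σ = σ'⁻¹ * τ * σ' → z σ = z σ' → σ = σ') (B : Ω) :
    Nat.card {C : Ω // τ • C = C ∧ ∃ σ : H, σ • B = C} ≤ Nat.card Z := by
  classical
  let T := {C : Ω // τ • C = C ∧ ∃ σ : H, σ • B = C}
  let A := MulAction.stabilizer H B
  let s : T → H := fun C => C.2.2.choose
  have hs : ∀ C : T, s C • B = C.1 := fun C => C.2.2.choose_spec
  have hsa : ∀ (C : T) (a : A), (s C * a.1) • B = C.1 := by
    intro C a
    rw [mul_smul, MulAction.mem_stabilizer_iff.1 a.2, hs]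
  have hmem : ∀ (C : T) (a : A), (s C * a.1)⁻¹ * τ * (s C * a.1) ∈ A := by
    intro C a
    rw [MulAction.mem_stabilizer_iff, mul_smul, mul_smul, hsa, C.2.1, ← hsa C a, inv_smul_smul]
  let F : T × A → A × Z := fun p => (⟨_, hmem p.1 p.2⟩, z (s p.1 * p.2.1))
  have hF : Function.Injective F := by
    rintro ⟨C, a⟩ ⟨C', a'⟩ h
    have h1 : (s C * a.1)⁻¹ * τ * (s C * a.1) = (s C' * a'.1)⁻¹ * τ * (s C' * a'.1) :=
      congrArg (fun q : A × Z => q.1.1) h
    have h2 : z (s C * a.1) = z (s C' * a'.1) := congrArg Prod.snd h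
    have h3 := hz _ _ h1 h2
    have h4 : C = C' := by
      apply Subtype.ext
      rw [← hsa C a, h3, hsa]
    subst h4
    have h5 : a = a' := Subtype.ext (mul_left_cancel h3)
    rw [h5]
  have hc := Nat.card_le_card_of_injective F hF
  rw [Nat.card_prod, Nat.card_prod, mul_comm (Nat.card A)] at hc
  exact Nat.le_of_mul_le_mul_right hc Nat.card_pos

open Pointwise in
theorem iso_card_le (n : ℕ) [NeZero n] (B : Finset (Finset (ZMod n))) :
    Nat.card {C : Finset (Finset (ZMod n)) //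
      (∀ b ∈ C, b.image (fun x => x + 1) ∈ C) ∧ Iso B C} ≤ n := by
  classical
  let τ : Equiv.Perm (ZMod n) := Equiv.addRight 1
  have key := fixed_orbit_card_le (Ω := Finset (Finset (ZMod n))) (Z := ZMod n) τ
    (fun σ => σ⁻¹ 0) ?_ B
  · rw [Nat.card_zmod] at key
    refine le_trans ?_ key
    have himp : ∀ C : Finset (Finset (ZMod n)),
        ((∀ b ∈ C, b.image (fun x => x + 1) ∈ C) ∧ Iso B C) →
          (τ • C = C ∧ ∃ σ : Equiv.Perm (ZMod n), σ • B = C) := by
      rintro C ⟨h1, σ, hσ⟩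
      constructor
      · apply Finset.eq_of_subset_of_card_le
        · intro c hc
          obtain ⟨b, hb, rfl⟩ := Finset.mem_smul_finset.1 hc
          exact h1 b hb
        · rw [Finset.card_smul_finset]
      · refine ⟨σ, ?_⟩
        have hm : ∀ b : Finset (ZMod n), b.map σ.toEmbedding = σ • b := by
          intro b
          rw [Finset.map_eq_image]; rfl
        ext c
        rw [Finset.mem_smul_finset]
        constructor
        · rintro ⟨b, hb, rfl⟩
          rw [← hm]; exact (hσ b).1 hb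
        · intro hc
          refine ⟨σ⁻¹ • c, ?_, smul_inv_smul _ _⟩
          rw [hσ, hm, smul_inv_smul]; exact hc
    exact Nat.card_le_card_of_injective
      (fun C => (⟨C.1, himp C.1 C.2⟩ : {C : Finset (Finset (ZMod n)) //
        τ • C = C ∧ ∃ σ : Equiv.Perm (ZMod n), σ • B = C}))
      (fun C C' h => Subtype.ext (by simpa using h))
  · intro σ σ' h1 h2
    have h3 : ∀ m : ℕ, σ⁻¹ (m : ZMod n) = σ'⁻¹ (m : ZMod n) := by
      intro m
      induction m with
      | zero => simpa using h2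
      | succ m ih =>
        have e1 : (σ⁻¹ * τ * σ) (σ⁻¹ (m : ZMod n)) = σ⁻¹ ((m + 1 : ℕ) : ZMod n) := by
          simp [τ]
        have e2 : (σ'⁻¹ * τ * σ') (σ'⁻¹ (m : ZMod n)) = σ'⁻¹ ((m + 1 : ℕ) : ZMod n) := by
          simp [τ]
        rw [← e1, ← e2, h1, ih]
    apply inv_injective
    ext x
    rw [← ZMod.natCast_zmod_val x]
    exact h3 _

theorem iso_equiv (n : ℕ) : Equivalence (Iso (n := n)) := by
  refine ⟨fun B => ⟨1, fun b => by simp [Equiv.Perm.one_def]⟩, ?_, ?_⟩
  · rintro B C ⟨σ, hσ⟩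
    refine ⟨σ.symm, fun b => ?_⟩
    rw [hσ, Finset.map_map]
    simp
  · rintro B C D ⟨σ, hσ⟩ ⟨τ, hτ⟩
    refine ⟨σ.trans τ, fun b => ?_⟩
    rw [hσ, hτ, Finset.map_map]
    rfl

theorem numCyc_le (n : ℕ) [NeZero n] :
    numCyc n ≤ Nat.card {B : Finset (Finset (ZMod n)) // IsCyc B} :=
  Nat.card_le_card_of_surjective _ Quot.mk_surjective

theorem le_numCyc (n : ℕ) [NeZero n] :
    Nat.card {B : Finset (Finset (ZMod n)) // IsCyc B} ≤ n * numCyc n := by
  classical
  let r := fun B C : {B : Finset (Finset (ZMod n)) // IsCyc B} => Iso B.1 C.1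
  have hr : Equivalence r := ⟨fun B => (iso_equiv n).refl _, fun h => (iso_equiv n).symm h,
    fun h h' => (iso_equiv n).trans h h'⟩
  haveI : Fintype (Quot r) := Fintype.ofFinite _
  unfold numCyc
  rw [Nat.card_eq_fintype_card, Nat.card_eq_fintype_card, ← Finset.card_univ, ← Finset.card_univ]
  refine Finset.card_le_mul_card_image_of_maps_to (f := Quot.mk r)
    (fun _ _ => Finset.mem_univ _) n (fun q _ => ?_)
  obtain ⟨B, rfl⟩ := Quot.mk_surjective q
  refine le_trans ?_ (iso_card_le n B.1)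
  rw [← Fintype.card_subtype, ← Nat.card_eq_fintype_card]
  exact Nat.card_le_card_of_injective
    (fun C => (⟨C.1.1, C.1.2.2.2, hr.eqvGen_iff.1 (Quot.eqvGen_exact C.2.symm)⟩ :
      {C : Finset (Finset (ZMod n)) // (∀ b ∈ C, b.image (fun x => x + 1) ∈ C) ∧ Iso B.1 C}))
    (fun C C' h => Subtype.ext (Subtype.ext (by simpa using h)))

end CSTS
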