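import Mathlib
import Pool.Agent.P.MP_72c5f4_co.A.Alg
import Pool.Agent.P.MP_72c5f4_co.A.Design

namespace CSTS
open Finset

section

variable {G : Type} [CommRing G] [DecidableEq G] [Fintype G]

/-- The relation attached to a perfect matching of the classes outside the 3-torsion. -/
def relOf (M : Finset (Finset (G × G))) (d e : G) : Prop :=
  (∃ h ∈ M, (d, e) ∈ h) ∨ (3 * d = 0 ∧ d ≠ 0 ∧ e = -d)

theorem mem_supp {h : Finset (G × G)} {d e : G} (hp : (d, e) ∈ h) : cls d ∈ supp h :=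
  mem_image.2 ⟨(d, e), hp, rfl⟩

theorem goodRel_relOf (k0 : ∀ z : G, 2 * z = 0 → z = 0) {M : Finset (Finset (G × G))}
    (hM : IsPM (EE G) supp (VV G) M) : GoodRel (relOf M) := by
  have h3 : ∀ h ∈ M, ∀ d e, (d, e) ∈ h → 3 * d ≠ 0 :=
    fun h hh d e hp => mem_VV.1 (hM.ins h hh (mem_supp hp))
  refine ⟨?_, ?_, ?_, ?_, ?_⟩
  · rintro d e (⟨h, hh, hp⟩ | ⟨h1, h2, rfl⟩)
    · obtain ⟨⟨a, b, c, -⟩, -⟩ := EE_mem (hM.sub hh) hp
      exact ⟨a, b, c⟩
    · exact ⟨h2, neg_ne_zero.2 h2, fun hh => h2 (by linear_combination h1 - hh)⟩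
  · intro d hd
    by_cases h1 : 3 * d = 0
    · exact ⟨-d, Or.inr ⟨h1, hd, rfl⟩⟩
    · obtain ⟨h, hh, hc⟩ := hM.cov _ (mem_VV.2 h1)
      obtain ⟨e, -, rfl⟩ := EE_at (hM.sub hh) hc
      exact ⟨e, Or.inl ⟨_, hh, mem_hex_self d e⟩⟩
  · rintro d e e' (⟨h, hh, hp⟩ | ⟨h1, h2, rfl⟩) (⟨h', hh', hp'⟩ | ⟨h4, h5, rfl⟩)
    · have := hM.dis h hh h' hh' _ (mem_supp hp) (mem_supp hp')
      subst this
      obtain ⟨a, b⟩ := EE_mem (hM.sub hh) hp'
      exact a.hex_fun k0 (b ▸ hp)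
    · exact absurd h4 (h3 h hh _ _ hp)
    · exact absurd h1 (h3 h' hh' _ _ hp')
    · rfl
  · rintro d e (⟨h, hh, hp⟩ | ⟨h1, h2, rfl⟩)
    · refine Or.inl ⟨h, hh, ?_⟩
      rw [← (EE_mem (hM.sub hh) hp).2, ← hex_symm]
      exact mem_hex_self _ _
    · exact Or.inr ⟨by linear_combination -h1, neg_ne_zero.2 h2, by ring⟩
  · rintro d e (⟨h, hh, hp⟩ | ⟨h1, h2, rfl⟩)
    · refine Or.inl ⟨h, hh, ?_⟩
      rw [← (EE_mem (hM.sub hh) hp).2, ← hex_shift]
      exact mem_hex_self _ _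
    · exact Or.inr ⟨by linear_combination -h1, neg_ne_zero.2 h2, by linear_combination -h1⟩

theorem relOf_sub (k0 : ∀ z : G, 2 * z = 0 → z = 0) {M M' : Finset (Finset (G × G))}
    (hM : IsPM (EE G) supp (VV G) M) (hM' : IsPM (EE G) supp (VV G) M')
    (hb : blocks (relOf M) = blocks (relOf M')) : M ⊆ M' := by
  intro h hh
  obtain ⟨d, e, -, rfl⟩ := mem_EE.1 (hM.sub hh)
  rcases rel_of_blocks_eq (goodRel_relOf k0 hM) (goodRel_relOf k0 hM') hb
    (Or.inl ⟨_, hh, mem_hex_self d e⟩) with ⟨h', hh', hp⟩ | ⟨h1, -⟩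
  · rwa [(EE_mem (hM'.sub hh') hp).2]
  · exact absurd h1 (mem_VV.1 (hM.ins _ hh (mem_supp (mem_hex_self d e))))

theorem GoodRel.degen {R : G → G → Prop} (h : GoodRel R) :
    (∀ d, R d (-d) → 3 * d = 0) ∧ ∀ d e, R d e → ¬ Nd d e → e = -d := by
  have a : ∀ d, R d (-d) → 3 * d = 0 := fun d hd => by
    have := h.uniq _ _ _ (h.shift _ _ hd) (h.symm _ _ hd)
    linear_combination -this
  have b : ∀ d, R d (2 * d) → 2 * d = -d := fun d hd => by
    have h1 := h.shift _ _ hd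
    rw [show 2 * d - d = d by ring] at h1
    exact h.uniq _ _ _ hd (h.symm _ _ h1)
  refine ⟨a, fun d e hR hn => ?_⟩
  obtain ⟨h1, h2, h3⟩ := h.ne _ _ hR
  by_contra h4
  refine hn ⟨h1, h2, h3, h4, ?_, ?_⟩
  · rintro rfl
    exact h4 (b d hR)
  · rintro rfl
    exact h4 (by linear_combination b e (h.symm _ _ hR))

open Classical in
/-- The full orbits of a relation. -/
noncomputable def matOf (R : G → G → Prop) : Finset (Finset (G × G)) :=
  (EE G).filter (fun h => ∃ p ∈ h, R p.1 p.2)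

open Classical in
/-- The differences in short orbits. -/
noncomputable def shortOf (R : G → G → Prop) : Finset G := univ.filter (fun d => R d (-d))

/-- The nonzero classes outside `Z`. -/
def WW (Z : Finset G) : Finset (Finset G) := (univ.filter (fun d => d ≠ 0 ∧ d ∉ Z)).image cls

theorem mem_matOf {R : G → G → Prop} {h : Finset (G × G)} :
    h ∈ matOf R ↔ h ∈ EE G ∧ ∃ p ∈ h, R p.1 p.2 := by
  simp only [matOf, mem_filter]

theorem mem_shortOf {R : G → G → Prop} {d : G} : d ∈ shortOf R ↔ R d (-d) := by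
  simp [shortOf]

theorem GoodRel.of_mat {R : G → G → Prop} (hR : GoodRel R) {h : Finset (G × G)}
    (hh : h ∈ matOf R) {a b : G} (hp : (a, b) ∈ h) : R a b := by
  obtain ⟨hE, ⟨d, e⟩, hq, hr⟩ := mem_matOf.1 hh
  rw [← (EE_mem hE hq).2] at hp
  exact hex_ind hr hR.symm hR.shift hp

theorem GoodRel.isPM {R : G → G → Prop} (hR : GoodRel R) :
    IsPM (EE G) supp (WW (shortOf R)) (matOf R) := by
  refine ⟨fun h hh => (mem_matOf.1 hh).1, ?_, ?_, ?_⟩
  · intro h hh v hv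
    obtain ⟨⟨a, b⟩, hp, rfl⟩ := mem_image.1 hv
    have hn := (EE_mem (mem_matOf.1 hh).1 hp).1
    refine mem_image_of_mem _ (mem_filter.2 ⟨mem_univ _, hn.1, fun hz => hn.2.2.2.1 ?_⟩)
    exact hR.uniq _ _ _ (hR.of_mat hh hp) (mem_shortOf.1 hz)
  · intro v hv
    obtain ⟨d, hd, rfl⟩ := mem_image.1 hv
    obtain ⟨-, h0, hz⟩ := mem_filter.1 hd
    obtain ⟨e, he⟩ := hR.ex d h0
    have hn : Nd d e := by
      by_contra hn
      exact hz (mem_shortOf.2 (hR.degen.2 d e he hn ▸ he))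
    exact ⟨hex d e, mem_matOf.2 ⟨hn.mem_EE, (d, e), mem_hex_self _ _, he⟩,
      mem_supp (mem_hex_self _ _)⟩
  · intro h hh h' hh' v hv hv'
    obtain ⟨d, rfl⟩ : ∃ d, cls d = v := let ⟨p, _, hp⟩ := mem_image.1 hv; ⟨p.1, hp⟩
    obtain ⟨e, -, rfl⟩ := EE_at (mem_matOf.1 hh).1 hv
    obtain ⟨e', -, rfl⟩ := EE_at (mem_matOf.1 hh').1 hv'
    rw [hR.uniq _ _ _ (hR.of_mat hh (mem_hex_self _ _)) (hR.of_mat hh' (mem_hex_self _ _))]

theorem GoodRel.iff_mat {R : G → G → Prop} (hR : GoodRel R) (d e : G) :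
    R d e ↔ (∃ h ∈ matOf R, (d, e) ∈ h) ∨ (d ∈ shortOf R ∧ e = -d) := by
  constructor
  · intro he
    by_cases hn : Nd d e
    · exact Or.inl ⟨hex d e, mem_matOf.2 ⟨hn.mem_EE, (d, e), mem_hex_self _ _, he⟩,
        mem_hex_self _ _⟩
    · have := hR.degen.2 d e he hn
      exact Or.inr ⟨mem_shortOf.2 (this ▸ he), this⟩
  · rintro (⟨h, hh, hp⟩ | ⟨h1, rfl⟩)
    · exact hR.of_mat hh hp
    · exact mem_shortOf.1 h1

theorem two_mul_card_image (k0 : ∀ z : G, 2 * z = 0 → z = 0) (S : Finset G)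
    (h0 : ∀ x ∈ S, x ≠ 0) (hn : ∀ x ∈ S, -x ∈ S) : #S = 2 * #(S.image cls) := by
  rw [card_eq_sum_card_image cls, mul_comm, ← smul_eq_mul, ← sum_const]
  refine sum_congr rfl (fun v hv => ?_)
  obtain ⟨x, hx, rfl⟩ := mem_image.1 hv
  rw [card_eq_two]
  refine ⟨x, -x, fun h => h0 x hx (k0 x (by linear_combination h)), ?_⟩
  ext y
  simp only [mem_filter, cls_eq_iff, mem_insert, mem_singleton]
  refine ⟨fun h => h.2, fun h => ⟨?_, h⟩⟩
  rcases h with rfl | rfl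
  · exact hx
  · exact hn x hx

theorem card_WW (k0 : ∀ z : G, 2 * z = 0 → z = 0) (Z : Finset G) :
    2 * #(WW Z) ≤ Fintype.card G := by
  have := two_mul_card_image k0 (univ.filter (fun d : G => d ≠ 0)) (by simp) (by simp)
  have h1 : WW Z ⊆ (univ.filter (fun d : G => d ≠ 0)).image cls :=
    image_subset_image (fun d hd => mem_filter.2 ⟨mem_univ _, (mem_filter.1 hd).2.1⟩)
  have h2 := card_le_card h1
  have h3 := card_le_univ (univ.filter (fun d : G => d ≠ 0))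
  omega

theorem card_VV (k0 : ∀ z : G, 2 * z = 0 → z = 0) :
    2 * #(VV G) + #(univ.filter (fun z : G => 3 * z = 0)) = Fintype.card G := by
  have := two_mul_card_image k0 (univ.filter (fun z : G => 3 * z ≠ 0))
    (fun x hx h0 => (mem_filter.1 hx).2 (by rw [h0, mul_zero])) (by simp)
  rw [VV, ← this, add_comm, card_filter_add_card_filter_not, card_univ]

end

variable {n : ℕ} [NeZero n]

theorem PMs_le_cyc (k0 : ∀ z : ZMod n, 2 * z = 0 → z = 0) :
    #(PMs (EE (ZMod n)) supp (VV (ZMod n))) ≤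
      Nat.card {B : Finset (Finset (ZMod n)) // IsCyc B} := by
  rw [← Nat.card_eq_finsetCard]
  refine Nat.card_le_card_of_injective (fun M => ⟨blocks (relOf M.1),
    isCyc_blocks (goodRel_relOf k0 (mem_PMs.1 M.2))⟩) (fun M M' h => Subtype.ext ?_)
  have h' : blocks (relOf M.1) = blocks (relOf M'.1) := congrArg Subtype.val h
  exact subset_antisymm (relOf_sub k0 (mem_PMs.1 M.2) (mem_PMs.1 M'.2) h')
    (relOf_sub k0 (mem_PMs.1 M'.2) (mem_PMs.1 M.2) h'.symm)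

theorem IsCyc.rel {B : Finset (Finset (ZMod n))} (hB : IsCyc B) :
    ∃ R : ZMod n → ZMod n → Prop, GoodRel R ∧ blocks R = B := by
  obtain ⟨h3, hu, ht⟩ := hB
  have tr : ∀ (x : ZMod n) (b : Finset (ZMod n)), b ∈ B → b.image (fun y => y + x) ∈ B := by
    have : ∀ (k : ℕ) (b : Finset (ZMod n)), b ∈ B → b.image (fun y => y + (k : ZMod n)) ∈ B := by
      intro k
      induction k with
      | zero => intro b hb; simpa using hb
      | succ k ih =>
        intro b hb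
        have := ht _ (ih b hb)
        rw [image_image] at this
        simpa [Function.comp_def, add_assoc] using this
    intro x b hb
    rw [← ZMod.natCast_zmod_val x]
    exact this _ b hb
  have tr3 : ∀ x a b c : ZMod n, {a, b, c} ∈ B → {a + x, b + x, c + x} ∈ B := by
    intro x a b c h
    simpa only [image_insert, image_singleton] using tr x _ h
  have third : ∀ b ∈ B, ∀ x y : ZMod n, x ≠ y → x ∈ b → y ∈ b →
      ∃ z, z ≠ x ∧ z ≠ y ∧ b = {x, y, z} := by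
    intro b hb x y hxy hx hy
    have hs : ({x, y} : Finset (ZMod n)) ⊆ b := by simp [insert_subset_iff, hx, hy]
    obtain ⟨z, hz⟩ := card_eq_one.1
      (show #(b \ {x, y}) = 1 by rw [card_sdiff_of_subset hs, h3 b hb, card_pair hxy])
    have hz' : z ∈ b \ {x, y} := hz ▸ mem_singleton_self z
    simp only [mem_sdiff, mem_insert, mem_singleton, not_or] at hz'
    refine ⟨z, hz'.2.1, hz'.2.2, ?_⟩
    rw [← union_sdiff_of_subset hs, hz]
    ext w; simp
  refine ⟨fun d e => {0, d, e} ∈ B ∧ d ≠ 0 ∧ e ≠ 0 ∧ d ≠ e, ⟨fun d e h => h.2, ?_, ?_, ?_, ?_⟩, ?_⟩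
  · intro d hd
    obtain ⟨b, ⟨hb, h0, h1⟩, -⟩ := hu 0 d hd.symm
    obtain ⟨z, z1, z2, rfl⟩ := third b hb 0 d hd.symm h0 h1
    exact ⟨z, hb, hd, z1, z2.symm⟩
  · rintro d e e' ⟨a1, a2, a3, a4⟩ ⟨b1, -⟩
    have := (hu 0 d a2.symm).unique ⟨a1, by simp, by simp⟩ ⟨b1, by simp, by simp⟩
    have he : e ∈ ({0, d, e'} : Finset (ZMod n)) := this ▸ by simp
    simp only [mem_insert, mem_singleton] at he
    rcases he with h | h | h
    · exact absurd h a3
    · exact absurd h.symm a4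
    · exact h
  · rintro d e ⟨a1, a2, a3, a4⟩
    exact ⟨by rwa [pair_comm], a3, a2, a4.symm⟩
  · rintro d e ⟨a1, a2, a3, a4⟩
    refine ⟨?_, neg_ne_zero.2 a2, sub_ne_zero.2 a4.symm, fun h => a3 (by linear_combination -h)⟩
    have := tr3 (-d) _ _ _ a1
    rwa [zero_add, add_neg_cancel, insert_comm, ← sub_eq_add_neg] at this
  · ext b
    rw [mem_blocks]
    constructor
    · rintro ⟨x, d, e, h, rfl⟩
      have := tr3 x _ _ _ h.1
      rwa [zero_add, add_comm d, add_comm e] at this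
    · intro hb
      obtain ⟨x, y, z, h1, h2, h4, rfl⟩ := card_eq_three.1 (h3 b hb)
      refine ⟨x, y - x, z - x, ⟨?_, sub_ne_zero.2 h1.symm, sub_ne_zero.2 h2.symm,
        fun h => h4 (by linear_combination h)⟩, by simp⟩
      have := tr3 (-x) _ _ _ hb
      rwa [add_neg_cancel, ← sub_eq_add_neg, ← sub_eq_add_neg] at this

theorem cyc_le (k0 : ∀ z : ZMod n, 2 * z = 0 → z = 0)
    (h3 : #(univ.filter (fun z : ZMod n => 3 * z = 0)) ≤ 3) (b : ℝ)
    (hb : ∀ W : Finset (Finset (ZMod n)), 2 * #W ≤ n → (#(PMs (EE (ZMod n)) supp W) : ℝ) ≤ b) :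
    (Nat.card {B : Finset (Finset (ZMod n)) // IsCyc B} : ℝ) ≤ 8 * b := by
  choose R hR hRB using fun B : {B : Finset (Finset (ZMod n)) // IsCyc B} => B.2.rel
  set T := univ.filter (fun z : ZMod n => 3 * z = 0)
  have h1 : Nat.card {B : Finset (Finset (ZMod n)) // IsCyc B} ≤
      #(T.powerset.sigma (fun Z => PMs (EE (ZMod n)) supp (WW Z))) := by
    rw [← Nat.card_eq_finsetCard]
    refine Nat.card_le_card_of_injective (fun B => ⟨⟨shortOf (R B), matOf (R B)⟩,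
      mem_sigma.2 ⟨mem_powerset.2 (fun d hd => mem_filter.2
        ⟨mem_univ _, (hR B).degen.1 d (mem_shortOf.1 hd)⟩), mem_PMs.2 (hR B).isPM⟩⟩) ?_
    intro B C h
    have h' := congrArg Subtype.val h
    simp only [Sigma.mk.injEq, heq_eq_eq] at h'
    apply Subtype.ext
    rw [← hRB B, ← hRB C]
    congr 1
    funext d e
    rw [(hR B).iff_mat, (hR C).iff_mat, h'.1, h'.2]
  rw [card_sigma] at h1
  have h2 : ∑ Z ∈ T.powerset, (#(PMs (EE (ZMod n)) supp (WW Z)) : ℝ) ≤ ∑ _Z ∈ T.powerset, b :=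
    sum_le_sum (fun Z _ => hb _ (by simpa using card_WW k0 Z))
  have hb0 : 0 ≤ b := le_trans (Nat.cast_nonneg _) (hb ∅ (by simp))
  rw [sum_const, card_powerset, nsmul_eq_mul] at h2
  have h4 : ((2 ^ #T : ℕ) : ℝ) ≤ 8 := by
    exact_mod_cast (Nat.pow_le_pow_right (by norm_num) h3).trans (by norm_num)
  calc _ ≤ ((∑ Z ∈ T.powerset, #(PMs (EE (ZMod n)) supp (WW Z)) : ℕ) : ℝ) := by exact_mod_cast h1
    _ ≤ _ := by push_cast; exact h2.trans (mul_le_mul_of_nonneg_right h4 hb0)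

end CSTS
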