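import Mathlib
import Pool.Agent.P.MP_72c5f4_co.A.Weights

namespace CSTS
open Finset

variable {α β : Type} [DecidableEq α] [DecidableEq β]

/-- Weighted degree of `v` inside `U`. -/
def dg (E : Finset β) (s : β → Finset α) (w : β → ℝ) (U : Finset α) (v : α) : ℝ :=
  ∑ e ∈ E.filter (fun e => s e ⊆ U ∧ v ∈ s e), w e

/-- Weight of the edges at `v` inside `U` destroyed by removing `e`. -/
def kil (E : Finset β) (s : β → Finset α) (w : β → ℝ) (U : Finset α) (v : α) (e : β) : ℝ :=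
  ∑ f ∈ E.filter (fun f => (s f ⊆ U ∧ v ∈ s f) ∧ ¬ Disjoint ((s f).erase v) (s e)), w f

/-- Total weight inside `U`. -/
def tot (E : Finset β) (s : β → Finset α) (w : β → ℝ) (U : Finset α) : ℝ :=
  ∑ e ∈ E.filter (fun e => s e ⊆ U), w e

variable {V : Finset α} {E : Finset β} {s : β → Finset α} {w : β → ℝ}

theorem dg_sdiff (U : Finset α) (v : α) (e : β) (hv : v ∉ s e) :
    dg E s w (U \ s e) v = dg E s w U v - kil E s w U v e := by
  unfold dg kil
  rw [← sum_filter_add_sum_filter_not (E.filter (fun f => s f ⊆ U ∧ v ∈ s f))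
    (fun f => Disjoint ((s f).erase v) (s e)), filter_filter, filter_filter, add_sub_cancel_right]
  refine sum_congr (filter_congr (fun f _ => ?_)) (fun _ _ => rfl)
  rw [subset_sdiff]
  constructor
  · rintro ⟨⟨h1, h2⟩, h3⟩
    exact ⟨⟨h1, h3⟩, h2.mono_left (erase_subset _ _)⟩
  · rintro ⟨⟨h1, h3⟩, h2⟩
    refine ⟨⟨h1, disjoint_left.2 (fun u hu hu' => ?_)⟩, h3⟩
    exact disjoint_left.1 h2 (mem_erase.2 ⟨fun hh => hv (hh ▸ hu'), hu⟩) hu'

theorem sum_w_le_card (hw : ∀ e ∈ E, 0 ≤ w e ∧ w e ≤ 1) {A : Finset β} (hA : A ⊆ E) :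
    0 ≤ ∑ e ∈ A, w e ∧ ∑ e ∈ A, w e ≤ #A := by
  refine ⟨sum_nonneg (fun e he => (hw e (hA he)).1), ?_⟩
  refine (sum_le_sum (fun e he => (hw e (hA he)).2)).trans ?_
  simp

theorem Tri.kil_le (h : Tri V E s) (hw : ∀ e ∈ E, 0 ≤ w e ∧ w e ≤ 1) (U : Finset α) (v : α)
    {e : β} (he : e ∈ E) : 0 ≤ kil E s w U v e ∧ kil E s w U v e ≤ 12 := by
  obtain ⟨h0, h1⟩ := sum_w_le_card hw (filter_subset
    (fun f => (s f ⊆ U ∧ v ∈ s f) ∧ ¬ Disjoint ((s f).erase v) (s e)) E)
  refine ⟨h0, h1.trans ?_⟩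
  have hsub : E.filter (fun f => (s f ⊆ U ∧ v ∈ s f) ∧ ¬ Disjoint ((s f).erase v) (s e)) ⊆
      ((s e).erase v).biUnion (fun u => E.filter (fun f => v ∈ s f ∧ u ∈ s f)) := by
    intro f hf
    obtain ⟨hfE, ⟨-, hvf⟩, hd⟩ := mem_filter.1 hf
    obtain ⟨u, hu1, hu2⟩ := not_disjoint_iff.1 hd
    obtain ⟨hu3, hu4⟩ := mem_erase.1 hu1
    exact mem_biUnion.2 ⟨u, mem_erase.2 ⟨hu3, hu2⟩, mem_filter.2 ⟨hfE, hvf, hu4⟩⟩
  have hc := (card_le_card hsub).trans (card_biUnion_le_card_mul _ _ 4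
    (fun u hu => h.codeg u v (mem_erase.1 hu).1))
  have : #((s e).erase v) ≤ 3 := h.three e he ▸ card_erase_le
  exact_mod_cast hc.trans (by omega)

theorem Tri.tot_eq (h : Tri V E s) (U : Finset α) :
    3 * tot E s w U = ∑ u ∈ U, dg E s w U u := by
  unfold tot dg
  simp only [← filter_filter, sum_filter (p := fun e => _ ∈ s e)]
  rw [sum_comm, mul_sum]
  refine sum_congr rfl (fun e he => ?_)
  obtain ⟨heE, heU⟩ := mem_filter.1 he
  rw [← sum_filter, filter_mem_eq_inter, inter_eq_right.2 heU, sum_const, h.three e heE]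
  simp

theorem Tri.hit (h : Tri V E s) (hw : ∀ e ∈ E, 0 ≤ w e ∧ w e ≤ 1) (U : Finset α) {b c : α}
    (hbc : b ≠ c) :
    dg E s w U b + dg E s w U c - 4 ≤
        ∑ e ∈ E.filter (fun e => s e ⊆ U), (if ¬ Disjoint {b, c} (s e) then w e else 0) ∧
      ∑ e ∈ E.filter (fun e => s e ⊆ U), (if ¬ Disjoint {b, c} (s e) then w e else 0) ≤
        dg E s w U b + dg E s w U c := by
  have e1 : ∑ e ∈ E.filter (fun e => s e ⊆ U), (if ¬ Disjoint {b, c} (s e) then w e else 0) =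
      dg E s w U b + dg E s w U c -
        ∑ e ∈ (E.filter (fun e => s e ⊆ U)).filter (fun e => b ∈ s e ∧ c ∈ s e), w e := by
    unfold dg
    simp only [← filter_filter (p := fun e => s e ⊆ U)]
    rw [sum_filter (p := fun e => b ∈ s e), sum_filter (p := fun e => c ∈ s e),
      sum_filter (p := fun e => b ∈ s e ∧ c ∈ s e), ← sum_add_distrib, ← sum_sub_distrib]
    refine sum_congr rfl (fun e _ => ?_)
    by_cases h1 : b ∈ s e <;> by_cases h2 : c ∈ s e <;> simp [h1, h2]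
  obtain ⟨h0, h1⟩ := sum_w_le_card hw (A := (E.filter (fun e => s e ⊆ U)).filter
    (fun e => b ∈ s e ∧ c ∈ s e)) ((filter_subset _ _).trans (filter_subset _ _))
  have h2 : #((E.filter (fun e => s e ⊆ U)).filter (fun e => b ∈ s e ∧ c ∈ s e)) ≤ 4 :=
    (card_le_card (filter_subset_filter _ (filter_subset _ _))).trans (h.codeg c b hbc.symm)
  have h3 : (#((E.filter (fun e => s e ⊆ U)).filter (fun e => b ∈ s e ∧ c ∈ s e)) : ℝ) ≤ 4 := by
    exact_mod_cast h2
  rw [e1]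
  constructor <;> linarith

theorem Tri.drift (h : Tri V E s) (hw : ∀ e ∈ E, 0 ≤ w e ∧ w e ≤ 1) (U : Finset α) {g η : ℝ}
    (hg : ∀ u ∈ U, |dg E s w U u - g| ≤ η) (v : α) :
    dg E s w U v * (2 * (g - η) - 4) ≤ ∑ e ∈ E.filter (fun e => s e ⊆ U), w e * kil E s w U v e ∧
      ∑ e ∈ E.filter (fun e => s e ⊆ U), w e * kil E s w U v e ≤ dg E s w U v * (2 * (g + η)) := by
  have e1 : ∑ e ∈ E.filter (fun e => s e ⊆ U), w e * kil E s w U v e =
      ∑ f ∈ E.filter (fun f => s f ⊆ U ∧ v ∈ s f), w f * ∑ e ∈ E.filter (fun e => s e ⊆ U),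
        (if ¬ Disjoint ((s f).erase v) (s e) then w e else 0) := by
    unfold kil
    simp only [← filter_filter (p := fun f => s f ⊆ U ∧ v ∈ s f),
      sum_filter (p := fun f => ¬ Disjoint ((s f).erase v) _), mul_sum]
    rw [sum_comm]
    refine sum_congr rfl (fun f _ => sum_congr rfl (fun e _ => ?_))
    split_ifs <;> ring
  have e2 : ∀ f ∈ E.filter (fun f => s f ⊆ U ∧ v ∈ s f),
      2 * (g - η) - 4 ≤ ∑ e ∈ E.filter (fun e => s e ⊆ U),
        (if ¬ Disjoint ((s f).erase v) (s e) then w e else 0) ∧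
      ∑ e ∈ E.filter (fun e => s e ⊆ U),
        (if ¬ Disjoint ((s f).erase v) (s e) then w e else 0) ≤ 2 * (g + η) := by
    intro f hf
    obtain ⟨hfE, hfU, hvf⟩ := mem_filter.1 hf
    obtain ⟨b, c, hbc, hq⟩ := card_eq_two.1
      (show #((s f).erase v) = 2 by rw [card_erase_of_mem hvf, h.three f hfE])
    have hb : b ∈ U := hfU (mem_of_mem_erase (hq ▸ (by simp : b ∈ ({b, c} : Finset α))))
    have hc : c ∈ U := hfU (mem_of_mem_erase (hq ▸ (by simp : c ∈ ({b, c} : Finset α))))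
    rw [hq]
    obtain ⟨h1, h2⟩ := h.hit hw U hbc
    have h3 := abs_le.1 (hg b hb)
    have h4 := abs_le.1 (hg c hc)
    constructor <;> linarith [h3.1, h3.2, h4.1, h4.2]
  rw [e1]
  unfold dg
  rw [sum_mul, sum_mul]
  exact ⟨sum_le_sum (fun f hf => mul_le_mul_of_nonneg_left (e2 f hf).1
      (hw f (mem_filter.1 hf).1).1),
    sum_le_sum (fun f hf => mul_le_mul_of_nonneg_left (e2 f hf).2 (hw f (mem_filter.1 hf).1).1)⟩

theorem drift_num {g η u y Q S : ℝ} (h48 : 48 ≤ η) (hη : 2 * η ≤ g) (hu : 0 < u)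
    (hy : |y - g| ≤ η) (hQ1 : u * (g - η) ≤ 3 * Q) (hQ2 : 3 * Q ≤ u * (g + η))
    (hS1 : y * (2 * (g - η) - 4) ≤ S) (hS2 : S ≤ y * (2 * (g + η))) :
    |S / Q - 6 * g / u| ≤ (42 * η + 12) / u := by
  obtain ⟨hy1, hy2⟩ := abs_le.1 hy
  have hQ : 0 < Q := by nlinarith
  have a1 : S ≤ (g + η) * (2 * (g + η)) :=
    hS2.trans (mul_le_mul_of_nonneg_right (by linarith) (by linarith))
  have a2 : (g - η) * (2 * (g - η) - 4) ≤ S :=
    le_trans (mul_le_mul_of_nonneg_right (by linarith) (by linarith)) hS1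
  rw [abs_le]
  constructor
  · have : (6 * g - (42 * η + 12)) / u ≤ S / Q := by
      rw [div_le_div_iff₀ hu hQ]
      by_cases hs : 6 * g - (42 * η + 12) ≤ 0
      · have b1 : (6 * g - (42 * η + 12)) * Q ≤ 0 := mul_nonpos_of_nonpos_of_nonneg hs hQ.le
        have b2 : 0 ≤ S := le_trans (mul_nonneg (by linarith) (by linarith)) a2
        nlinarith
      · have b1 : (6 * g - (42 * η + 12)) * (3 * Q) ≤ (6 * g - (42 * η + 12)) * (u * (g + η)) :=
          mul_le_mul_of_nonneg_left hQ2 (by linarith)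
        have b2 : (6 * g - (42 * η + 12)) * (g + η) ≤ 3 * ((g - η) * (2 * (g - η) - 4)) := by
          nlinarith
        have b3 := mul_le_mul_of_nonneg_left b2 hu.le
        have b4 := mul_le_mul_of_nonneg_left a2 hu.le
        nlinarith
    rw [sub_div] at this
    linarith
  · have : S / Q ≤ (6 * g + (42 * η + 12)) / u := by
      rw [div_le_div_iff₀ hQ hu]
      have b1 : (6 * g + (42 * η + 12)) * (u * (g - η)) ≤ (6 * g + (42 * η + 12)) * (3 * Q) :=
        mul_le_mul_of_nonneg_left hQ1 (by linarith)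
      have b2 : 3 * ((g + η) * (2 * (g + η))) ≤ (6 * g + (42 * η + 12)) * (g - η) := by
        nlinarith
      have b3 := mul_le_mul_of_nonneg_left b2 hu.le
      have b4 := mul_le_mul_of_nonneg_left a1 hu.le
      nlinarith
    rw [add_div] at this
    linarith

theorem exp_avg {A : Finset β} {X : β → ℝ} {t : ℝ} (hw : ∀ e ∈ A, 0 ≤ w e)
    (hX : ∀ e ∈ A, 0 ≤ X e ∧ X e ≤ 12) (ht : |t| ≤ 1 / 12) (hQ : 0 < ∑ e ∈ A, w e) :
    ∑ e ∈ A, w e * Real.exp (t * X e) ≤
      (∑ e ∈ A, w e) * Real.exp (t * ((∑ e ∈ A, w e * X e) / ∑ e ∈ A, w e) + 144 * t ^ 2) := by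
  have h1 : ∀ e ∈ A, w e * Real.exp (t * X e) ≤ w e * (1 + 144 * t ^ 2) + t * (w e * X e) := by
    intro e he
    obtain ⟨x0, x1⟩ := hX e he
    have a : |t * X e| ≤ 1 := by
      rw [abs_mul, abs_of_nonneg x0]; nlinarith [abs_nonneg t]
    have b := (abs_le.1 (Real.abs_exp_sub_one_sub_id_le a)).2
    have c : (t * X e) ^ 2 ≤ 144 * t ^ 2 := by
      rw [mul_pow, mul_comm]
      exact mul_le_mul_of_nonneg_right (by nlinarith) (sq_nonneg t)
    have := mul_le_mul_of_nonneg_left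
      (show Real.exp (t * X e) ≤ 1 + 144 * t ^ 2 + t * X e by linarith) (hw e he)
    linarith
  refine (sum_le_sum h1).trans ?_
  rw [sum_add_distrib, ← sum_mul, ← mul_sum]
  set Q := ∑ e ∈ A, w e
  set S := ∑ e ∈ A, w e * X e
  have h2 := mul_le_mul_of_nonneg_left (Real.add_one_le_exp (t * (S / Q) + 144 * t ^ 2)) hQ.le
  have h3 : Q * (t * (S / Q) + 144 * t ^ 2 + 1) = Q * (1 + 144 * t ^ 2) + t * S := by
    field_simp; ring
  linarith

/-- The potential. -/
noncomputable def pot (E : Finset β) (s : β → Finset α) (w : β → ℝ) (t g η : ℝ) (U : Finset α) :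
    ℝ :=
  ∑ v ∈ U, (Real.exp (t * (dg E s w U v - g - η)) + Real.exp (t * (g - η - dg E s w U v)))

theorem pot_nonneg (t g η : ℝ) (U : Finset α) : 0 ≤ pot E s w t g η U :=
  sum_nonneg (fun _ _ => by positivity)

theorem good_of_pot {t g η : ℝ} {U : Finset α} (ht : 0 < t) (h : pot E s w t g η U < 1) :
    ∀ v ∈ U, |dg E s w U v - g| ≤ η := by
  intro v hv
  have h1 := (single_le_sum (f := fun v => Real.exp (t * (dg E s w U v - g - η)) +
    Real.exp (t * (g - η - dg E s w U v))) (fun _ _ => by positivity) hv).trans_lt h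
  have a := Real.exp_pos (t * (dg E s w U v - g - η))
  have b := Real.exp_pos (t * (g - η - dg E s w U v))
  have c : t * (dg E s w U v - g - η) < 0 := Real.exp_lt_one_iff.1 (by linarith)
  have d : t * (g - η - dg E s w U v) < 0 := Real.exp_lt_one_iff.1 (by linarith)
  rw [abs_le]
  constructor <;> nlinarith

theorem Tri.step (h : Tri V E s) (hw : ∀ e ∈ E, 0 ≤ w e ∧ w e ≤ 1) {U : Finset α}
    {t g η g' η' : ℝ} (ht : 0 < t) (ht' : t ≤ 1 / 12) (h48 : 48 ≤ η) (hη : 2 * η ≤ g)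
    (hu : (0 : ℝ) < #U) (hg : |g - g' - 6 * g / #U| ≤ 36 / #U)
    (hη' : (42 * η + 48) / #U + 144 * t ≤ η' - η) (hp : pot E s w t g η U < 1) :
    #U * (g - η) ≤ 3 * tot E s w U ∧
      ∑ e ∈ E.filter (fun e => s e ⊆ U), w e * pot E s w t g' η' (U \ s e) ≤
        tot E s w U * pot E s w t g η U := by
  have hgood := good_of_pot ht hp
  have hQ1 : #U * (g - η) ≤ 3 * tot E s w U := by
    rw [h.tot_eq, ← nsmul_eq_mul, ← sum_const]
    exact sum_le_sum (fun v hv => by linarith [(abs_le.1 (hgood v hv)).1])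
  have hQ2 : 3 * tot E s w U ≤ #U * (g + η) := by
    rw [h.tot_eq, ← nsmul_eq_mul, ← sum_const]
    exact sum_le_sum (fun v hv => by linarith [(abs_le.1 (hgood v hv)).2])
  refine ⟨hQ1, ?_⟩
  have hQ : 0 < tot E s w U := by nlinarith
  have h1 : ∀ e ∈ E.filter (fun e => s e ⊆ U), w e * pot E s w t g' η' (U \ s e) ≤
      ∑ v ∈ U, (Real.exp (t * (dg E s w U v - g' - η')) * (w e * Real.exp (-t * kil E s w U v e)) +
        Real.exp (t * (g' - η' - dg E s w U v)) * (w e * Real.exp (t * kil E s w U v e))) := by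
    intro e he
    have w0 := (hw e (mem_filter.1 he).1).1
    unfold pot
    rw [mul_sum]
    refine le_trans (le_of_eq (sum_congr rfl (fun v hv => ?_)))
      (sum_le_sum_of_subset_of_nonneg (sdiff_subset (t := s e)) (fun _ _ _ => by positivity))
    rw [dg_sdiff U v e (mem_sdiff.1 hv).2, mul_left_comm, ← Real.exp_add, mul_left_comm _ (w e),
      ← Real.exp_add, ← mul_add]
    congr 3 <;> ring
  refine (sum_le_sum h1).trans ?_
  rw [sum_comm]
  unfold pot
  rw [mul_sum]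
  refine sum_le_sum (fun v hv => ?_)
  rw [sum_add_distrib, ← mul_sum, ← mul_sum, mul_add]
  have hw0 : ∀ e ∈ E.filter (fun e => s e ⊆ U), 0 ≤ w e := fun e he => (hw e (mem_filter.1 he).1).1
  have hX : ∀ e ∈ E.filter (fun e => s e ⊆ U), 0 ≤ kil E s w U v e ∧ kil E s w U v e ≤ 12 :=
    fun e he => h.kil_le hw U v (mem_filter.1 he).1
  have a1 := exp_avg (t := -t) hw0 hX (by rw [abs_neg, abs_of_pos ht]; exact ht') hQ
  have a2 := exp_avg (t := t) hw0 hX (by rw [abs_of_pos ht]; exact ht') hQ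
  obtain ⟨d1, d2⟩ := h.drift hw U hgood v
  have d3 := abs_le.1 (drift_num h48 hη hu (hgood v hv) hQ1 hQ2 d1 d2)
  have d4 := abs_le.1 hg
  have d5 : (42 * η + 48) / #U = (42 * η + 12) / #U + 36 / #U := by ring
  change _ ≤ tot E s w U * Real.exp (_ * (_ / tot E s w U) + _) at a1 a2
  set μ := (∑ e ∈ E.filter (fun e => s e ⊆ U), w e * kil E s w U v e) / tot E s w U
  refine add_le_add ((mul_le_mul_of_nonneg_left a1 (Real.exp_pos _).le).trans ?_)
    ((mul_le_mul_of_nonneg_left a2 (Real.exp_pos _).le).trans ?_)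
  · rw [mul_left_comm, ← Real.exp_add]
    refine mul_le_mul_of_nonneg_left (Real.exp_le_exp.2 ?_) hQ.le
    have := mul_le_mul_of_nonneg_left
      (show g - g' - μ + 144 * t ≤ η' - η by linarith [d3.1, d4.2]) ht.le
    nlinarith
  · rw [mul_left_comm, ← Real.exp_add]
    refine mul_le_mul_of_nonneg_left (Real.exp_le_exp.2 ?_) hQ.le
    have := mul_le_mul_of_nonneg_left
      (show μ - (g - g') + 144 * t ≤ η' - η by linarith [d3.2, d4.1]) ht.le
    nlinarith

end CSTS
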