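import Mathlib
import Pool.Agent.P.MP_72c5f4_co.A.Step

namespace CSTS
open Finset

variable {α β : Type} [DecidableEq α] [DecidableEq β]
variable {V : Finset α} {E : Finset β} {s : β → Finset α} {w : β → ℝ}

theorem params {N u D η0 δ p : ℝ} (hN : 0 < N) (hp : 0 < p) (hu : p * N ≤ u - 3) (huN : u ≤ N)
    (hδ : δ ≤ 1 / 2) (h48 : 48 ≤ η0) (hD0 : 0 ≤ D) (hD : D ≤ 4 * N) (hη : η0 ≤ δ * D * p ^ 17) :
    48 ≤ η0 * (N / u) ^ 15 ∧ η0 * (N / u) ^ 15 ≤ δ * (D * u ^ 2 / N ^ 2) ∧
      2 * (η0 * (N / u) ^ 15) ≤ D * u ^ 2 / N ^ 2 ∧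
      |D * u ^ 2 / N ^ 2 - D * (u - 3) ^ 2 / N ^ 2 - 6 * (D * u ^ 2 / N ^ 2) / u| ≤ 36 / u ∧
      (42 * (η0 * (N / u) ^ 15) + 48) / u + 144 * (η0 / (72 * N)) ≤
        η0 * (N / (u - 3)) ^ 15 - η0 * (N / u) ^ 15 := by
  have hu3 : 0 < u - 3 := lt_of_lt_of_le (by positivity) hu
  have hu0 : 0 < u := by linarith
  have h1 : 1 ≤ (N / u) ^ 15 := one_le_pow₀ ((one_le_div hu0).2 huN)
  have h2 : η0 ≤ η0 * (N / u) ^ 15 := le_mul_of_one_le_right (by linarith) h1
  have hδD : 0 ≤ δ * D := by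
    by_contra hh
    have := mul_neg_of_neg_of_pos (not_le.1 hh) (pow_pos hp 17)
    linarith
  have h3 : η0 * (N / u) ^ 15 ≤ δ * (D * u ^ 2 / N ^ 2) := by
    have a : p ≤ u / N := by rw [le_div_iff₀ hN]; linarith
    have b : η0 ≤ δ * D * (u / N) ^ 17 :=
      hη.trans (mul_le_mul_of_nonneg_left (pow_le_pow_left₀ hp.le a 17) hδD)
    refine (mul_le_mul_of_nonneg_right b (by positivity)).trans (le_of_eq ?_)
    field_simp
  have hg : 0 ≤ D * u ^ 2 / N ^ 2 := by positivity
  refine ⟨by linarith, h3, by nlinarith, ?_, ?_⟩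
  · have : D * u ^ 2 / N ^ 2 - D * (u - 3) ^ 2 / N ^ 2 - 6 * (D * u ^ 2 / N ^ 2) / u =
        -(9 * D / N ^ 2) := by field_simp; ring
    rw [this, abs_neg, abs_of_nonneg (by positivity), div_le_div_iff₀ (by positivity) hu0]
    nlinarith [mul_le_mul hD huN hu0.le (by positivity : (0 : ℝ) ≤ 4 * N)]
  · set η := η0 * (N / u) ^ 15 with hηd
    have a : η0 * (N / (u - 3)) ^ 15 = η * (u / (u - 3)) ^ 15 := by
      rw [hηd, mul_assoc, ← mul_pow]; congr 2; field_simp
    have b : 1 + 3 / u ≤ u / (u - 3) := by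
      rw [le_div_iff₀ hu3]
      have : (1 + 3 / u) * (u - 3) = u - 9 / u := by field_simp; ring
      rw [this]
      have : 0 ≤ 9 / u := by positivity
      linarith
    have c : 1 + (15 : ℕ) * (3 / u) ≤ (u / (u - 3)) ^ 15 :=
      (one_add_mul_le_pow (by have : 0 ≤ 3 / u := by positivity
                              linarith) 15).trans (pow_le_pow_left₀ (by positivity) b 15)
    have d := mul_le_mul_of_nonneg_left c (show 0 ≤ η by linarith)
    have e : 144 * (η0 / (72 * N)) ≤ 2 * η / u := by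
      have : 144 * (η0 / (72 * N)) = 2 * η0 / N := by field_simp; ring
      rw [this]
      exact div_le_div₀ (by linarith) (by linarith) hu0 huN
    have f : (42 * η + 48) / u ≤ 43 * η / u := div_le_div_of_nonneg_right (by linarith) hu0.le
    have g : η * (1 + (15 : ℕ) * (3 / u)) = η + (43 * η / u + 2 * η / u) := by
      push_cast; ring
    rw [a]
    linarith

theorem Tri.greedy (h : Tri V E s) (hw : ∀ e ∈ E, 0 ≤ w e ∧ w e ≤ 1) {D η0 δ p : ℝ}
    (hdeg : ∀ v ∈ V, ∑ e ∈ E.filter (fun e => v ∈ s e), w e = D) (m : ℕ)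
    (hN : (0 : ℝ) < #V) (hp : 0 < p) (hm : p * #V ≤ #V - 3 * m)
    (hδ : δ ≤ 1 / 2) (h48 : 48 ≤ η0) (h6 : η0 ≤ 6 * #V) (hD0 : 0 ≤ D) (hD : D ≤ 4 * #V)
    (hη : η0 ≤ δ * D * p ^ 17) (hexp : 4 * (#V : ℝ) ≤ Real.exp (η0 ^ 2 / (72 * #V)))
    (F : Finset α → ℝ) (c : ℕ → ℝ) (hF0 : ∀ U, 0 ≤ F U) (hc : ∀ i < m, 0 < c i)
    (hstep : ∀ i < m, ∀ U ⊆ V, #U + 3 * i = #V →
      ∑ e ∈ E.filter (fun e => s e ⊆ U), F (U \ s e) ≤ c i * F U)
    (hend : ∀ U ⊆ V, #U + 3 * m = #V → 1 ≤ F U) :
    1 / 2 * ∏ i ∈ range m, ((1 - δ) * D * ((#V : ℝ) - 3 * i) ^ 3 / (3 * (#V : ℝ) ^ 2) / c i)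
      ≤ F V := by
  set N : ℝ := (#V : ℝ) with hNd
  set t := η0 / (72 * N) with htd
  have ht : 0 < t := by rw [htd]; exact div_pos (by linarith) (by linarith)
  have ht' : t ≤ 1 / 12 := by rw [htd, div_le_iff₀ (by linarith)]; linarith
  let g : ℕ → ℝ := fun i => D * (N - 3 * i) ^ 2 / N ^ 2
  let η : ℕ → ℝ := fun i => η0 * (N / (N - 3 * i)) ^ 15
  let q : ℕ → ℝ := fun i => (1 - δ) * D * (N - 3 * i) ^ 3 / (3 * N ^ 2) / c i
  have hq0 : ∀ i < m, 0 ≤ q i := by
    intro i hi
    have a : (i : ℝ) ≤ m := by exact_mod_cast hi.le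
    have b : 0 < p * N := by positivity
    have := hc i hi
    exact div_nonneg (div_nonneg (mul_nonneg (mul_nonneg (by linarith) hD0)
      (pow_nonneg (by linarith) 3)) (by positivity)) this.le
  have key : ∀ j i, i + j = m → ∀ U ⊆ V, #U + 3 * i = #V →
      (1 - pot E s w t (g i) (η i) U) * ∏ k ∈ Ico i m, q k ≤ F U := by
    intro j
    induction j with
    | zero =>
      intro i hi U hU hc'
      have : i = m := by omega
      subst this
      have a := hend U hU hc'
      have b := pot_nonneg (E := E) (s := s) (w := w) t (g i) (η i) U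
      simp only [Ico_self, prod_empty, mul_one]
      linarith
    | succ j ih =>
      intro i hi U hU hc'
      have him : i < m := by omega
      have hP : ∀ i', i ≤ i' → 0 ≤ ∏ k ∈ Ico i' m, q k := fun i' _ =>
        prod_nonneg (fun k hk => hq0 k (mem_Ico.1 hk).2)
      by_cases hp1 : pot E s w t (g i) (η i) U < 1
      swap
      · exact (mul_nonpos_of_nonpos_of_nonneg (by linarith [not_lt.1 hp1]) (hP i le_rfl)).trans
          (hF0 U)
      have hu : (#U : ℝ) = N - 3 * i := by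
        rw [hNd, ← hc']; push_cast; ring
      have hi1 : (i : ℝ) + 1 ≤ m := by exact_mod_cast him
      have hi0 : (0 : ℝ) ≤ i := Nat.cast_nonneg _
      obtain ⟨p1, p2, p3, p4, p5⟩ := params (u := N - 3 * i) hN hp (by linarith) (by linarith)
        hδ h48 hD0 hD hη
      have hpN : 0 < p * N := by positivity
      have e3 : N - 3 * i - 3 = N - 3 * ((i + 1 : ℕ) : ℝ) := by push_cast; ring
      rw [e3] at p4 p5
      obtain ⟨s1, s2⟩ := h.step hw (U := U) (g := g i) (η := η i) (g' := g (i + 1))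
        (η' := η (i + 1)) ht ht' p1 p3 (by rw [hu]; linarith) (by rw [hu]; exact p4)
        (by rw [hu]; exact p5) hp1
      have s3 : ∀ e ∈ E.filter (fun e => s e ⊆ U),
          w e * ((1 - pot E s w t (g (i + 1)) (η (i + 1)) (U \ s e)) * ∏ k ∈ Ico (i + 1) m, q k)
            ≤ F (U \ s e) := by
        intro e he
        obtain ⟨heE, heU⟩ := mem_filter.1 he
        have hcU := card_le_card heU
        have a := ih (i + 1) (by omega) (U \ s e) (sdiff_subset.trans hU)
          (by rw [card_sdiff_of_subset heU, h.three e heE] at *; omega)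
        exact (mul_le_mul_of_nonneg_left a (hw e heE).1).trans
          (mul_le_of_le_one_left (hF0 _) (hw e heE).2)
      have s4 := (sum_le_sum s3).trans (hstep i him U hU hc')
      set P := ∏ k ∈ Ico (i + 1) m, q k with hPd
      have s5 : ∑ e ∈ E.filter (fun e => s e ⊆ U),
          w e * ((1 - pot E s w t (g (i + 1)) (η (i + 1)) (U \ s e)) * P) =
          (tot E s w U - ∑ e ∈ E.filter (fun e => s e ⊆ U),
            w e * pot E s w t (g (i + 1)) (η (i + 1)) (U \ s e)) * P := by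
        unfold tot
        rw [← sum_sub_distrib, sum_mul]
        exact sum_congr rfl (fun e _ => by ring)
      rw [s5] at s4
      have hP0 : 0 ≤ P := hP (i + 1) (by omega)
      have s6 : q i * c i ≤ tot E s w U := by
        have a : q i * c i = (N - 3 * i) * ((1 - δ) * g i) / 3 := by
          have := (hc i him).ne'
          simp only [q, g]; field_simp
        have b : (1 - δ) * g i ≤ g i - η i := by
          have : η i ≤ δ * g i := p2
          linarith
        have := mul_le_mul_of_nonneg_left b (show 0 ≤ N - 3 * i by linarith)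
        rw [hu] at s1
        rw [a]; linarith
      rw [prod_eq_prod_Ico_succ_bot him, ← hPd]
      refine le_of_mul_le_mul_left (le_trans ?_ s4) (hc i him)
      have s7 : q i * c i * (1 - pot E s w t (g i) (η i) U) ≤
          tot E s w U * (1 - pot E s w t (g i) (η i) U) :=
        mul_le_mul_of_nonneg_right s6 (by linarith)
      have s8 := mul_le_mul_of_nonneg_right (show q i * c i * (1 - pot E s w t (g i) (η i) U) ≤
        tot E s w U - ∑ e ∈ E.filter (fun e => s e ⊆ U),
          w e * pot E s w t (g (i + 1)) (η (i + 1)) (U \ s e) by linarith) hP0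
      linarith
  have fin := key m 0 (by omega) V subset_rfl (by omega)
  rw [← range_eq_Ico] at fin
  refine le_trans (mul_le_mul_of_nonneg_right ?_
    (prod_nonneg (fun k hk => hq0 k (mem_range.1 hk)))) fin
  have hdg : ∀ v ∈ V, dg E s w V v = D := by
    intro v hv
    rw [← hdeg v hv]
    unfold dg
    exact sum_congr (filter_congr (fun e he => by simp [h.ins e he])) (fun _ _ => rfl)
  have hg0 : g 0 = D := by simp only [g]; field_simp; simp
  have hη0 : η 0 = η0 := by simp [η, hN.ne']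
  have hpot : pot E s w t (g 0) (η 0) V = N * (2 * Real.exp (-(η0 ^ 2 / (72 * N)))) := by
    unfold pot
    rw [hg0, hη0, sum_congr rfl (g := fun _ => 2 * Real.exp (-(η0 ^ 2 / (72 * N)))), sum_const,
      nsmul_eq_mul]
    intro v hv
    rw [hdg v hv, two_mul]
    congr 2 <;> (rw [htd]; ring)
  rw [hpot, Real.exp_neg]
  have hx := Real.exp_pos (η0 ^ 2 / (72 * N))
  have : N * (2 * (Real.exp (η0 ^ 2 / (72 * N)))⁻¹) ≤ 1 / 2 := by
    rw [← mul_assoc, ← div_eq_mul_inv, div_le_iff₀ hx]; linarith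
  linarith

end CSTS
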