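import Mathlib
import Pool.Agent.P.MP_72c5f4_co.A.Bridge
import Pool.Agent.P.MP_72c5f4_co.A.Greedy

namespace CSTS
open Finset

theorem zmod_facts (n : ℕ) [NeZero n] (hn : n % 6 = 1 ∨ n % 6 = 3) :
    (∃ hf : ZMod n, 2 * hf = 1) ∧ #(univ.filter (fun z : ZMod n => 3 * z = 0)) ≤ 3 ∧
      3 ∣ #(VV (ZMod n)) ∧ n ≤ 2 * #(VV (ZMod n)) + 3 ∧ 2 * #(VV (ZMod n)) ≤ n := by
  have hh : (2 : ZMod n) * ((n + 1) / 2 : ℕ) = 1 := by
    have : ((2 * ((n + 1) / 2) : ℕ) : ZMod n) = ((n + 1 : ℕ) : ZMod n) := by congr 1; omega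
    push_cast at this
    rw [this]; simp
  have k0 : ∀ z : ZMod n, 2 * z = 0 → z = 0 := fun z h => by
    linear_combination (((n + 1) / 2 : ℕ) : ZMod n) * h - z * hh
  have hV := card_VV k0
  rw [ZMod.card] at hV
  have hT : #(univ.filter (fun z : ZMod n => 3 * z = 0)) =
      #((range n).filter (fun m => n ∣ 3 * m)) := by
    refine card_bij (fun z _ => z.val) ?_ (fun _ _ _ _ h => ZMod.val_injective n h) ?_
    · intro z hz
      refine mem_filter.2 ⟨mem_range.2 (ZMod.val_lt z), ?_⟩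
      rw [← ZMod.natCast_eq_zero_iff]
      push_cast
      rw [ZMod.natCast_zmod_val]
      exact (mem_filter.1 hz).2
    · intro m hm
      obtain ⟨h1, h2⟩ := mem_filter.1 hm
      refine ⟨m, mem_filter.2 ⟨mem_univ _, ?_⟩, ZMod.val_cast_of_lt (mem_range.1 h1)⟩
      have := (ZMod.natCast_eq_zero_iff _ _).2 h2
      push_cast at this
      exact this
  have key : ∀ m, m < n → (n ∣ 3 * m ↔ (m = 0 ∨ 3 * m = n ∨ 3 * m = 2 * n)) := by
    intro m hm
    constructor
    · rintro ⟨c, hc⟩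
      have hc3 : c < 3 := by
        by_contra hcon
        have : n * 3 ≤ n * c := Nat.mul_le_mul_left n (by omega)
        omega
      interval_cases c <;> omega
    · rintro (h0 | h0 | h0)
      · simp [h0]
      · rw [h0]
      · rw [h0]; exact Dvd.intro_left 2 rfl
  have hc : #((range n).filter (fun m => n ∣ 3 * m)) = n % 6 := by
    rcases hn with hn | hn
    · rw [hn, card_eq_one]
      refine ⟨0, ?_⟩
      ext m
      simp only [mem_filter, mem_range, mem_singleton]
      refine ⟨fun h => ?_, fun h => ⟨by omega, by simp [h]⟩⟩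
      have := (key m h.1).1 h.2
      omega
    · rw [hn, card_eq_three]
      refine ⟨0, n / 3, 2 * (n / 3), by omega, by omega, by omega, ?_⟩
      ext m
      simp only [mem_filter, mem_range, mem_insert, mem_singleton]
      refine ⟨fun h => ?_, fun h => ⟨by omega, (key m (by omega)).2 (by omega)⟩⟩
      have := (key m h.1).1 h.2
      omega
  refine ⟨⟨_, hh⟩, by omega, by omega, by omega, by omega⟩

theorem res_zmod (n t K : ℕ) [NeZero n] (ht : 0 < t) (hK : K * t ≤ n) :
    ∃ R : Finset (Finset (ZMod n)), #R ≤ K * t + n / t + K + 2 ∧ ∀ x : ZMod n,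
      ∃ J : Finset (ZMod n), #J = K ∧ ∀ y ∈ J, cls y ∈ R ∧ cls (y - x) ∈ R := by
  refine ⟨(range (K * t + 1)).image (fun i : ℕ => cls (i : ZMod n)) ∪
    (range (n / t + K + 1)).image (fun j : ℕ => cls ((j * t : ℕ) : ZMod n)), ?_, fun x => ?_⟩
  · refine (card_union_le _ _).trans ((add_le_add card_image_le card_image_le).trans ?_)
    simp only [card_range]; omega
  · refine ⟨(range K).image (fun i => (((x.val / t + 1 + i) * t : ℕ) : ZMod n)), ?_, ?_⟩
    · rw [card_image_of_injOn, card_range]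
      have aux : ∀ i j, i < j → j < K → (((x.val / t + 1 + i) * t : ℕ) : ZMod n) ≠
          (((x.val / t + 1 + j) * t : ℕ) : ZMod n) := by
        intro i j hij hj h
        obtain ⟨c, rfl⟩ := Nat.exists_eq_add_of_lt hij
        have h1 : (((c + 1) * t : ℕ) : ZMod n) = 0 := by
          push_cast at h ⊢; linear_combination -h
        have h2 := Nat.le_of_dvd (by positivity) ((ZMod.natCast_eq_zero_iff _ _).1 h1)
        have h3 : (c + 1) * t < K * t := Nat.mul_lt_mul_of_pos_right (by omega) ht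
        omega
      intro i hi j hj h
      rcases lt_trichotomy i j with h1 | h1 | h1
      · exact absurd h (aux i j h1 (mem_range.1 (mem_coe.1 hj)))
      · exact h1
      · exact absurd h.symm (aux j i h1 (mem_range.1 (mem_coe.1 hi)))
    · intro y hy
      obtain ⟨i, hi, rfl⟩ := mem_image.1 hy
      have hi' := mem_range.1 hi
      have h1 : x.val / t ≤ n / t := Nat.div_le_div_right (ZMod.val_lt x).le
      have h2 := Nat.div_add_mod x.val t
      have h3 := Nat.mod_lt x.val ht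
      have h4 : (i + 1) * t ≤ K * t := Nat.mul_le_mul_right t hi'
      have h5 : (x.val / t + 1 + i) * t = t * (x.val / t) + (i + 1) * t := by ring
      have h6 : t ≤ (i + 1) * t := Nat.le_mul_of_pos_left t (by omega)
      refine ⟨mem_union_right _ (mem_image.2 ⟨_, mem_range.2 (by omega), rfl⟩),
        mem_union_left _ (mem_image.2 ⟨(x.val / t + 1 + i) * t - x.val, mem_range.2 (by omega), ?_⟩)⟩
      rw [Nat.cast_sub (by omega), ZMod.natCast_zmod_val]

theorem desc_le (x m g : ℕ) (h : m ≤ x) :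
    (x + g).descFactorial m ≤ (x + g) ^ g * x.descFactorial m := by
  induction g with
  | zero => simp
  | succ g ih =>
    have h1 := Nat.succ_descFactorial (x + g) m
    have h2 : (x + g + 1).descFactorial m ≤ (x + g + 1 - m) * (x + g + 1).descFactorial m :=
      Nat.le_mul_of_pos_left _ (by omega)
    have h3 : (x + g) ^ g ≤ (x + g + 1) ^ g := Nat.pow_le_pow_left (by omega) g
    calc (x + g + 1).descFactorial m ≤ (x + g + 1) * (x + g).descFactorial m := h1 ▸ h2
      _ ≤ (x + g + 1) * ((x + g + 1) ^ g * x.descFactorial m) :=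
        Nat.mul_le_mul_left _ (ih.trans (Nat.mul_le_mul_right _ h3))
      _ = _ := by rw [← add_assoc, pow_succ]; ring

theorem desc_ge (m j : ℕ) (h : 0 < m + j) :
    ((m + j : ℕ) : ℝ) ^ m * Real.exp (-(m + j : ℕ)) ≤ (m + j).descFactorial m := by
  have h1 := Nat.factorial_mul_descFactorial (show m ≤ m + j by omega)
  rw [Nat.add_sub_cancel_left] at h1
  have h2 : j.factorial ≤ (m + j) ^ j :=
    (Nat.factorial_le_pow j).trans (Nat.pow_le_pow_left (by omega) j)
  have h3 := Real.pow_div_factorial_le_exp ((m + j : ℕ) : ℝ) (Nat.cast_nonneg _) (m + j)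
  rw [div_le_iff₀ (by positivity), ← h1, pow_add] at h3
  have h4 : (((j.factorial * (m + j).descFactorial m : ℕ)) : ℝ) ≤
      ((m + j : ℕ) : ℝ) ^ j * (m + j).descFactorial m := by
    exact_mod_cast Nat.mul_le_mul_right _ h2
  have h5 : (0 : ℝ) < ((m + j : ℕ) : ℝ) ^ j := by positivity
  have h6 := h3.trans (mul_le_mul_of_nonneg_left h4 (Real.exp_pos _).le)
  rw [Real.exp_neg, ← div_eq_mul_inv, div_le_iff₀ (Real.exp_pos _)]
  refine le_of_mul_le_mul_right (h6.trans (le_of_eq ?_)) h5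
  ring

theorem cast_desc (x m : ℕ) (h : m ≤ x) :
    (x.descFactorial m : ℝ) = ∏ i ∈ range m, ((x : ℝ) - i) := by
  rw [Nat.descFactorial_eq_prod_range, Nat.cast_prod]
  exact prod_congr rfl (fun i hi => Nat.cast_sub (by have := mem_range.1 hi; omega))

theorem prod_lower (m j g N : ℕ) (h0 : 0 < m + j) (hN : 3 * (m + j) ≤ N) {b : ℝ} (hb : 0 ≤ b) :
    (b * (3 * (m + j : ℕ) / N) ^ 2) ^ m * Real.exp (-(2 * (m + j : ℕ))) / (m + j + g : ℕ) ^ g ≤
      ∏ i ∈ range m, (b * ((N : ℝ) - 3 * i) ^ 3 / (3 * (N : ℝ) ^ 2) / ((m + j + g : ℕ) - i)) := by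
  set x := m + j with hx
  have hN' : 3 * (x : ℝ) ≤ N := by exact_mod_cast hN
  have hx0 : (0 : ℝ) < x := by exact_mod_cast h0
  have hN0 : (0 : ℝ) < N := by linarith
  have h1 : ∏ i ∈ range m, (9 * b / (N : ℝ) ^ 2 * (((x : ℝ) - i) ^ 3 / ((x + g : ℕ) - i))) ≤
      ∏ i ∈ range m, (b * ((N : ℝ) - 3 * i) ^ 3 / (3 * (N : ℝ) ^ 2) / ((x + g : ℕ) - i)) := by
    have a : ∀ i ∈ range m, 0 ≤ (x : ℝ) - i ∧ 0 ≤ ((x + g : ℕ) : ℝ) - i := by
      intro i hi
      have := mem_range.1 hi
      exact ⟨sub_nonneg.2 (by exact_mod_cast (by omega)),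
        sub_nonneg.2 (by exact_mod_cast (by omega))⟩
    refine prod_le_prod (fun i hi => ?_) (fun i hi => ?_)
    · have := a i hi
      exact mul_nonneg (by positivity) (div_nonneg (pow_nonneg this.1 3) this.2)
    · rw [← mul_div_assoc]
      refine div_le_div_of_nonneg_right ?_ (a i hi).2
      have c : (3 * ((x : ℝ) - i)) ^ 3 ≤ ((N : ℝ) - 3 * i) ^ 3 :=
        pow_le_pow_left₀ (by linarith [(a i hi).1]) (by linarith) 3
      refine le_trans (le_of_eq ?_)
        (div_le_div_of_nonneg_right (mul_le_mul_of_nonneg_left c hb) (by positivity))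
      field_simp; ring
  refine le_trans ?_ h1
  rw [prod_mul_distrib, prod_const, card_range, prod_div_distrib, prod_pow,
    ← cast_desc x m (by omega), ← cast_desc (x + g) m (by omega)]
  have h2 : ((x + g).descFactorial m : ℝ) ≤ ((x + g : ℕ) : ℝ) ^ g * x.descFactorial m := by
    exact_mod_cast desc_le x m g (by omega)
  have h3 := desc_ge m j h0
  rw [← hx] at h3
  have h4 : (0 : ℝ) < (x + g).descFactorial m := by
    exact_mod_cast Nat.descFactorial_pos.2 (by omega)
  have h5 : (0 : ℝ) < x.descFactorial m := by exact_mod_cast Nat.descFactorial_pos.2 (by omega)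
  have h6 : (0 : ℝ) < ((x + g : ℕ) : ℝ) ^ g := by
    have : 0 < x + g := by omega
    positivity
  have h7 : ((x : ℝ) ^ m * Real.exp (-x)) ^ 2 / ((x + g : ℕ) : ℝ) ^ g ≤
      (x.descFactorial m : ℝ) ^ 3 / (x + g).descFactorial m := by
    refine le_trans (div_le_div_of_nonneg_right (pow_le_pow_left₀ (by positivity) h3 2) h6.le) ?_
    refine le_trans (le_of_eq ?_) (div_le_div_of_nonneg_left (by positivity) h4 h2)
    field_simp
  refine le_trans (le_of_eq ?_) (mul_le_mul_of_nonneg_left h7 (by positivity))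
  rw [mul_pow ((x : ℝ) ^ m), ← Real.exp_nat_mul, ← pow_mul, mul_comm m 2, pow_mul,
    ← mul_div_assoc, ← mul_assoc, ← mul_pow]
  congr 3
  · field_simp; ring
  · push_cast; ring

theorem lower_core (n : ℕ) [NeZero n] (hn : n % 6 = 1 ∨ n % 6 = 3)
    (A : Finset (Finset (ZMod n))) (hA : A ⊆ VV (ZMod n)) (j : ℕ) (hj : 0 < j)
    (habs : ∀ L ⊆ VV (ZMod n) \ A, 2 * #L ≤ 6 * j + 4 → 3 ∣ #L + #A → HasPM (L ∪ A))
    {N δ η : ℝ} (hN : N = #(VV (ZMod n) \ A)) (hjN : 3 * j ≤ N) (hσ : 180 * (#A + 3) + 8 ≤ N)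
    (hδ : δ ≤ 1 / 2) (h48 : 48 ≤ η) (h6 : η ≤ 6 * N) (hη : η ≤ δ * N * (3 * j / N) ^ 17)
    (hexp : 4 * N ≤ Real.exp (η ^ 2 / (72 * N))) :
    ∃ m g : ℕ, 3 * (m + j + g) = #(VV (ZMod n)) ∧ 3 * g ≤ #A + 2 ∧ N ≤ 3 * (m + j : ℕ) + 2 ∧
      1 / 2 * (((1 - δ) * (2 * N / (1 + 180 * (#A + 3) / N)) * (3 * (m + j : ℕ) / N) ^ 2) ^ m *
        Real.exp (-(2 * (m + j : ℕ))) / (m + j + g : ℕ) ^ g) ≤
      #(PMs (EE (ZMod n)) supp (VV (ZMod n))) := by
  obtain ⟨⟨hf, hh⟩, h3, ⟨k, hk⟩, -, hV2⟩ := zmod_facts n hn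
  set V := VV (ZMod n) \ A with hV
  have hcV : #V + #A = 3 * k := by
    rw [hV, card_sdiff_of_subset hA, ← hk]; exact Nat.sub_add_cancel (card_le_card hA)
  subst hN
  have hjN' : 3 * j ≤ #V := by exact_mod_cast hjN
  obtain ⟨m, hm⟩ : ∃ m, m + j = #V / 3 := ⟨#V / 3 - j, by omega⟩
  obtain ⟨g, hg⟩ : ∃ g, m + j + g = k := ⟨k - (m + j), by omega⟩
  have hA0 : (0 : ℝ) ≤ #A := Nat.cast_nonneg _
  have hN0 : (0 : ℝ) < #V := by linarith
  have hj0 : (0 : ℝ) < j := by exact_mod_cast hj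
  refine ⟨m, g, by omega, by omega, by exact_mod_cast (by omega), ?_⟩
  have T := tri_EE V
  obtain ⟨w, hw, hdeg⟩ := T.weights (σ := 30 * (#A + 3)) (by positivity) (by linarith)
    (fun v hv => by
      have a := deg_ge hf hh h3 A hv
      rw [ZMod.card] at a
      have b : 2 * #V ≤ #(((EE (ZMod n)).filter (fun h => supp h ⊆ V)).filter
        (fun h => v ∈ supp h)) + 30 * (#A + 3) := le_trans (by omega) a
      have c : (2 * #V : ℝ) ≤ #(((EE (ZMod n)).filter (fun h => supp h ⊆ V)).filter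
        (fun h => v ∈ supp h)) + 30 * (#A + 3) := by exact_mod_cast b
      linarith)
  rw [show 6 * (30 * ((#A : ℝ) + 3)) = 180 * (#A + 3) by ring] at hdeg
  set D := 2 * (#V : ℝ) / (1 + 180 * (#A + 3) / #V) with hD
  have hτ0 : (0 : ℝ) ≤ 180 * (#A + 3) / #V := by positivity
  have hτ1 : (180 * (#A + 3) / #V : ℝ) ≤ 1 := (div_le_one hN0).2 (by linarith)
  have hD1 : (#V : ℝ) ≤ D := by rw [hD, le_div_iff₀ (by linarith)]; nlinarith
  have hD2 : D ≤ 4 * #V := by rw [hD, div_le_iff₀ (by linarith)]; nlinarith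
  have hδ0 : 0 ≤ δ := by
    by_contra hh
    have := mul_neg_of_neg_of_pos (mul_neg_of_neg_of_pos (not_le.1 hh) hN0)
      (show (0 : ℝ) < (3 * j / #V) ^ 17 by positivity)
    linarith
  have hdis : ∀ U ⊆ V, Disjoint U A := fun U hU => disjoint_sdiff.symm.mono_left hU
  have G := T.greedy hw hdeg m (η0 := η) (δ := δ) (p := 3 * j / #V) hN0 (by positivity)
    (by
      rw [div_mul_cancel₀ _ hN0.ne']
      have : ((3 * j + 3 * m : ℕ) : ℝ) ≤ #V := by exact_mod_cast (by omega)
      push_cast at this; linarith)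
    hδ h48 h6 (by linarith) hD2
    (hη.trans (mul_le_mul_of_nonneg_right (mul_le_mul_of_nonneg_left hD1 hδ0) (by positivity)))
    hexp (fun U => #(PMs (EE (ZMod n)) supp (U ∪ A))) (fun i => (m + j + g : ℕ) - i)
    (fun _ => Nat.cast_nonneg _) (fun i hi => sub_pos.2 (by exact_mod_cast (by omega)))
    (fun i hi U hU hc => by
      have a := sum_PMs_le EE_three (U ∪ A)
        (((EE (ZMod n)).filter (fun h => supp h ⊆ V)).filter (fun e => supp e ⊆ U))
        (fun e he => ⟨(mem_filter.1 (mem_filter.1 he).1).1,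
          (mem_filter.1 he).2.trans subset_union_left⟩)
      rw [sum_congr rfl (g := fun e => #(PMs (EE (ZMod n)) supp (U \ supp e ∪ A))) (fun e he => by
        rw [union_sdiff_distrib, sdiff_eq_self_of_disjoint
          ((hdis U hU).symm.mono_right (mem_filter.1 he).2)]),
        card_union_of_disjoint (hdis U hU), show #U + #A = 3 * (m + j + g - i) by omega,
        mul_assoc] at a
      rw [← Nat.cast_sub (by omega)]
      exact_mod_cast Nat.le_of_mul_le_mul_left a (by norm_num))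
    (fun U hU hc => by
      obtain ⟨M, hM⟩ := habs U hU (by omega) (by omega)
      exact_mod_cast card_pos.2 ⟨M, mem_PMs.2 hM⟩)
  rw [hV, sdiff_union_of_subset hA, ← hV] at G
  refine le_trans (mul_le_mul_of_nonneg_left (prod_lower m j g #V (by omega) (by omega)
    (mul_nonneg (by linarith) (by linarith))) (by norm_num)) G

end CSTS
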