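import Mathlib
import Pool.Agent.P.MP_72c5f4_co.A.Hyp

namespace CSTS
open Finset

variable {α β : Type} [DecidableEq α] [DecidableEq β]

/-- Edges at `v` inside `W` that miss every edge of `M` having a vertex of level below `v`. -/
def avail (E : Finset β) (s : β → Finset α) (W : Finset α) (M : Finset β) (l : α → ℕ) (v : α) :
    Finset β :=
  E.filter (fun f => (s f ⊆ W ∧ v ∈ s f) ∧
    ∀ g ∈ M, ¬ Disjoint (s f) (s g) → ∀ u ∈ s g, l v ≤ l u)

variable {E : Finset β} {s : β → Finset α}

theorem log_card_mono {A B : Finset β} (h : A ⊆ B) : Real.log #A ≤ Real.log #B := by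
  rcases Nat.eq_zero_or_pos #A with h0 | h0
  · rw [h0]; simpa using Real.log_natCast_nonneg _
  · exact Real.log_le_log (by exact_mod_cast h0) (by exact_mod_cast card_le_card h)

theorem kraft (h3 : ∀ e ∈ E, #(s e) = 3) (l : α → ℕ) (n : ℕ) : ∀ W : Finset α, #W ≤ n →
    ∑ M ∈ PMs E s W, Real.exp (-∑ v ∈ W, Real.log #(avail E s W M l v)) ≤ 1 := by
  have base : ∑ M ∈ PMs E s ∅, Real.exp (-∑ v ∈ ∅, Real.log #(avail E s ∅ M l v)) ≤ 1 := by
    simp only [sum_empty, neg_zero, Real.exp_zero, sum_const, nsmul_eq_mul, mul_one]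
    have : PMs E s ∅ ⊆ {∅} := by
      intro M hM
      have := (mem_PMs.1 hM).card h3
      rw [mem_singleton, ← card_eq_zero]
      simp only [card_empty] at this
      omega
    exact_mod_cast card_le_card this
  induction n with
  | zero =>
    intro W hW
    rw [card_eq_zero.1 (Nat.le_zero.1 hW)]
    exact base
  | succ n ih =>
    intro W hW
    rcases W.eq_empty_or_nonempty with rfl | hne
    · exact base
    obtain ⟨v0, hv0, hmin⟩ := exists_min_image W l hne
    set A := E.filter (fun f => s f ⊆ W ∧ v0 ∈ s f) with hA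
    set φ : Finset α → Finset β → ℝ :=
      fun W M => Real.exp (-∑ v ∈ W, Real.log #(avail E s W M l v)) with hφ
    have hφ0 : ∀ W M, 0 ≤ φ W M := fun _ _ => (Real.exp_pos _).le
    change ∑ M ∈ PMs E s W, φ W M ≤ 1
    have h1 : ∑ M ∈ PMs E s W, φ W M ≤
        ∑ e ∈ A, ∑ M ∈ (PMs E s W).filter (fun M => e ∈ M), φ W M := by
      simp only [sum_filter (p := fun M => _ ∈ M)]
      rw [sum_comm]
      refine sum_le_sum (fun M hM => ?_)
      have hM' := mem_PMs.1 hM
      obtain ⟨e, he, hve⟩ := hM'.cov v0 hv0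
      have := single_le_sum (f := fun e => if e ∈ M then φ W M else 0) (s := A)
        (fun e _ => by split_ifs; exacts [hφ0 _ _, le_rfl])
        (mem_filter.2 ⟨hM'.sub he, hM'.ins e he, hve⟩)
      simpa [he] using this
    refine h1.trans ?_
    have h2 : ∀ e ∈ A, ∑ M ∈ (PMs E s W).filter (fun M => e ∈ M), φ W M ≤ 1 / (#A : ℝ) := by
      intro e he
      obtain ⟨heE, heW, hve⟩ := mem_filter.1 he
      have hApos : (0 : ℝ) < #A := by exact_mod_cast card_pos.2 ⟨e, he⟩
      have a : ∀ M ∈ (PMs E s W).filter (fun M => e ∈ M),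
          φ W M ≤ 1 / (#A : ℝ) * φ (W \ s e) (M.erase e) := by
        intro M hM
        obtain ⟨hM, heM⟩ := mem_filter.1 hM
        have hM' := mem_PMs.1 hM
        have b1 : avail E s W M l v0 = A := by
          refine filter_congr (fun f _ => ⟨fun hh => hh.1, fun hh => ⟨hh, ?_⟩⟩)
          intro g hg _ u hu
          exact hmin u (hM'.ins g hg hu)
        have b2 : ∀ v ∈ W \ s e, Real.log #(avail E s (W \ s e) (M.erase e) l v) ≤
            Real.log #(avail E s W M l v) := by
          intro v _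
          refine log_card_mono (fun f hf => ?_)
          obtain ⟨hfE, ⟨hf1, hf2⟩, hf3⟩ := mem_filter.1 hf
          obtain ⟨hf4, hf5⟩ := subset_sdiff.1 hf1
          refine mem_filter.2 ⟨hfE, ⟨hf4, hf2⟩, fun g hg hd => ?_⟩
          exact hf3 g (mem_erase.2 ⟨fun hh => hd (hh ▸ hf5), hg⟩) hd
        have b3 : Real.log #(avail E s W M l v0) ≤ ∑ v ∈ s e, Real.log #(avail E s W M l v) :=
          single_le_sum (f := fun v => Real.log #(avail E s W M l v))
            (fun _ _ => Real.log_natCast_nonneg _) hve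
        have b4 := sum_sdiff (f := fun v => Real.log #(avail E s W M l v)) heW
        have b5 := sum_le_sum b2
        rw [b1] at b3
        simp only [hφ]
        rw [one_div, ← Real.exp_log hApos, ← Real.exp_neg, ← Real.exp_add]
        exact Real.exp_le_exp.2 (by linarith)
      refine (sum_le_sum a).trans ?_
      rw [← mul_sum]
      refine mul_le_of_le_one_right (by positivity) ?_
      have hinj : Set.InjOn (fun M : Finset β => M.erase e)
          ((PMs E s W).filter (fun M => e ∈ M)) := by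
        intro M hM M' hM' hh
        have c1 := (mem_filter.1 (mem_coe.1 hM)).2
        have c2 := (mem_filter.1 (mem_coe.1 hM')).2
        rw [← insert_erase c1, ← insert_erase c2]
        exact congrArg (insert e) hh
      rw [← sum_image (f := fun M => φ (W \ s e) M) hinj]
      refine le_trans (sum_le_sum_of_subset_of_nonneg ?_ (fun _ _ _ => hφ0 _ _))
        (ih (W \ s e) ?_)
      · intro M' hM'
        obtain ⟨M, hM, rfl⟩ := mem_image.1 hM'
        obtain ⟨hM, heM⟩ := mem_filter.1 hM
        exact mem_PMs.2 ((mem_PMs.1 hM).erase heM)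
      · rw [card_sdiff_of_subset heW, h3 e heE]
        have := card_pos.2 hne
        omega
    refine (sum_le_sum h2).trans ?_
    rw [sum_const, nsmul_eq_mul, mul_one_div]
    exact div_self_le_one _

theorem prob [Fintype α] {T : ℕ} (hT : 0 < T) (v : α) (S : Finset α) (hv : v ∉ S)
    (h : ℕ → ℝ) :
    ∑ l : α → Fin T, (if ∀ u ∈ S, (l v : ℕ) ≤ l u then h (l v) else 0) =
      (T : ℝ) ^ Fintype.card α / T * ∑ t ∈ range T, h t * (((T : ℝ) - t) / T) ^ #S := by
  have hT' : (T : ℝ) ≠ 0 := by exact_mod_cast hT.ne'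
  have one : ∀ t : Fin T, ∑ l : α → Fin T,
      (if l v = t ∧ ∀ u ∈ S, (t : ℕ) ≤ l u then (1 : ℝ) else 0) =
      (T : ℝ) ^ Fintype.card α / T * (((T : ℝ) - (t : ℕ)) / T) ^ #S := by
    intro t
    let φ : α → Fin T → ℝ := fun u j =>
      if u = v then (if j = t then 1 else 0) else if u ∈ S then (if t ≤ j then 1 else 0) else 1
    have a : ∀ l : α → Fin T, (if l v = t ∧ ∀ u ∈ S, (t : ℕ) ≤ l u then (1 : ℝ) else 0) =
        ∏ u, φ u (l u) := by
      intro l
      split_ifs with hh
      · refine (prod_eq_one (fun u _ => ?_)).symm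
        simp only [φ]
        split_ifs with h1 h2 h3 h4
        · rfl
        · exact absurd (h1 ▸ hh.1) h2
        · rfl
        · exact absurd (hh.2 u h3) h4
        · rfl
      · by_cases h1 : l v = t
        · have : ¬ ∀ u ∈ S, (t : ℕ) ≤ l u := fun h2 => hh ⟨h1, h2⟩
          push Not at this
          obtain ⟨u, hu, hlt⟩ := this
          refine (prod_eq_zero (mem_univ u) ?_).symm
          have h2 : u ≠ v := fun h2 => hv (h2 ▸ hu)
          have h3 : ¬ t ≤ l u := not_le.2 hlt
          simp [φ, h2, hu, h3]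
        · exact (prod_eq_zero (mem_univ v) (by simp [φ, h1])).symm
    rw [sum_congr rfl (fun l _ => a l), ← Fintype.piFinset_univ, ← prod_univ_sum]
    have b : ∀ u, ∑ j, φ u j = T * ((if u = v then 1 / (T : ℝ) else 1) *
        (if u ∈ S then ((T : ℝ) - (t : ℕ)) / T else 1)) := by
      intro u
      simp only [φ]
      by_cases h1 : u = v
      · subst h1; simp [hv, hT']
      · by_cases h2 : u ∈ S
        · simp only [h1, h2, if_true, if_false, sum_boole, one_mul]
          rw [filter_le_eq_Ici, Fin.card_Ici, Nat.cast_sub t.2.le]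
          field_simp
        · simp [h1, h2]
    rw [prod_congr rfl (fun u _ => b u), prod_mul_distrib, prod_mul_distrib, prod_const,
      prod_ite_eq', prod_ite_mem, univ_inter, prod_const]
    simp only [mem_univ, if_true, card_univ]
    ring
  have two : ∀ l : α → Fin T, (if ∀ u ∈ S, (l v : ℕ) ≤ l u then h (l v) else 0) =
      ∑ t : Fin T, h t * (if l v = t ∧ ∀ u ∈ S, (t : ℕ) ≤ l u then (1 : ℝ) else 0) := by
    intro l
    rw [sum_eq_single (l v) (fun t _ ht => by simp [ht.symm]) (by simp)]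
    simp
  rw [sum_congr rfl (fun l _ => two l), sum_comm]
  simp only [← mul_sum, one]
  rw [mul_sum, ← Fin.sum_univ_eq_sum_range
    (fun t => (T : ℝ) ^ Fintype.card α / T * (h t * (((T : ℝ) - t) / T) ^ #S))]
  exact sum_congr rfl (fun t _ => by ring)

theorem sum_sq_log (T : ℕ) :
    ∑ j ∈ range T, ((j : ℝ) + 1) ^ 2 = (T : ℝ) * (T + 1) * (2 * T + 1) / 6 ∧
      ∑ j ∈ range T, ((j : ℝ) + 1) ^ 2 * Real.log (j + 1) ≤
        T * (T + 1) * (2 * T + 1) / 6 * Real.log T - T ^ 3 / 9 + T ^ 2 := by
  induction T with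
  | zero => simp
  | succ T ih =>
    obtain ⟨h1, h2⟩ := ih
    rw [sum_range_succ, sum_range_succ, h1]
    push_cast
    refine ⟨by ring, ?_⟩
    have hT : (0 : ℝ) ≤ T := Nat.cast_nonneg _
    have a : T * (T + 1) * (2 * T + 1) / 6 * Real.log T + T * (2 * T + 1) / 6 ≤
        T * (T + 1) * (2 * T + 1) / 6 * Real.log (T + 1) := by
      rcases hT.eq_or_lt with h0 | h0
      · rw [← h0]; simp
      · have b := Real.log_le_sub_one_of_pos (show 0 < (T : ℝ) / (T + 1) by positivity)
        rw [Real.log_div h0.ne' (by positivity)] at b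
        have c := mul_le_mul_of_nonneg_left b
          (show (0 : ℝ) ≤ T * (T + 1) * (2 * T + 1) / 6 by positivity)
        have d : (T : ℝ) * (T + 1) * (2 * T + 1) / 6 * (T / (T + 1) - 1) =
            -(T * (2 * T + 1) / 6) := by field_simp; ring
        linarith
    nlinarith

theorem kappa {T : ℕ} (hT : 0 < T) {d : ℝ} (hd : 1 ≤ d) :
    1 / (T : ℝ) * ∑ t ∈ range T, Real.log (d * (((T : ℝ) - t) / T) ^ 6) * (((T : ℝ) - t) / T) ^ 2
      ≤ (Real.log d - 2) / 3 + (Real.log d + 6) / T := by
  have hT' : (1 : ℝ) ≤ T := by exact_mod_cast hT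
  have e1 : ∑ t ∈ range T, Real.log (d * (((T : ℝ) - t) / T) ^ 6) * (((T : ℝ) - t) / T) ^ 2 =
      ∑ j ∈ range T, (((j : ℝ) + 1) ^ 2 * ((Real.log d - 6 * Real.log T) / T ^ 2) +
        6 / T ^ 2 * (((j : ℝ) + 1) ^ 2 * Real.log (j + 1))) := by
    rw [← sum_range_reflect]
    refine sum_congr rfl (fun j hj => ?_)
    have hj' := mem_range.1 hj
    have : ((T - 1 - j : ℕ) : ℝ) = T - (j + 1) := by
      rw [Nat.sub_sub, Nat.cast_sub (by omega)]; push_cast; ring
    rw [this, sub_sub_cancel, Real.log_mul (by positivity) (by positivity), Real.log_pow,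
      Real.log_div (by positivity) (by positivity)]
    push_cast
    field_simp
    ring
  obtain ⟨h1, h2⟩ := sum_sq_log T
  rw [e1, sum_add_distrib, ← sum_mul, ← mul_sum, h1]
  have h3 := mul_le_mul_of_nonneg_left h2 (show (0 : ℝ) ≤ 6 / T ^ 2 by positivity)
  have hl := Real.log_nonneg hd
  refine (mul_le_mul_of_nonneg_left (add_le_add le_rfl h3) (by positivity)).trans ?_
  have e2 : 1 / (T : ℝ) * (T * (T + 1) * (2 * T + 1) / 6 * ((Real.log d - 6 * Real.log T) / T ^ 2) +
      6 / T ^ 2 * (T * (T + 1) * (2 * T + 1) / 6 * Real.log T - T ^ 3 / 9 + T ^ 2)) =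
      (Real.log d - 2) / 3 + (Real.log d * (1 / 2 + 1 / (6 * T)) + 6) / T := by
    field_simp; ring
  rw [e2]
  have : 1 / (6 * (T : ℝ)) ≤ 1 / 2 := one_div_le_one_div_of_le (by norm_num) (by linarith)
  gcongr
  nlinarith

end CSTS
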