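import Mathlib
import Pool.Agent.P.MP_72c5f4_co.A.Kraft
import Pool.Agent.P.MP_72c5f4_co.A.Weights

namespace CSTS
open Finset

variable {α β : Type} [DecidableEq α] [DecidableEq β]
variable {V : Finset α} {E : Finset β} {s : β → Finset α}

/-- Vertices of the edges of `M` that meet `f`. -/
def nb (s : β → Finset α) (M : Finset β) (f : β) : Finset α :=
  (M.filter (fun g => ¬ Disjoint (s f) (s g))).biUnion s

/-- Edges having two vertices in one edge of `M`. -/
def bad (E : Finset β) (s : β → Finset α) (M : Finset β) : Finset β :=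
  E.filter (fun f => ∃ g ∈ M, 2 ≤ #(s f ∩ s g))

theorem mem_avail {W : Finset α} {M : Finset β} {l : α → ℕ} {v : α} {f : β} :
    f ∈ avail E s W M l v ↔ f ∈ E ∧ (s f ⊆ W ∧ v ∈ s f) ∧
      ∀ g ∈ M, ¬ Disjoint (s f) (s g) → ∀ u ∈ s g, l v ≤ l u := mem_filter

theorem nb_card {W : Finset α} {M : Finset β} (h3 : ∀ e ∈ E, #(s e) = 3) (hM : IsPM E s W M)
    {f : β} (hf : f ∈ E) (hfW : s f ⊆ W) (hb : f ∉ bad E s M) : 9 ≤ #(nb s M f) := by
  have h1 : ∀ g ∈ M, #(s f ∩ s g) ≤ 1 := by
    intro g hg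
    by_contra hh
    exact hb (mem_filter.2 ⟨hf, g, hg, by omega⟩)
  have h2 : s f ⊆ (M.filter (fun g => ¬ Disjoint (s f) (s g))).biUnion (fun g => s f ∩ s g) := by
    intro u hu
    obtain ⟨g, hg, hug⟩ := hM.cov u (hfW hu)
    exact mem_biUnion.2 ⟨g, mem_filter.2 ⟨hg, not_disjoint_iff.2 ⟨u, hu, hug⟩⟩,
      mem_inter.2 ⟨hu, hug⟩⟩
  have h4 := (card_le_card h2).trans (card_biUnion_le_card_mul _ _ 1
    (fun g hg => h1 g (mem_filter.1 hg).1))
  rw [h3 f hf] at h4
  unfold nb
  rw [card_biUnion, sum_congr rfl (fun g hg => h3 g (hM.sub (mem_filter.1 hg).1))]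
  · simp only [sum_const, smul_eq_mul]; omega
  · intro a ha b hb hab
    exact disjoint_left.2 (fun v h1 h2 => hab (hM.dis a (mem_filter.1 (mem_coe.1 ha)).1 b
      (mem_filter.1 (mem_coe.1 hb)).1 v h1 h2))

theorem Tri.bad_card (h : Tri V E s) {W : Finset α} {M : Finset β} (hM : IsPM E s W M) :
    ∑ v ∈ W, #((bad E s M).filter (fun f => v ∈ s f)) ≤ 24 * #W := by
  have h1 : bad E s M ⊆ M.biUnion (fun g => (s g).offDiag.biUnion
      (fun p => E.filter (fun f => p.1 ∈ s f ∧ p.2 ∈ s f))) := by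
    intro f hf
    obtain ⟨hfE, g, hg, h2⟩ := mem_filter.1 hf
    obtain ⟨a, ha, b, hb, hab⟩ := one_lt_card.1 (show 1 < #(s f ∩ s g) by omega)
    exact mem_biUnion.2 ⟨g, hg, mem_biUnion.2 ⟨(a, b),
      mem_offDiag.2 ⟨(mem_inter.1 ha).2, (mem_inter.1 hb).2, hab⟩,
      mem_filter.2 ⟨hfE, (mem_inter.1 ha).1, (mem_inter.1 hb).1⟩⟩⟩
  have h2 := (card_le_card h1).trans (card_biUnion_le_card_mul _ _ 24 (fun g hg => by
    refine (card_biUnion_le_card_mul _ _ 4
      (fun p hp => h.codeg p.2 p.1 (mem_offDiag.1 hp).2.2.symm)).trans ?_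
    rw [offDiag_card, h.three g (hM.sub hg)]))
  have h3 : ∑ v ∈ W, #((bad E s M).filter (fun f => v ∈ s f)) ≤ 3 * #(bad E s M) := by
    simp only [card_filter]
    rw [sum_comm, mul_comm, ← smul_eq_mul, ← sum_const]
    refine sum_le_sum (fun f hf => ?_)
    rw [← card_filter, filter_mem_eq_inter, ← h.three f (mem_filter.1 hf).1]
    exact card_le_card inter_subset_right
  have := hM.card h.three
  omega

theorem expect_one [Fintype α] {W : Finset α} {M : Finset β} (h3 : ∀ e ∈ E, #(s e) = 3)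
    (hM : IsPM E s W M) {T : ℕ} (hT : 0 < T) {d : ℝ} (hd : 1 ≤ d) {v : α} (hv : v ∈ W)
    (hdeg : (#(E.filter (fun e => v ∈ s e)) : ℝ) ≤ d) :
    ∑ l : α → Fin T, Real.log #(avail E s W M (fun u => l u) v) ≤
      (T : ℝ) ^ Fintype.card α * ((Real.log d - 2) / 3 + (Real.log d + 6) / T +
        #((bad E s M).filter (fun f => v ∈ s f)) * (T ^ 6 / d)) := by
  obtain ⟨g0, hg0, hvg⟩ := hM.cov v hv
  have hT' : (1 : ℝ) ≤ T := by exact_mod_cast hT
  set x : ℕ → ℝ := fun t => ((T : ℝ) - t) / T with hx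
  set a : ℕ → ℝ := fun t => d * x t ^ 6 with ha
  set A := E.filter (fun f => s f ⊆ W ∧ v ∈ s f) with hA
  have hx1 : ∀ t < T, 1 / (T : ℝ) ≤ x t ∧ x t ≤ 1 := by
    intro t ht
    have : (t : ℝ) + 1 ≤ T := by exact_mod_cast ht
    have h0 : (0 : ℝ) ≤ t := Nat.cast_nonneg _
    exact ⟨div_le_div_of_nonneg_right (by linarith) (by linarith),
      (div_le_one (by linarith)).2 (by linarith)⟩
  have hx0 : ∀ t < T, 0 < x t := fun t ht => lt_of_lt_of_le (by positivity) (hx1 t ht).1
  have ha0 : ∀ t < T, 0 < a t := fun t ht => mul_pos (by linarith) (pow_pos (hx0 t ht) 6)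
  have h1 : ∀ l : α → Fin T, Real.log #(avail E s W M (fun u => l u) v) ≤
      (if ∀ u ∈ (s g0).erase v, (l v : ℕ) ≤ l u then Real.log (a (l v)) - 1 else 0) +
        ∑ f ∈ A, (if ∀ u ∈ (nb s M f).erase v, (l v : ℕ) ≤ l u then (a (l v))⁻¹ else 0) := by
    intro l
    have e1 : avail E s W M (fun u => l u) v =
        A.filter (fun f => ∀ u ∈ (nb s M f).erase v, (l v : ℕ) ≤ l u) := by
      ext f
      rw [mem_avail, mem_filter, hA, mem_filter, and_assoc (a := f ∈ E)]
      refine and_congr_right (fun _ => and_congr_right (fun _ => ⟨fun hh u hu => ?_, ?_⟩))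
      · obtain ⟨g, hg, hug⟩ := mem_biUnion.1 (mem_of_mem_erase hu)
        exact hh g (mem_filter.1 hg).1 (mem_filter.1 hg).2 u hug
      · intro hh g hg hd u hu
        by_cases huv : u = v
        · rw [huv]
        · exact hh u (mem_erase.2 ⟨huv, mem_biUnion.2 ⟨g, mem_filter.2 ⟨hg, hd⟩, hu⟩⟩)
    rw [← sum_filter, ← e1, sum_const, nsmul_eq_mul]
    have hpos := ha0 (l v) (l v).2
    split_ifs with hf
    · have hm : g0 ∈ avail E s W M (fun u => l u) v := by
        refine mem_avail.2 ⟨hM.sub hg0, ⟨hM.ins g0 hg0, hvg⟩, fun g hg hd u hu => ?_⟩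
        obtain ⟨z, hz1, hz2⟩ := not_disjoint_iff.1 hd
        rw [← hM.dis g0 hg0 g hg z hz1 hz2] at hu
        by_cases huv : u = v
        · rw [huv]
        · exact hf u (mem_erase.2 ⟨huv, hu⟩)
      have hc : (0 : ℝ) < #(avail E s W M (fun u => l u) v) := by
        exact_mod_cast card_pos.2 ⟨g0, hm⟩
      have := Real.log_le_sub_one_of_pos (div_pos hc hpos)
      rw [Real.log_div hc.ne' hpos.ne', div_eq_mul_inv] at this
      linarith
    · have : avail E s W M (fun u => l u) v = ∅ := by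
        refine eq_empty_of_forall_notMem (fun f hf' => hf (fun u hu => ?_))
        obtain ⟨-, ⟨-, hvf⟩, hh⟩ := mem_avail.1 hf'
        exact hh g0 hg0 (not_disjoint_iff.2 ⟨v, hvf, hvg⟩) u (mem_of_mem_erase hu)
      rw [this]; simp
  refine (sum_le_sum (fun l _ => h1 l)).trans ?_
  rw [sum_add_distrib, sum_comm, prob hT v _ (notMem_erase v _) (fun t => Real.log (a t) - 1),
    sum_congr rfl (fun f _ => prob hT v _ (notMem_erase v _) (fun t => (a t)⁻¹)),
    card_erase_of_mem hvg, h3 g0 (hM.sub hg0), ← mul_sum, ← mul_add, sum_comm, ← sum_add_distrib]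
  set b : ℝ := (#((bad E s M).filter (fun f => v ∈ s f)) : ℝ) with hb
  have hb0 : 0 ≤ b := Nat.cast_nonneg _
  have h2 : ∀ t ∈ range T, (Real.log (a t) - 1) * x t ^ (3 - 1) +
      ∑ f ∈ A, (a t)⁻¹ * x t ^ #((nb s M f).erase v) ≤
        Real.log (a t) * x t ^ 2 + b * (T ^ 6 / d) := by
    intro t ht
    have ht' := mem_range.1 ht
    have c0 := hx0 t ht'
    have c1 := hx1 t ht'
    have c2 := ha0 t ht'
    have c3 : ∑ f ∈ A, x t ^ #((nb s M f).erase v) ≤ d * x t ^ 8 + b := by
      have c4 : ∀ f ∈ A, x t ^ #((nb s M f).erase v) ≤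
          x t ^ 8 + if f ∈ bad E s M then 1 else 0 := by
        intro f hf
        obtain ⟨hfE, hfW, -⟩ := mem_filter.1 hf
        split_ifs with hh
        · have := pow_le_one₀ (n := #((nb s M f).erase v)) c0.le c1.2
          have := pow_pos c0 8
          linarith
        · have c5 := nb_card h3 hM hfE hfW hh
          have c6 := pred_card_le_card_erase (s := nb s M f) (a := v)
          rw [add_zero]
          exact pow_le_pow_of_le_one c0.le c1.2 (by omega)
      refine (sum_le_sum c4).trans ?_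
      rw [sum_add_distrib, sum_const, nsmul_eq_mul, sum_boole]
      refine add_le_add (mul_le_mul_of_nonneg_right (le_trans ?_ hdeg) (by positivity)) ?_
      · have : A ⊆ E.filter (fun e => v ∈ s e) := fun f hf =>
          mem_filter.2 ⟨(mem_filter.1 hf).1, (mem_filter.1 hf).2.2⟩
        exact_mod_cast card_le_card this
      · rw [hb]
        have : A.filter (fun f => f ∈ bad E s M) ⊆ (bad E s M).filter (fun f => v ∈ s f) :=
          fun f hf => mem_filter.2 ⟨(mem_filter.1 hf).2, (mem_filter.1 (mem_filter.1 hf).1).2.2⟩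
        exact_mod_cast card_le_card this
    rw [← mul_sum]
    have c7 := mul_le_mul_of_nonneg_left c3 (inv_pos.2 c2).le
    have c8 : (a t)⁻¹ * (d * x t ^ 8 + b) = x t ^ 2 + b * (a t)⁻¹ := by
      simp only [ha]; field_simp
    have c9 : (a t)⁻¹ ≤ T ^ 6 / d := by
      rw [← inv_div]
      refine inv_anti₀ (by positivity) ?_
      have := pow_le_pow_left₀ (by positivity) c1.1 6
      rw [div_pow, one_pow] at this
      rw [div_eq_mul_one_div]
      exact mul_le_mul_of_nonneg_left this (by linarith)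
    have := mul_le_mul_of_nonneg_left c9 hb0
    norm_num only
    linarith
  have h4 := sum_le_sum h2
  rw [sum_add_distrib (f := fun t => Real.log (a t) * x t ^ 2), sum_const, card_range,
    nsmul_eq_mul] at h4
  have h5 := kappa hT hd
  rw [div_eq_mul_one_div, mul_assoc]
  refine mul_le_mul_of_nonneg_left ((mul_le_mul_of_nonneg_left h4 (by positivity)).trans ?_)
    (by positivity)
  have : 1 / (T : ℝ) * (T * (b * (T ^ 6 / d))) = b * (T ^ 6 / d) := by field_simp
  rw [mul_add, this]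
  exact add_le_add h5 le_rfl

theorem Tri.upper [Fintype α] (h : Tri V E s) (W : Finset α) {T : ℕ} (hT : 0 < T) {d : ℝ}
    (hd : 1 ≤ d) (hdeg : ∀ v ∈ W, (#(E.filter (fun e => v ∈ s e)) : ℝ) ≤ d) :
    (#(PMs E s W) : ℝ) ≤
      Real.exp (#W * ((Real.log d - 2) / 3 + (Real.log d + 6) / T + 24 * (T ^ 6 / d))) := by
  set c := (#W : ℝ) * ((Real.log d - 2) / 3 + (Real.log d + 6) / T + 24 * (T ^ 6 / d)) with hc
  set Z := (T : ℝ) ^ Fintype.card α with hZ
  have hZ0 : 0 < Z := by positivity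
  set L : Finset β → (α → Fin T) → ℝ :=
    fun M l => ∑ v ∈ W, Real.log #(avail E s W M (fun u => l u) v) with hL
  have h1 : ∀ M ∈ PMs E s W, ∑ l, L M l ≤ Z * c := by
    intro M hM
    have hM' := mem_PMs.1 hM
    simp only [hL]
    rw [sum_comm]
    refine (sum_le_sum (fun v hv => expect_one h.three hM' hT hd hv (hdeg v hv))).trans ?_
    rw [← mul_sum, sum_add_distrib, sum_const, nsmul_eq_mul, ← sum_mul]
    refine mul_le_mul_of_nonneg_left ?_ hZ0.le
    have a : ∑ v ∈ W, (#((bad E s M).filter (fun f => v ∈ s f)) : ℝ) ≤ 24 * #W := by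
      exact_mod_cast h.bad_card hM'
    have := mul_le_mul_of_nonneg_right a (show (0 : ℝ) ≤ T ^ 6 / d by positivity)
    rw [hc]; linarith
  have h2 : ∑ l : α → Fin T, ∑ M ∈ PMs E s W, Real.exp (-L M l) ≤ Z := by
    refine (sum_le_sum (fun l _ => kraft h.three (fun u => l u) _ W le_rfl)).trans ?_
    simp [hZ]
  have h3 : ∀ M ∈ PMs E s W, Real.exp (-c) * Z ≤ ∑ l : α → Fin T, Real.exp (-L M l) := by
    intro M hM
    have a : ∀ l, Real.exp (-c) * (c - L M l + 1) ≤ Real.exp (-L M l) := by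
      intro l
      have := mul_le_mul_of_nonneg_left (Real.add_one_le_exp (c - L M l)) (Real.exp_pos (-c)).le
      rwa [← Real.exp_add, show -c + (c - L M l) = -L M l by ring] at this
    refine le_trans ?_ (sum_le_sum (fun l _ => a l))
    rw [← mul_sum]
    refine mul_le_mul_of_nonneg_left ?_ (Real.exp_pos _).le
    rw [sum_add_distrib, sum_sub_distrib]
    have := h1 M hM
    simp only [sum_const, card_univ, Fintype.card_fun, Fintype.card_fin, nsmul_eq_mul,
      Nat.cast_pow, mul_one]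
    linarith
  rw [sum_comm] at h2
  have h4 := (sum_le_sum h3).trans h2
  rw [sum_const, nsmul_eq_mul, ← mul_assoc, Real.exp_neg] at h4
  have h5 := le_of_mul_le_mul_right (h4.trans (le_of_eq (one_mul Z).symm)) hZ0
  rwa [← div_eq_mul_inv, div_le_one (Real.exp_pos _)] at h5

end CSTS
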