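import Mathlib
import Pool.Agent.P.MP_72c5f4_co.A.Lower
import Pool.Agent.P.MP_72c5f4_co.A.Upper

namespace CSTS
open Finset

theorem exists_absorber (n : ℕ) [NeZero n] (hn : n % 6 = 1 ∨ n % 6 = 3) {y : ℝ}
    (hy : y ^ 200 = n) (h1 : 1000 ≤ y) :
    ∃ A ⊆ VV (ZMod n), ∃ j : ℕ, (#A : ℝ) ≤ 1456 * y ^ 198 ∧ y ^ 196 / 2000 ≤ j ∧ j ≤ y ^ 198 ∧
      ∀ L ⊆ VV (ZMod n) \ A, 2 * #L ≤ 6 * j + 4 → 3 ∣ #L + #A → HasPM (L ∪ A) := by
  obtain ⟨⟨hf, hh⟩, h3, -⟩ := zmod_facts n hn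
  have y0 : 0 < y := by linarith
  have y1 : 1 ≤ y := by linarith
  have y2 : 1000000 ≤ y ^ 2 := by nlinarith
  obtain ⟨t, t1, t2⟩ : ∃ t : ℕ, y ^ 2 ≤ t ∧ (t : ℝ) ≤ 2 * y ^ 2 :=
    ⟨⌈y ^ 2⌉₊, Nat.le_ceil _, by linarith [Nat.ceil_lt_add_one (sq_nonneg y)]⟩
  have t0 : (0 : ℝ) < t := by linarith
  have t0' : 0 < t := by exact_mod_cast t0
  set K := n / (t * t) with hK
  have z1 : y ^ 198 = y ^ 196 * y ^ 2 := by ring
  have z2 : y ^ 200 = y ^ 198 * y ^ 2 := by ring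
  have z3 : y ^ 2 ≤ y ^ 196 := pow_le_pow_right₀ y1 (by norm_num)
  have z4 : y ^ 196 ≤ y ^ 198 := pow_le_pow_right₀ y1 (by norm_num)
  have a1 : (n : ℝ) / t ≤ y ^ 198 := by
    rw [div_le_iff₀ t0, ← hy, z2]; exact mul_le_mul_of_nonneg_left t1 (by positivity)
  have a2 : K * t ≤ n / t := by
    rw [Nat.le_div_iff_mul_le t0', mul_assoc]; exact Nat.div_mul_le_self _ _
  have a3 : ((n / t : ℕ) : ℝ) ≤ y ^ 198 := Nat.cast_div_le.trans a1
  have a4 : K ≤ K * t := Nat.le_mul_of_pos_right _ t0'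
  have a5 : y ^ 196 / 4 ≤ K + 1 := by
    have b1 : n < (K + 1) * (t * t) := by
      rw [mul_comm]; exact Nat.lt_mul_div_succ n (by positivity)
    have b2 : (n : ℝ) ≤ (K + 1) * (t * t) := by exact_mod_cast b1.le
    have b3 : (t : ℝ) * t ≤ 2 * y ^ 2 * (2 * y ^ 2) := mul_le_mul t2 t2 t0.le (by positivity)
    have b4 := b2.trans (mul_le_mul_of_nonneg_left b3 (by positivity))
    rw [← hy] at b4
    refine le_of_mul_le_mul_right (le_trans (le_of_eq ?_) b4)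
      (show 0 < 2 * y ^ 2 * (2 * y ^ 2) by positivity)
    ring
  set j := K / 200 with hj
  have a6 : (K : ℝ) ≤ 200 * j + 200 := by exact_mod_cast (show K ≤ 200 * j + 200 by omega)
  have a7 : y ^ 196 / 2000 ≤ j := by linarith
  have a8 : 2 ≤ j := by exact_mod_cast (show (2 : ℝ) ≤ j by linarith)
  obtain ⟨R, hR, hJ⟩ := res_zmod n t K t0' (a2.trans (Nat.div_le_self _ _))
  have a9 : (#(VV (ZMod n) ∩ R) : ℝ) ≤ 4 * y ^ 198 := by
    have b1 : #(VV (ZMod n) ∩ R) ≤ 3 * (n / t) + 2 :=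
      (card_le_card inter_subset_right).trans (by omega)
    have b2 : (#(VV (ZMod n) ∩ R) : ℝ) ≤ 3 * (n / t : ℕ) + 2 := by exact_mod_cast b1
    linarith
  have H := absHyp hf hh h3 (364 * #(VV (ZMod n) ∩ R)) (by
    rw [ZMod.card]
    have : (78 * (364 * #(VV (ZMod n) ∩ R) + 4) : ℝ) < n := by
      have := mul_le_mul_of_nonneg_left y2 (show 0 ≤ y ^ 198 by positivity)
      rw [← hy, z2]; linarith
    exact_mod_cast this)
  obtain ⟨A, hA, hc, habs⟩ := H.absorber inter_subset_left le_rfl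
    (reservoir hf hh h3 R (6 * j + 4) (fun x => by
      obtain ⟨J, h1, h2⟩ := hJ x
      exact ⟨J, by omega, h2⟩))
  refine ⟨A, hA, j, ?_, a7, ?_, habs⟩
  · have : (#A : ℝ) ≤ 364 * #(VV (ZMod n) ∩ R) := by exact_mod_cast hc
    linarith
  · exact le_trans (by exact_mod_cast (show j ≤ n / t by omega)) a3

theorem log_le_of_pow {n y : ℝ} (hy : y ^ 200 = n) (h1 : 1 ≤ y) :
    0 ≤ Real.log n ∧ Real.log n ≤ 200 * y := by
  rw [← hy, Real.log_pow]
  have a := Real.log_nonneg h1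
  have b := Real.log_le_sub_one_of_pos (show 0 < y by linarith)
  push_cast
  constructor <;> linarith

theorem num_a {y δ n N j : ℝ} (hy : y ^ 200 = n) (hδ0 : 0 < δ) (h1 : 1000000 ≤ δ * y)
    (y1 : 1000000 ≤ y) (N1 : n / 4 ≤ N) (N2 : N ≤ n / 2) (j1 : y ^ 196 / 2000 ≤ j) :
    y ^ 110 ≤ δ * N * (3 * j / N) ^ 17 ∧ 4 * N ≤ Real.exp ((y ^ 110) ^ 2 / (72 * N)) := by
  have y0 : 0 < y := by linarith
  have y1' : 1 ≤ y := by linarith
  have n0 : 0 < n := by rw [← hy]; positivity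
  have N0 : 0 < N := by linarith
  have p1 : ∀ a b : ℕ, a ≤ b → y ^ a ≤ y ^ b := fun a b h => pow_le_pow_right₀ y1' h
  constructor
  · have N3 : δ * n / 4 ≤ δ * N := by linarith [mul_le_mul_of_nonneg_left N1 hδ0.le]
    have b1 : 1 / y ^ 5 ≤ 3 * j / N := by
      rw [div_le_div_iff₀ (by positivity) N0]
      have d1 := mul_le_mul_of_nonneg_right j1 (show 0 ≤ y ^ 5 by positivity)
      have d2 := mul_le_mul_of_nonneg_right y1 (show 0 ≤ y ^ 200 by positivity)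
      have d3 : y ^ 196 / 2000 * y ^ 5 = y * y ^ 200 / 2000 := by ring
      linarith
    have b2 := pow_le_pow_left₀ (by positivity) b1 17
    refine le_trans ?_ (mul_le_mul N3 b2 (by positivity) (by positivity))
    have b3 : δ * n / 4 * (1 / y ^ 5) ^ 17 = δ * y / 4 * y ^ 114 := by
      rw [← hy]; field_simp
    rw [b3]
    exact (p1 110 114 (by norm_num)).trans
      (le_mul_of_one_le_left (by positivity) (by linarith))
  · obtain ⟨l0, l1⟩ := log_le_of_pow hy y1'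
    have b1 : y ^ 20 / 36 ≤ (y ^ 110) ^ 2 / (72 * N) := by
      rw [div_le_div_iff₀ (by norm_num) (by positivity)]
      have d1 := mul_le_mul_of_nonneg_left N2 (show 0 ≤ y ^ 20 by positivity)
      rw [← hy] at d1
      linarith [show y ^ 20 * (y ^ 200 / 2) = (y ^ 110) ^ 2 / 2 by ring]
    have b2 : 1000000 * y ≤ y ^ 20 :=
      le_trans (by rw [sq]; exact mul_le_mul_of_nonneg_right y1 y0.le) (p1 2 20 (by norm_num))
    have b3 : 2 * n ≤ Real.exp (1 + Real.log n) := by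
      rw [Real.exp_add, Real.exp_log n0]
      exact mul_le_mul_of_nonneg_right (by linarith [Real.add_one_le_exp 1]) n0.le
    exact le_trans (by linarith) (b3.trans (Real.exp_le_exp.2 (by linarith)))

theorem num_b {δ n N a x : ℝ} (hδ0 : 0 < δ) (hδ : δ ≤ 1 / 2) (n0 : 0 < n) (N0 : 0 < N)
    (a0 : 0 ≤ a) (h1 : 180 * (a + 3) ≤ δ * N) (h2 : (1 - δ) * n ≤ 2 * N) (h3 : N ≤ 3 * x + 2) :
    Real.exp (Real.log n - 10 * δ) ≤
      (1 - δ) * (2 * N / (1 + 180 * (a + 3) / N)) * (3 * x / N) ^ 2 := by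
  have b0 : 0 ≤ 1 - δ := by linarith
  have e1 : Real.exp (-(2 * δ)) ≤ 1 - δ := by
    rw [Real.exp_neg, inv_le_iff_one_le_mul₀ (Real.exp_pos _)]
    have := mul_le_mul_of_nonneg_left (Real.add_one_le_exp (2 * δ)) b0
    nlinarith
  have e2 : (1 - δ) * ((1 - δ) * n) ≤ 2 * N / (1 + 180 * (a + 3) / N) := by
    have b1 : 180 * (a + 3) / N ≤ δ := by rw [div_le_iff₀ N0]; linarith
    have b3 : (0 : ℝ) ≤ 180 * (a + 3) / N := by positivity
    rw [le_div_iff₀ (by linarith), mul_right_comm]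
    refine le_trans (mul_le_of_le_one_left (mul_nonneg b0 n0.le) ?_) h2
    nlinarith
  have e3 : 1 - δ ≤ 3 * x / N := by rw [le_div_iff₀ N0]; linarith
  have b1 : Real.exp (Real.log n - 10 * δ) = Real.exp (-(2 * δ)) ^ 5 * n := by
    rw [← Real.exp_nat_mul, sub_eq_add_neg, Real.exp_add, Real.exp_log n0, mul_comm]
    congr 2; push_cast; ring
  have b2 := mul_le_mul_of_nonneg_right (pow_le_pow_left₀ (Real.exp_pos _).le e1 5) n0.le
  exact b1.le.trans (b2.trans (le_trans (le_of_eq (by ring))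
    (mul_le_mul (mul_le_mul_of_nonneg_left e2 b0) (pow_le_pow_left₀ b0 e3 2) (by positivity)
      (by positivity))))

theorem num_c {δ n b P C : ℝ} {m j g : ℕ} (hδ0 : 0 < δ) (n2 : 2 ≤ n) (j0 : (0 : ℝ) < j)
    (hk : 6 * ((m : ℝ) + j + g) ≤ n) (l0 : 0 ≤ Real.log n)
    (hz : (n / 6 + 2 + g - m) * Real.log n ≤ δ * n) (e4 : Real.exp (Real.log n - 10 * δ) ≤ b)
    (c4 : 1 / 2 * (b ^ m * Real.exp (-(2 * (m + j : ℕ))) / (m + j + g : ℕ) ^ g) ≤ P)
    (e8 : P ≤ n * C) : Real.exp (n / 6 * (Real.log n - 2) - 3 * δ * n) ≤ C := by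
  have n0 : 0 < n := by linarith
  have m0 : (0 : ℝ) ≤ m := Nat.cast_nonneg _
  have g0 : (0 : ℝ) ≤ g := Nat.cast_nonneg _
  have e5 : ((m + j + g : ℕ) : ℝ) ^ g ≤ Real.exp (g * Real.log n) := by
    rw [Real.exp_nat_mul, Real.exp_log n0]
    exact pow_le_pow_left₀ (Nat.cast_nonneg _) (by push_cast; linarith) g
  have e6 : (0 : ℝ) < ((m + j + g : ℕ) : ℝ) ^ g := pow_pos (by push_cast; linarith) g
  have e7 := le_trans (mul_le_mul_of_nonneg_left (div_le_div₀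
    (mul_nonneg (pow_nonneg ((Real.exp_pos _).le.trans e4) m) (Real.exp_pos _).le)
    (mul_le_mul_of_nonneg_right (pow_le_pow_left₀ (Real.exp_pos _).le e4 m) (Real.exp_pos _).le)
    e6 e5) (by norm_num)) c4
  rw [← Real.exp_nat_mul, ← Real.exp_add, ← Real.exp_sub] at e7
  have e9 : Real.exp (n / 6 * (Real.log n - 2) - 3 * δ * n) * (n * n) ≤
      Real.exp (m * (Real.log n - 10 * δ) + -(2 * (m + j : ℕ)) - g * Real.log n) := by
    have : n * n = Real.exp (Real.log n + Real.log n) := by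
      rw [Real.exp_add, Real.exp_log n0]
    rw [this, ← Real.exp_add]
    refine Real.exp_le_exp.2 ?_
    have b2 : m * δ ≤ n / 6 * δ := mul_le_mul_of_nonneg_right (by linarith) hδ0.le
    have b3 : 0 ≤ δ * n := by positivity
    push_cast
    linarith
  have e10 : 2 * n ≤ n * n := mul_le_mul_of_nonneg_right n2 n0.le
  have e11 := mul_le_mul_of_nonneg_left e10
    (Real.exp_pos (n / 6 * (Real.log n - 2) - 3 * δ * n)).le
  refine le_of_mul_le_mul_left ?_ n0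
  linarith

theorem num_d {y δ n : ℝ} (hy : y ^ 200 = n) (hδ0 : 0 < δ) (hδ : δ ≤ 1 / 2)
    (h1 : 1000000 ≤ δ * y) : 1000000 ≤ y ∧ 1000000 ≤ y ^ 110 ∧ y ^ 110 ≤ y ^ 196 ∧
      y ^ 196 ≤ y ^ 198 ∧ 1000000 * y ^ 199 ≤ δ * n ∧ 1000000 * y ^ 198 ≤ y ^ 199 ∧
      δ * n ≤ 1 / 2 * n := by
  have y1 : 1000000 ≤ y := by nlinarith
  have y0 : 0 < y := by linarith
  have p1 : ∀ a b : ℕ, a ≤ b → y ^ a ≤ y ^ b := fun a b h => pow_le_pow_right₀ (by linarith) h
  refine ⟨y1, y1.trans (by simpa using p1 1 110 (by norm_num)), p1 _ _ (by norm_num),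
    p1 _ _ (by norm_num), ?_, ?_, mul_le_mul_of_nonneg_right hδ (by rw [← hy]; positivity)⟩
  · have := mul_le_mul_of_nonneg_right h1 (show 0 ≤ y ^ 199 by positivity)
    rw [← hy]; linarith [show δ * y * y ^ 199 = δ * y ^ 200 by ring]
  · have := mul_le_mul_of_nonneg_right y1 (show 0 ≤ y ^ 198 by positivity)
    linarith [show y * y ^ 198 = y ^ 199 by ring]

theorem num_e {δ n N a v j p q r s : ℝ} (hδ0 : 0 < δ) (z0 : 1000000 ≤ p) (z1 : p ≤ q) (z2 : q ≤ r)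
    (z3 : 1000000 * s ≤ δ * n) (z4 : 1000000 * r ≤ s) (z5 : δ * n ≤ 1 / 2 * n) (a0 : 0 ≤ a)
    (a1 : a ≤ 1456 * r) (j1 : q / 2000 ≤ j) (j2 : j ≤ r) (hN : N + a = v) (v1 : n ≤ 2 * v + 3)
    (v2 : 2 * v ≤ n) : 2 ≤ n ∧ n / 4 ≤ N ∧ N ≤ n / 2 ∧ 0 < j ∧ 3 * j ≤ N ∧
      180 * (a + 3) + 8 ≤ N ∧ 48 ≤ p ∧ p ≤ 6 * N ∧ 180 * (a + 3) ≤ δ * N ∧ (1 - δ) * n ≤ 2 * N ∧
      ∀ m g, 3 * (m + j + g) = v → 3 * g ≤ a + 2 → n / 6 + 2 + g - m ≤ 1000 * r := by
  have N1 : n / 4 ≤ N := by linarith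
  have N3 := mul_le_mul_of_nonneg_left N1 hδ0.le
  refine ⟨by linarith, N1, by linarith, by linarith, by linarith, by linarith, by linarith,
    by linarith, by linarith, by linarith, fun m g h1 h2 => by linarith⟩

theorem lower_log (n : ℕ) [NeZero n] (hn : n % 6 = 1 ∨ n % 6 = 3) {y δ : ℝ}
    (hy : y ^ 200 = n) (hδ0 : 0 < δ) (hδ : δ ≤ 1 / 2) (h1 : 1000000 ≤ δ * y) :
    Real.exp (n / 6 * (Real.log n - 2) - 3 * δ * n) ≤ numCyc n := by
  obtain ⟨y1, z0, z1, z2, z3, z4, z5⟩ := num_d hy hδ0 hδ h1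
  obtain ⟨l0, l1⟩ := log_le_of_pow hy (le_trans (by norm_num) y1)
  obtain ⟨A, hA, j, a1, j1, j2, habs⟩ := exists_absorber n hn hy (le_trans (by norm_num) y1)
  obtain ⟨⟨hf, hh⟩, -, -, v1, v2⟩ := zmod_facts n hn
  have k0 : ∀ z : ZMod n, 2 * z = 0 → z = 0 := fun z h => by linear_combination hf * h - z * hh
  have hNA : (#(VV (ZMod n) \ A) : ℝ) + #A = #(VV (ZMod n)) := by
    rw [card_sdiff_of_subset hA, Nat.cast_sub (card_le_card hA)]; ring
  have v2' : 2 * (#(VV (ZMod n)) : ℝ) ≤ n := by exact_mod_cast v2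
  obtain ⟨n2, N1, N2, f1, f2, f3, f4, f5, f6, f7, f8⟩ := num_e hδ0 z0 z1 z2 z3 z4 z5
    (Nat.cast_nonneg _) a1 j1 j2 hNA (by exact_mod_cast v1) v2'
  obtain ⟨g1, g2⟩ := num_a hy hδ0 h1 y1 N1 N2 j1
  obtain ⟨m, g, c1, c2, c3, c4⟩ := lower_core n hn A hA j (by exact_mod_cast f1) habs rfl
    f2 f3 hδ f4 f5 g1 g2
  have c1' : 3 * ((m : ℝ) + j + g) = #(VV (ZMod n)) := by exact_mod_cast c1
  have y0 : 0 < y := lt_of_lt_of_le (by norm_num) y1
  refine num_c hδ0 n2 f1 (by linarith only [c1', v2']) l0 ?_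
    (num_b hδ0 hδ (by linarith only [n2]) (by linarith only [n2, N1]) (Nat.cast_nonneg _) f6 f7 c3)
    c4 (by exact_mod_cast (PMs_le_cyc k0).trans (le_numCyc n))
  refine (mul_le_mul (f8 m g c1' (by exact_mod_cast c2)) l1 l0 (by positivity)).trans ?_
  have b3 : 1000 * y ^ 198 * (200 * y) = 200000 * y ^ 199 := by ring
  have b4 : 0 ≤ y ^ 199 := by positivity
  linarith only [b3, b4, z3]

theorem upper_log (n : ℕ) [NeZero n] (hn : n % 6 = 1 ∨ n % 6 = 3) {y δ : ℝ}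
    (hy : y ^ 200 = n) (hδ0 : 0 < δ) (hδ : δ ≤ 1 / 2) (h1 : 1000000 ≤ δ * y) :
    (numCyc n : ℝ) ≤ Real.exp (n / 6 * (Real.log n - 2) + δ * n) := by
  have y1 : 1000000 ≤ y := by nlinarith
  have y0 : 0 < y := by linarith
  have y1' : 1 ≤ y := by linarith
  obtain ⟨⟨hf, hh⟩, h3, -⟩ := zmod_facts n hn
  have k0 : ∀ z : ZMod n, 2 * z = 0 → z = 0 := fun z h => by linear_combination hf * h - z * hh
  obtain ⟨l0, l1⟩ := log_le_of_pow hy y1'
  obtain ⟨t, t1, t2⟩ : ∃ t : ℕ, y ^ 2 ≤ t ∧ (t : ℝ) ≤ 2 * y ^ 2 :=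
    ⟨⌈y ^ 2⌉₊, Nat.le_ceil _, by nlinarith [Nat.ceil_lt_add_one (sq_nonneg y)]⟩
  have t0 : (0 : ℝ) < t := lt_of_lt_of_le (by positivity) t1
  have n1 : y ≤ n := by rw [← hy]; simpa using pow_le_pow_right₀ y1' (show 1 ≤ 200 by norm_num)
  have n0 : (0 : ℝ) < n := by linarith
  have l2 : 2 ≤ Real.log n := by
    rw [Real.le_log_iff_exp_le n0, show (2 : ℝ) = 1 + 1 by norm_num, Real.exp_add]
    nlinarith [Real.exp_one_lt_d9, Real.exp_pos 1]
  have b1 : (Real.log n + 6) / t ≤ δ / 2 := by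
    rw [div_le_iff₀ t0]
    have := mul_le_mul_of_nonneg_left t1 hδ0.le
    nlinarith
  have b2 : 24 * ((t : ℝ) ^ 6 / n) ≤ δ / 2 := by
    rw [← mul_div_assoc, div_le_iff₀ n0, ← hy]
    have d1 := pow_le_pow_left₀ t0.le t2 6
    have d2 := pow_le_pow_right₀ y1' (show 12 ≤ 199 by norm_num)
    have d3 := mul_le_mul_of_nonneg_right h1 (show 0 ≤ y ^ 199 by positivity)
    have d4 : 0 ≤ y ^ 199 := by positivity
    linarith [show δ * y * y ^ 199 = δ * y ^ 200 by ring, show (2 * y ^ 2) ^ 6 = 64 * y ^ 12 by ring]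
  have key := cyc_le k0 h3 (Real.exp (n / 2 * ((Real.log n - 2) / 3 + δ))) (fun W hW => by
    refine (tri_univ.upper W (T := t) (by exact_mod_cast t0) (d := n) (by linarith)
      (fun v _ => by exact_mod_cast (deg_le v).trans (ZMod.card n).le)).trans
      (Real.exp_le_exp.2 ?_)
    have hW' : 2 * (#W : ℝ) ≤ n := by exact_mod_cast hW
    exact mul_le_mul (by linarith) (by linarith)
      (add_nonneg (add_nonneg (by linarith) (by positivity)) (by positivity)) (by linarith))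
  refine le_trans (by exact_mod_cast numCyc_le n) (key.trans ?_)
  have b3 : 8 ≤ Real.exp (δ * n / 2) := by
    have := mul_le_mul_of_nonneg_left n1 hδ0.le
    linarith [Real.add_one_le_exp (δ * n / 2)]
  refine (mul_le_mul_of_nonneg_right b3 (Real.exp_pos _).le).trans (le_of_eq ?_)
  rw [← Real.exp_add]; congr 1; ring

theorem main (ε : ℝ) (h0 : 0 < ε) (h1 : ε < 1) : ∃ N : ℕ, ∀ n : ℕ, N ≤ n →
    (n % 6 = 1 ∨ n % 6 = 3) →
      ((1 - ε) * n / Real.exp 2) ^ ((n : ℝ) / 6) ≤ numCyc n ∧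
        (numCyc n : ℝ) ≤ ((1 + ε) * n / Real.exp 2) ^ ((n : ℝ) / 6) := by
  set δ := ε / 18 with hδ
  have d0 : 0 < δ := by positivity
  refine ⟨⌈(1000000 / δ) ^ 200⌉₊, fun n hN hn => ?_⟩
  have : NeZero n := ⟨by omega⟩
  have n0 : (0 : ℝ) < n := by exact_mod_cast (show 0 < n by omega)
  set y := (n : ℝ) ^ (((200 : ℕ) : ℝ)⁻¹) with hy
  have hy1 : y ^ 200 = n := Real.rpow_inv_natCast_pow n0.le (by norm_num)
  have hy2 : 1000000 ≤ δ * y := by
    rw [mul_comm, ← div_le_iff₀ d0]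
    refine le_of_pow_le_pow_left₀ (show 200 ≠ 0 by norm_num) (by positivity) ?_
    rw [hy1]
    exact Nat.ceil_le.1 hN
  have e : ∀ c : ℝ, 0 < c → (c * n / Real.exp 2) ^ ((n : ℝ) / 6) =
      Real.exp (n / 6 * (Real.log n - 2) + Real.log c / 6 * n) := by
    intro c hc
    rw [Real.rpow_def_of_pos (by positivity), Real.log_div (by positivity) (by positivity),
      Real.log_mul hc.ne' n0.ne', Real.log_exp]
    congr 1; ring
  rw [e _ (by linarith), e _ (by linarith)]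
  refine ⟨le_trans (Real.exp_le_exp.2 ?_) (lower_log n hn hy1 d0 (by linarith) hy2),
    (upper_log n hn hy1 d0 (by linarith) hy2).trans (Real.exp_le_exp.2 ?_)⟩
  · have a := Real.log_le_sub_one_of_pos (show 0 < 1 - ε by linarith)
    have := mul_le_mul_of_nonneg_right (show Real.log (1 - ε) / 6 ≤ -(3 * δ) by linarith) n0.le
    linarith
  · have a := Real.one_sub_inv_le_log_of_pos (show 0 < 1 + ε by linarith)
    have b : (1 + ε)⁻¹ ≤ 1 - ε / 3 := by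
      rw [inv_le_iff_one_le_mul₀ (by linarith)]; nlinarith
    have := mul_le_mul_of_nonneg_right (show δ ≤ Real.log (1 + ε) / 6 by linarith) n0.le
    linarith

open Filter Topology in
theorem limit : Tendsto (fun n : ℕ => (numCyc n : ℝ) ^ (6 / (n : ℝ)) / n)
    (atTop ⊓ 𝓟 {n : ℕ | n % 6 = 1 ∨ n % 6 = 3}) (𝓝 (1 / Real.exp 2)) := by
  rw [Metric.tendsto_nhds]
  intro ε hε
  obtain ⟨N, hN⟩ := main (min ε (1 / 2)) (by positivity)
    (lt_of_le_of_lt (min_le_right _ _) (by norm_num))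
  rw [eventually_inf_principal, eventually_atTop]
  refine ⟨N, fun n hn h6 => ?_⟩
  obtain ⟨h1, h2⟩ := hN n hn h6
  have h6' : n % 6 = 1 ∨ n % 6 = 3 := h6
  have n0 : (0 : ℝ) < n := by exact_mod_cast (show 0 < n by omega)
  have e1 : min ε (1 / 2) ≤ ε := min_le_left _ _
  have e2 : min ε (1 / 2) ≤ 1 / 2 := min_le_right _ _
  have e3 : 0 < min ε (1 / 2) := by positivity
  set η := min ε (1 / 2)
  have x1 : 1 < Real.exp 2 := by linarith [Real.add_one_le_exp 2]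
  have e : ∀ c : ℝ, 0 ≤ c → ((c * n / Real.exp 2) ^ ((n : ℝ) / 6)) ^ (6 / (n : ℝ)) / n =
      1 / Real.exp 2 + (c - 1) / Real.exp 2 := by
    intro c hc
    rw [← Real.rpow_mul (by positivity), show (n : ℝ) / 6 * (6 / n) = 1 by field_simp,
      Real.rpow_one]
    field_simp; ring
  have a1 := div_le_div_of_nonneg_right (Real.rpow_le_rpow
    (Real.rpow_nonneg (div_nonneg (mul_nonneg (by linarith) n0.le) (by linarith)) _) h1
    (show 0 ≤ 6 / (n : ℝ) by positivity)) n0.le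
  have a2 := div_le_div_of_nonneg_right (Real.rpow_le_rpow (Nat.cast_nonneg _) h2
    (show 0 ≤ 6 / (n : ℝ) by positivity)) n0.le
  rw [e _ (by linarith)] at a1 a2
  have b : η / Real.exp 2 < η := div_lt_self e3 x1
  rw [show 1 - η - 1 = -η by ring, neg_div] at a1
  rw [add_sub_cancel_left] at a2
  rw [Real.dist_eq, abs_lt]
  constructor <;> linarith

end CSTS
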